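import Pool.Agent.H81.GT.TargetsT
import Pool.Agent.H54.LS.Sph

/-!
Theorem G (MP_ee74d2_an), group T: the wave belongs to the class.
-/

set_option autoImplicit false

namespace Pool.Agent.H81.GT

open MeasureTheory Set FourierTransform
open scoped ENNReal NNReal RealInnerProductSpace
open Pool.Agent.H83.LS
open Pool.Agent.H83.G (Z TF Rg Cls pl Lo Bp TP wt)
open Pool.Agent.H54.LS (jo_last pr_jo jo_norm_sq hor_jo)

/-- the cap multiplier does not see the cut-off -/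
theorem cls_eq {n L : ℕ} {κ R s : ℝ} {a f : EE (n + 1) → ℂ} {X χ : ℝ → ℂ} (hκ : κ ≤ 1 / 8)
    (ha : SymE n κ a) (hX : IsX X χ) (hR : 1 ≤ R) (hs : 0 < s) (hRs : 1 ≤ R * s)
    {φ : EE n → ℂ} (hφ : φ ∈ Bp n L) (η : EE n) (ζ : Z n) :
    Pool.Agent.H83.G.cp φ η s ζ * Gf X R a f ζ =
      Pool.Agent.H83.G.cp φ η s ζ * Gf X R (ac a η s) f ζ := by
  by_cases h1 : Pool.Agent.H83.G.cp φ η s ζ = 0
  · rw [h1, zero_mul, zero_mul]
  by_cases h2 : a (fz ζ) = 0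
  · unfold Gf ac
    rw [h2]
    simp
  by_cases h3 : X (R * ((ζ.1 + ζ.2.2) / 2 - ‖fz ζ‖)) = 0
  · unfold Gf
    rw [h3]
    simp
  have hR0 : 0 < R := by linarith
  have hB : Bu (s⁻¹ • ((al (fz ζ))⁻¹ • pr (fz ζ) - η)) = 1 := by
    have h4 : ‖s⁻¹ • (ζ.1⁻¹ • ζ.2.1 - η)‖ < 1 := by
      by_contra h
      exact h1 (hφ.2.1 _ (not_lt.1 h))
    rw [norm_smul, norm_inv, Real.norm_of_nonneg hs.le, inv_mul_lt_iff₀ hs, mul_one] at h4
    have h5 := hX.2.1 _ h3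
    rw [abs_mul, abs_of_pos hR0] at h5
    obtain ⟨h6, h7, h8⟩ := ha.2 _ h2
    have hpr : pr (fz ζ) = ζ.2.1 := pr_jo _ _
    have hla : (fz ζ) (Fin.last n) = (ζ.1 - ζ.2.2) / 2 := jo_last _ _
    have hn2 : ‖ζ.2.1‖ ≤ ‖fz ζ‖ := by
      have : ‖fz ζ‖ ^ 2 = ‖ζ.2.1‖ ^ 2 + ((ζ.1 - ζ.2.2) / 2) ^ 2 := jo_norm_sq _ _
      nlinarith [norm_nonneg ζ.2.1, norm_nonneg (fz ζ), sq_nonneg ((ζ.1 - ζ.2.2) / 2)]
    have hla0 : 0 ≤ (fz ζ) (Fin.last n) := by nlinarith [norm_nonneg (fz ζ)]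
    have hal : ‖fz ζ‖ ≤ al (fz ζ) := by unfold al; linarith
    have hal0 : 0 < al (fz ζ) := by linarith
    have hd : |ζ.1 - al (fz ζ)| ≤ 1 / 1000 * R⁻¹ := by
      have : ζ.1 - al (fz ζ) = (ζ.1 + ζ.2.2) / 2 - ‖fz ζ‖ := by
        unfold al
        rw [hla]
        ring
      rw [this]
      have h9 : |(ζ.1 + ζ.2.2) / 2 - ‖fz ζ‖| = R⁻¹ * (R * |(ζ.1 + ζ.2.2) / 2 - ‖fz ζ‖|) := by
        field_simp
      rw [h9, mul_comm (1 / 1000 : ℝ)]
      gcongr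
    have hRi : R⁻¹ ≤ 1 := inv_le_one_of_one_le₀ hR
    have hz1 : 1 / 4 ≤ ζ.1 := by
      have := (abs_le.1 hd).1
      have hRi0 : 0 < R⁻¹ := by positivity
      nlinarith
    have hz0 : 0 < ζ.1 := by linarith
    have hRs' : R⁻¹ ≤ s := by
      rw [inv_le_iff_one_le_mul₀ hR0]
      linarith [mul_comm R s]
    have h10 : ‖ζ.1⁻¹ • ζ.2.1 - (al (fz ζ))⁻¹ • ζ.2.1‖ ≤ s := by
      rw [← sub_smul, norm_smul, Real.norm_eq_abs]
      have e1 : ζ.1⁻¹ - (al (fz ζ))⁻¹ = -(ζ.1 - al (fz ζ)) / (ζ.1 * al (fz ζ)) := by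
        field_simp
        ring
      rw [e1, abs_div, abs_neg, abs_of_pos (mul_pos hz0 hal0), div_mul_eq_mul_div,
        div_le_iff₀ (mul_pos hz0 hal0)]
      calc |ζ.1 - al (fz ζ)| * ‖ζ.2.1‖ ≤ (1 / 1000 * R⁻¹) * al (fz ζ) := by
            gcongr
            linarith
        _ ≤ s * (ζ.1 * al (fz ζ)) := by
            have : 1 / 1000 * R⁻¹ ≤ s * ζ.1 := by nlinarith
            nlinarith
    have h11 : ‖(al (fz ζ))⁻¹ • pr (fz ζ) - η‖ ≤ 2 * s := by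
      rw [hpr]
      calc ‖(al (fz ζ))⁻¹ • ζ.2.1 - η‖ = ‖-(ζ.1⁻¹ • ζ.2.1 - (al (fz ζ))⁻¹ • ζ.2.1) +
            (ζ.1⁻¹ • ζ.2.1 - η)‖ := by congr 1; abel
        _ ≤ ‖-(ζ.1⁻¹ • ζ.2.1 - (al (fz ζ))⁻¹ • ζ.2.1)‖ + ‖ζ.1⁻¹ • ζ.2.1 - η‖ := norm_add_le _ _
        _ ≤ 2 * s := by rw [norm_neg]; linarith
    unfold Bu
    apply Real.smoothTransition.one_of_one_le
    rw [norm_smul, norm_inv, Real.norm_of_nonneg hs.le]
    have h12 : s⁻¹ * ‖(al (fz ζ))⁻¹ • pr (fz ζ) - η‖ ≤ 2 := by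
      rw [inv_mul_le_iff₀ hs]
      linarith
    have h13 : 0 ≤ s⁻¹ * ‖(al (fz ζ))⁻¹ • pr (fz ζ) - η‖ := by positivity
    nlinarith
  congr 1
  unfold Gf
  have : ac a η s (fz ζ) = a (fz ζ) := by
    unfold ac
    rw [hB]
    simp
  rw [this]

theorem pf_CLS (hREP : T_REP) (hACS : T_ACS) (hSHP : T_SHP) (hWM : Pool.Agent.H83.G.T_WM)
    (hAVG : Pool.Agent.H83.G.T_AVG) (hLOA : Pool.Agent.H83.G.T_LOA)
    (hLOB : Pool.Agent.H83.G.T_LOB)
    (hSCH : Pool.Agent.H83.G.T_SCH) : T_CLS := by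
  intro n L κ δ a X χ hn hL hκ ha hX hδ
  obtain ⟨CW, hCW⟩ := hWM n (n + 3) L 1 (by omega) zero_le_one
  obtain ⟨CA, hCA⟩ := hAVG n (n + 3) le_rfl
  obtain ⟨CS, hCS, hS⟩ := hSHP n κ δ a X χ hn hκ ha hX hδ
  set K : ℝ := 2 ^ (n + 3) * CW * CA * (CS * 16 ^ (n + 2)) with hK
  have hK0 : 0 ≤ K := by positivity
  refine ⟨1 + K, by positivity, ?_⟩
  intro R A f hR hA hf
  have hR0 : 0 < R := by linarith
  obtain ⟨hTC, hRg, -⟩ := hREP n κ R A a f X χ hκ ha hX hR hf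
  refine ⟨hTC, hRg, ?_⟩
  intro φ hφ η s r z₀ hs hs1 hr hrR
  have hRs : 1 ≤ R * s := by nlinarith
  have hTP : TP φ η s (Gf X R a f) = TP φ η s (Gf X R (ac a η s) f) := by
    funext z
    unfold TP
    congr 1
    funext ζ
    exact cls_eq hκ ha hX hR hs hRs hφ η ζ
  rw [hTP]
  obtain ⟨hs1', hs2', hs3'⟩ := hACS n κ s η a hκ ha hs
  by_cases hz : ∃ ξ₀, ac a η s ξ₀ ≠ 0
  swap
  · have h0 : Gf X R (ac a η s) f = fun _ => 0 := by
      funext ζ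
      have : ac a η s (fz ζ) = 0 := by
        by_contra h
        exact hz ⟨_, h⟩
      unfold Gf
      rw [this]
      simp
    have h1 : ∀ z, TP φ η s (Gf X R (ac a η s) f) z = 0 := by
      intro z
      rw [h0]
      unfold TP TF
      simp
    simp [h1]
  obtain ⟨ξ₀, hξ₀⟩ := hz
  obtain ⟨h1, h2⟩ := hs3' ξ₀ hξ₀
  set η' : EE n := (al ξ₀)⁻¹ • pr ξ₀ with hη'
  obtain ⟨hTC', hRg', hrep'⟩ := hREP n κ R A (ac a η s) f X χ hκ hs1' hX hR hf
  set G := Gf X R (ac a η s) f with hG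
  set x : Z n := r⁻¹ • Lo η s z₀ with hx
  have hr0 : 0 < r := by linarith
  -- the weight on the plank
  have h3 : ∫⁻ z in pl η s r z₀, ‖TP φ η s G z‖ₑ ^ 2 ≤ ENNReal.ofReal (2 ^ (n + 3)) *
      ∫⁻ z, ‖TP φ η s G z‖ₑ ^ 2 * ENNReal.ofReal (wt (n + 3) (r⁻¹ • Lo η s z - x)) := by
    rw [← lintegral_const_mul' _ _ ENNReal.ofReal_ne_top]
    refine le_trans ?_ (setLIntegral_le_lintegral (pl η s r z₀) _)
    refine setLIntegral_mono' ?_ ?_
    · have hc : Continuous (fun z : Z n => ‖Lo η s (z - z₀)‖) := by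
        unfold Lo
        fun_prop
      exact (isClosed_le hc continuous_const).measurableSet
    · intro z hz
      have h4 : ‖r⁻¹ • Lo η s z - x‖ ≤ 1 := by
        have e1 : r⁻¹ • Lo η s z - x = r⁻¹ • Lo η s (z - z₀) := by
          rw [hx, ← smul_sub, ((hLOA n).1 η s z z₀).2.1]
        rw [e1, norm_smul, norm_inv, Real.norm_of_nonneg hr0.le, inv_mul_le_iff₀ hr0, mul_one]
        exact hz
      have h5 : (1 : ℝ≥0∞) ≤ ENNReal.ofReal (2 ^ (n + 3)) *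
          ENNReal.ofReal (wt (n + 3) (r⁻¹ • Lo η s z - x)) := by
        rw [← ENNReal.ofReal_mul (by positivity)]
        apply ENNReal.one_le_ofReal.2
        unfold wt
        rw [← div_eq_mul_inv, le_div_iff₀ (by positivity), one_mul]
        gcongr
        linarith
      calc ‖TP φ η s G z‖ₑ ^ 2 = ‖TP φ η s G z‖ₑ ^ 2 * 1 := (mul_one _).symm
        _ ≤ ‖TP φ η s G z‖ₑ ^ 2 * (ENNReal.ofReal (2 ^ (n + 3)) *
          ENNReal.ofReal (wt (n + 3) (r⁻¹ • Lo η s z - x))) := by gcongr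
        _ = _ := by ring
  have hsupp : ∀ ζ, G ζ ≠ 0 → 1 / 4 ≤ ζ.1 ∧ ζ.1 ≤ 8 := by
    intro ζ hζ
    obtain ⟨h4, h5, -, -⟩ := hRg' ζ hζ
    constructor <;> linarith
  have h4 := hCW φ hφ η η s s r x G hs hs hr (by nlinarith) (by
    rw [sub_self, norm_zero]; positivity) hTC' hsupp
  -- the sharp planks
  set S : ℝ≥0∞ := ENNReal.ofReal (CS * R ^ δ * (A ^ 2 * (R * s ^ 2 / (16 * r)) ^ n *
    (16 * r / s) ^ (n + 2))) with hSd
  have hcont : Continuous (TF G) := (hSCH n G hTC').1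
  have h5 : ∀ z₁, ∫⁻ z in pl η s r z₁, ‖TF G z‖ₑ ^ 2 ≤ S := by
    intro z₁
    have h6 : pl η s r z₁ ⊆ pl η' s (16 * r) z₁ := by
      intro z hz
      have h7 := (hLOB n 3 (by norm_num)).2.2.1 η η' s s (z - z₁) hs le_rfl (by
        linarith)
      have hz' : ‖Lo η s (z - z₁)‖ ≤ r := hz
      show ‖Lo η' s (z - z₁)‖ ≤ 16 * r
      nlinarith [norm_nonneg (Lo η s (z - z₁))]
    refine (lintegral_mono_set h6).trans ?_
    have h7 := hS R A s (16 * r) η η' z₁ f hR hf hA hs hs1 (by linarith) (by nlinarith)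
      (by linarith) (by rw [norm_sub_rev]; exact h1)
    refine le_trans (le_of_eq ?_) h7
    refine lintegral_congr fun z => ?_
    rw [hrep' z]
  have h6 := hCA (fun z => ‖TF G z‖ₑ ^ 2) η s r 1 x S (hcont.enorm.measurable.pow_const 2) hs hr0
    one_pos le_rfl h5
  simp only [one_smul, inv_one, one_pow, ENNReal.ofReal_one, mul_one] at h6
  calc ∫⁻ z in pl η s r z₀, ‖TP φ η s G z‖ₑ ^ 2
      ≤ ENNReal.ofReal (2 ^ (n + 3)) * (CW * (CA * S)) := by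
        refine h3.trans ?_
        gcongr
        refine h4.trans ?_
        gcongr
    _ = ENNReal.ofReal (2 ^ (n + 3) * (CW * (CA * (CS * R ^ δ *
          (A ^ 2 * (R * s ^ 2 / (16 * r)) ^ n * (16 * r / s) ^ (n + 2)))))) := by
        rw [ENNReal.ofReal_mul (by positivity), ENNReal.ofReal_mul (p := (CW : ℝ)) CW.2,
          ENNReal.ofReal_mul (p := (CA : ℝ)) CA.2, ENNReal.ofReal_coe_nnreal,
          ENNReal.ofReal_coe_nnreal]
    _ ≤ ENNReal.ofReal (((1 + K) * R ^ δ * A) ^ 2 * (R * s ^ 2 / r) ^ n *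
          (r / s) ^ (n + 2)) := by
        apply ENNReal.ofReal_le_ofReal
        have e1 : R * s ^ 2 / (16 * r) ≤ R * s ^ 2 / r := by
          apply div_le_div_of_nonneg_left (by positivity) hr0
          linarith
        have e2 : (16 * r / s) ^ (n + 2) = 16 ^ (n + 2) * (r / s) ^ (n + 2) := by
          rw [← mul_pow]
          congr 1
          ring
        have hRδ : 1 ≤ R ^ δ := Real.one_le_rpow hR hδ.le
        calc 2 ^ (n + 3) * ((CW : ℝ) * (CA * (CS * R ^ δ *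
              (A ^ 2 * (R * s ^ 2 / (16 * r)) ^ n * (16 * r / s) ^ (n + 2)))))
            ≤ 2 ^ (n + 3) * ((CW : ℝ) * (CA * (CS * R ^ δ *
              (A ^ 2 * (R * s ^ 2 / r) ^ n * (16 ^ (n + 2) * (r / s) ^ (n + 2)))))) := by
              rw [e2]
              gcongr
          _ = K * R ^ δ * (A ^ 2 * ((R * s ^ 2 / r) ^ n * (r / s) ^ (n + 2))) := by
              rw [hK]; ring
          _ ≤ ((1 + K) ^ 2 * (R ^ δ) ^ 2) * (A ^ 2 * ((R * s ^ 2 / r) ^ n * (r / s) ^ (n + 2))) := by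
              gcongr
              · nlinarith
              · nlinarith
          _ = _ := by ring

end Pool.Agent.H81.GT
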