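import Pool.Agent.H81.GT.Defs2
import Pool.Agent.H19.LS.STRONG

/-!
Local smoothing, general data: from one sector to all directions, scaling.
-/

set_option autoImplicit false

namespace Pool.Agent.H81.GT

open MeasureTheory Set FourierTransform
open scoped ENNReal NNReal SchwartzMap
open Pool.Agent.H83.LS Pool.Agent.H19.LS

/-! ### partition of the directions -/

/-- a linear isometry which maps the unit vector `ω` to the last basis vector -/
theorem exists_iso {n : ℕ} (ω : EE (n + 1)) (hω : ‖ω‖ = 1) :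
    ∃ O : EE (n + 1) ≃ₗᵢ[ℝ] EE (n + 1), O ω = EuclideanSpace.single (Fin.last n) 1 := by
  refine ⟨(ℝ ∙ (ω - EuclideanSpace.single (Fin.last n) (1 : ℝ)))ᗮ.reflection, ?_⟩
  apply Submodule.reflection_sub
  rw [hω]
  simp

/-- the cutoff in the direction -/
noncomputable def psd {n : ℕ} (κ : ℝ) (ζ : EE (n + 1)) : ℝ :=
  Real.smoothTransition ((ζ (Fin.last n) / ‖ζ‖ - (1 - κ)) * (2 / κ))

theorem psd_nonneg {n : ℕ} (κ : ℝ) (ζ : EE (n + 1)) : 0 ≤ psd κ ζ := Real.smoothTransition.nonneg _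

theorem psd_one {n : ℕ} {κ : ℝ} (hκ : 0 < κ) {ζ : EE (n + 1)} (hζ : ζ ≠ 0)
    (h : (1 - κ / 2) * ‖ζ‖ ≤ ζ (Fin.last n)) : psd κ ζ = 1 := by
  unfold psd
  apply Real.smoothTransition.one_of_one_le
  have hn : 0 < ‖ζ‖ := norm_pos_iff.2 hζ
  have h1 : 1 - κ / 2 ≤ ζ (Fin.last n) / ‖ζ‖ := by
    rw [le_div_iff₀ hn]
    exact h
  rw [mul_div_assoc', le_div_iff₀ hκ]
  nlinarith

theorem psd_supp {n : ℕ} {κ : ℝ} (hκ : 0 < κ) {ζ : EE (n + 1)} (hζ : ζ ≠ 0)
    (h : psd κ ζ ≠ 0) : (1 - κ) * ‖ζ‖ ≤ ζ (Fin.last n) := by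
  by_contra hc
  apply h
  unfold psd
  apply Real.smoothTransition.zero_of_nonpos
  have hn : 0 < ‖ζ‖ := norm_pos_iff.2 hζ
  have h1 : ζ (Fin.last n) / ‖ζ‖ ≤ 1 - κ := by
    rw [div_le_iff₀ hn]
    exact (not_le.1 hc).le
  have h2 : 0 < 2 / κ := by positivity
  nlinarith

theorem psd_smooth {n : ℕ} (κ : ℝ) {ζ : EE (n + 1)} (hζ : ζ ≠ 0) :
    ContDiffAt ℝ (⊤ : ℕ∞) (psd κ) ζ := by
  unfold psd
  have h1 : ContDiffAt ℝ (⊤ : ℕ∞) (fun ζ : EE (n + 1) => ζ (Fin.last n)) ζ := by fun_prop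
  have h2 : ContDiffAt ℝ (⊤ : ℕ∞) (fun ζ : EE (n + 1) => ‖ζ‖) ζ := contDiffAt_norm ℝ hζ
  have h3 : ‖ζ‖ ≠ 0 := norm_ne_zero_iff.2 hζ
  exact Real.smoothTransition.contDiff.contDiffAt.comp ζ
    (((h1.div h2 h3).sub contDiffAt_const).mul contDiffAt_const)

/-- partition of the radial cutoff into rotated sectors -/
theorem partition (n : ℕ) (κ : ℝ) (hκ : 0 < κ) : ∃ (J : ℕ)
    (O : Fin J → EE (n + 1) ≃ₗᵢ[ℝ] EE (n + 1)) (a : Fin J → EE (n + 1) → ℂ),
    (∀ j, SymE n κ (a j)) ∧ ∀ ξ, ((chi ‖ξ‖ : ℝ) : ℂ) = ∑ j, a j (O j ξ) := by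
  classical
  -- finite cover of the annulus
  obtain ⟨O, hO⟩ : ∃ O : EE (n + 1) → EE (n + 1) ≃ₗᵢ[ℝ] EE (n + 1), ∀ ω, ‖ω‖ = 1 →
      O ω ω = EuclideanSpace.single (Fin.last n) 1 := by
    choose! O hO using fun (ω : EE (n + 1)) (hω : ‖ω‖ = 1) => exists_iso ω hω
    exact ⟨O, hO⟩
  obtain ⟨U, hU⟩ : ∃ U : EE (n + 1) → Set (EE (n + 1)), U = fun ω =>
      {ξ | (1 - κ / 2) * ‖ξ‖ < (O ω ξ) (Fin.last n)} := ⟨_, rfl⟩
  have hUo : ∀ ω, IsOpen (U ω) := by
    intro ω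
    rw [hU]
    refine isOpen_lt (by fun_prop) ?_
    have h1 : Continuous fun ξ : EE (n + 1) => O ω ξ := (O ω).continuous
    fun_prop
  have hc : IsCompact (Metric.sphere (0 : EE (n + 1)) 1) := isCompact_sphere _ _
  obtain ⟨t, ht1, ht2⟩ := hc.elim_nhds_subcover U (fun ω hω => by
    refine (hUo ω).mem_nhds ?_
    have hω1 : ‖ω‖ = 1 := by simpa using hω
    rw [hU]
    show (1 - κ / 2) * ‖ω‖ < (O ω ω) (Fin.last n)
    rw [hO ω hω1, hω1]
    simp
    linarith)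
  -- the sum
  obtain ⟨S, hS⟩ : ∃ S : EE (n + 1) → ℝ, S = fun ξ => ∑ ω ∈ t, psd κ (O ω ξ) := ⟨_, rfl⟩
  have hS1 : ∀ ξ, ξ ≠ 0 → 1 ≤ S ξ := by
    intro ξ hξ
    have hn : 0 < ‖ξ‖ := norm_pos_iff.2 hξ
    have h1 : ‖ξ‖⁻¹ • ξ ∈ Metric.sphere (0 : EE (n + 1)) 1 := by
      rw [mem_sphere_zero_iff_norm, norm_smul, norm_inv, norm_norm, inv_mul_cancel₀ hn.ne']
    obtain ⟨ω, hω, h2⟩ := Set.mem_iUnion₂.1 (ht2 h1)
    rw [hU] at h2
    have h3 : (1 - κ / 2) * ‖‖ξ‖⁻¹ • ξ‖ < (O ω (‖ξ‖⁻¹ • ξ)) (Fin.last n) := h2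
    rw [norm_smul, norm_inv, norm_norm, inv_mul_cancel₀ hn.ne', mul_one, map_smul] at h3
    have h4 : (‖ξ‖⁻¹ • O ω ξ) (Fin.last n) = ‖ξ‖⁻¹ * (O ω ξ) (Fin.last n) := by simp
    rw [h4] at h3
    have h5 : (1 - κ / 2) * ‖O ω ξ‖ ≤ (O ω ξ) (Fin.last n) := by
      rw [LinearIsometryEquiv.norm_map]
      have h6 := mul_lt_mul_of_pos_right h3 hn
      rw [mul_comm (‖ξ‖⁻¹), mul_assoc, inv_mul_cancel₀ hn.ne', mul_one] at h6
      exact h6.le
    have h7 : O ω ξ ≠ 0 := by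
      intro h0
      have h8 := LinearIsometryEquiv.norm_map (O ω) ξ
      rw [h0, norm_zero] at h8
      exact hn.ne h8
    rw [hS]
    have h9 := psd_one hκ h7 h5
    calc (1 : ℝ) = psd κ (O ω ξ) := h9.symm
      _ ≤ ∑ ω ∈ t, psd κ (O ω ξ) :=
        Finset.single_le_sum (f := fun ω => psd κ (O ω ξ)) (fun _ _ => psd_nonneg _ _) hω
  have hSs : ∀ ξ, ξ ≠ 0 → ContDiffAt ℝ (⊤ : ℕ∞) S ξ := by
    intro ξ hξ
    rw [hS]
    refine ContDiffAt.sum fun ω _ => ?_
    have h7 : O ω ξ ≠ 0 := by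
      intro h0
      have h8 := LinearIsometryEquiv.norm_map (O ω) ξ
      rw [h0, norm_zero] at h8
      exact hξ (norm_eq_zero.1 h8.symm)
    have h8 : ContDiffAt ℝ (⊤ : ℕ∞) (fun ξ : EE (n + 1) => O ω ξ) ξ :=
      (O ω).contDiff.contDiffAt
    exact (psd_smooth κ h7).comp ξ h8
  obtain ⟨m, hm⟩ : ∃ m : Fin t.card ≃ t, True := ⟨t.equivFin.symm, trivial⟩
  refine ⟨t.card, fun j => O (m j), fun j ζ =>
    ((chi ‖ζ‖ * psd κ ζ / S ((O (m j)).symm ζ) : ℝ) : ℂ), fun j => ⟨?_, ?_⟩, ?_⟩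
  · rw [contDiff_iff_contDiffAt]
    intro ζ
    by_cases hζ : ζ = 0
    · have h1 : (fun ζ : EE (n + 1) => ((chi ‖ζ‖ * psd κ ζ / S ((O (m j)).symm ζ) : ℝ) : ℂ))
          =ᶠ[nhds ζ] fun _ => 0 := by
        have h2 : Metric.ball ζ (1 / 2) ∈ nhds ζ := Metric.ball_mem_nhds _ (by norm_num)
        filter_upwards [h2] with z hz
        rw [hζ, mem_ball_zero_iff] at hz
        have h3 : chi ‖z‖ = 0 := by
          by_contra h4
          have := (chi_supp _ h4).1
          linarith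
        rw [h3]
        simp
      exact contDiffAt_const.congr_of_eventuallyEq h1
    · have h0 : (O (m j)).symm ζ ≠ 0 := by
        intro h0
        have h8 := LinearIsometryEquiv.norm_map (O (m j)).symm ζ
        rw [h0, norm_zero] at h8
        exact hζ (norm_eq_zero.1 h8.symm)
      have h1 : ContDiffAt ℝ (⊤ : ℕ∞) (fun ζ : EE (n + 1) => chi ‖ζ‖) ζ :=
        chi_smooth.contDiffAt.comp ζ (contDiffAt_norm ℝ hζ)
      have h2 : ContDiffAt ℝ (⊤ : ℕ∞) (fun ζ : EE (n + 1) => S ((O (m j)).symm ζ)) ζ :=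
        (hSs _ h0).comp ζ ((O (m j)).symm.contDiff.contDiffAt)
      have h3 : S ((O (m j)).symm ζ) ≠ 0 := by
        have := hS1 _ h0
        linarith
      exact Complex.ofRealCLM.contDiff.contDiffAt.comp ζ ((h1.mul (psd_smooth κ hζ)).div h2 h3)
  · intro ζ h
    have h1 : chi ‖ζ‖ * psd κ ζ / S ((O (m j)).symm ζ) ≠ 0 := by
      intro h0
      apply h
      show ((chi ‖ζ‖ * psd κ ζ / S ((O (m j)).symm ζ) : ℝ) : ℂ) = 0
      rw [h0]
      simp
    have h2 : chi ‖ζ‖ ≠ 0 := by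
      intro h3
      apply h1
      rw [h3]
      simp
    have h3 : psd κ ζ ≠ 0 := by
      intro h3
      apply h1
      rw [h3]
      simp
    have h4 := chi_supp _ h2
    have h5 : ζ ≠ 0 := by
      rintro rfl
      rw [norm_zero] at h4
      linarith [h4.1]
    exact ⟨h4.1, h4.2, psd_supp hκ h5 h3⟩
  · intro ξ
    by_cases hξ : ξ = 0
    · have h3 : chi ‖ξ‖ = 0 := by
        rw [hξ, norm_zero]
        by_contra h4
        have := (chi_supp _ h4).1
        linarith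
      rw [h3]
      simp only [LinearIsometryEquiv.norm_map]
      rw [h3]
      simp
    · have h1 : ∀ j : Fin t.card, ((chi ‖O (m j) ξ‖ * psd κ (O (m j) ξ) /
          S ((O (m j)).symm (O (m j) ξ)) : ℝ) : ℂ) =
          ((chi ‖ξ‖ / S ξ : ℝ) : ℂ) * ((psd κ (O (m j) ξ) : ℝ) : ℂ) := by
        intro j
        rw [LinearIsometryEquiv.norm_map, LinearIsometryEquiv.symm_apply_apply]
        push_cast
        ring
      simp only [h1]
      rw [← Finset.mul_sum]
      have h2 : ∑ j : Fin t.card, ((psd κ (O (m j) ξ) : ℝ) : ℂ) = ((S ξ : ℝ) : ℂ) := by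
        rw [hS]
        push_cast
        rw [← Finset.sum_coe_sort t, ← m.sum_comp]
      rw [h2, ← Complex.ofReal_mul, div_mul_cancel₀]
      have := hS1 ξ hξ
      linarith

/-! ### rotations and scaling -/

/-- rotation of a multiplier -/
theorem MM_rot {d : ℕ} (O : EE d ≃ₗᵢ[ℝ] EE d) (m f : EE d → ℂ) (x : EE d) :
    MM (fun ξ => m (O ξ)) f x = MM m (fun y => f (O.symm y)) (O x) := by
  unfold MM
  have h1 : ∀ ζ : EE d, 𝓕 (fun y => f (O.symm y)) ζ = 𝓕 f (O.symm ζ) := by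
    intro ζ
    exact Real.fourier_comp_linearIsometry O.symm f ζ
  simp_rw [h1]
  rw [← O.measurePreserving.integral_comp' (f := O.toMeasurableEquiv)
    (fun ζ : EE d => e (inner ℝ (O x) ζ) * (m ζ * 𝓕 f (O.symm ζ)))]
  refine integral_congr_ae (Filter.Eventually.of_forall fun ξ => ?_)
  show _ = e (inner ℝ (O x) (O ξ)) * (m (O ξ) * 𝓕 f (O.symm (O ξ)))
  rw [O.symm_apply_apply, O.inner_map_map]

/-- rotation of the space -/
theorem lint_rot {d : ℕ} (O : EE d ≃ₗᵢ[ℝ] EE d) (G : EE d → ℝ≥0∞) :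
    ∫⁻ x, G (O x) = ∫⁻ x, G x :=
  O.measurePreserving.lintegral_comp_emb O.toHomeomorph.measurableEmbedding G

/-- sums of rotated functions -/
theorem sum_rot {J d : ℕ} (O : Fin J → EE d ≃ₗᵢ[ℝ] EE d) (F : Fin J → ℝ → EE d → ℝ≥0∞)
    (hF : ∀ j, Measurable fun p : ℝ × EE d => F j p.1 (O j p.2)) (c : ℝ≥0∞) (hc : c ≠ ⊤)
    (I : Set ℝ) (G : ℝ → EE d → ℝ≥0∞) (hG : ∀ t x, G t x ≤ c * ∑ j, F j t (O j x)) :
    ∫⁻ t in I, ∫⁻ x, G t x ≤ c * ∑ j, ∫⁻ t in I, ∫⁻ x, F j t x := by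
  have h1 : ∀ j t, ∫⁻ x, F j t (O j x) = ∫⁻ x, F j t x := fun j t => lint_rot (O j) (F j t)
  calc ∫⁻ t in I, ∫⁻ x, G t x ≤ ∫⁻ t in I, ∫⁻ x, c * ∑ j, F j t (O j x) :=
        lintegral_mono fun t => lintegral_mono fun x => hG t x
    _ = ∫⁻ t in I, c * ∑ j, ∫⁻ x, F j t x := by
        refine lintegral_congr fun t => ?_
        rw [lintegral_const_mul' _ _ hc, lintegral_finsetSum]
        · simp only [h1]
        · intro j _
          exact (hF j).comp (measurable_const.prodMk measurable_id)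
    _ = c * ∑ j, ∫⁻ t in I, ∫⁻ x, F j t x := by
        rw [lintegral_const_mul' _ _ hc, lintegral_finsetSum]
        intro j _
        simp_rw [← h1]
        exact (hF j).lintegral_prod_right'

/-- dilation of the space -/
theorem lint_smul {d : ℕ} {c : ℝ} (hc : 0 < c) (G : EE d → ℝ≥0∞) :
    ∫⁻ x, G (c • x) = ENNReal.ofReal ((c ^ d)⁻¹) * ∫⁻ x, G x := by
  have h1 : ∫⁻ x, G (c • x) = ∫⁻ x, G x ∂(Measure.map (fun x : EE d => c • x) volume) :=
    ((Homeomorph.smulOfNeZero c hc.ne').measurableEmbedding.lintegral_map _).symm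
  rw [h1, Measure.map_addHaar_smul volume hc.ne', lintegral_smul_measure, finrank_euclideanSpace,
    Fintype.card_fin, abs_of_pos (by positivity)]
  rfl

/-- dilation of the time -/
theorem lint_time {c : ℝ} (hc : 0 < c) (G : ℝ → ℝ≥0∞) :
    ∫⁻ t in Icc (1 : ℝ) 2, G (c * t) = ENNReal.ofReal c⁻¹ * ∫⁻ t in Icc c (2 * c), G t := by
  rw [← lintegral_indicator measurableSet_Icc, ← lintegral_indicator measurableSet_Icc]
  have h1 : ∀ t : ℝ, (Icc (1 : ℝ) 2).indicator (fun t => G (c * t)) t =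
      (Icc c (2 * c)).indicator G (c * t) := by
    intro t
    by_cases h : t ∈ Icc (1 : ℝ) 2
    · rw [indicator_of_mem h, indicator_of_mem]
      exact ⟨by nlinarith [h.1], by nlinarith [h.2]⟩
    · rw [indicator_of_notMem h, indicator_of_notMem]
      intro h2
      apply h
      constructor
      · by_contra h3
        have := h2.1
        nlinarith [not_le.1 h3]
      · by_contra h3
        have := h2.2
        nlinarith [not_le.1 h3]
  simp_rw [h1]
  have h2 : ∫⁻ t : ℝ, (Icc c (2 * c)).indicator G (c * t) =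
      ∫⁻ t, (Icc c (2 * c)).indicator G t ∂(Measure.map (fun t : ℝ => c * t) volume) :=
    ((Homeomorph.mulLeft₀ c hc.ne').measurableEmbedding.lintegral_map _).symm
  rw [h2, Real.map_volume_mul_left hc.ne', lintegral_smul_measure, abs_of_pos (by positivity)]
  rfl

/-- dilation of the wave -/
theorem MM_scale {d : ℕ} {lam : ℝ} (hl : 0 < lam) (t : ℝ) (f : EE d → ℂ) (x : EE d) :
    MM (mT lam t) f x = MM (mT 1 (lam * t)) (fun y => f (lam⁻¹ • y)) (lam • x) := by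
  have hF : ∀ ζ : EE d, 𝓕 (fun y => f (lam⁻¹ • y)) ζ = ((lam ^ d : ℝ) : ℂ) * 𝓕 f (lam • ζ) := by
    intro ζ
    rw [Real.fourier_eq', Real.fourier_eq']
    have h1 := Measure.integral_comp_smul (volume : Measure (EE d))
      (fun v : EE d => Complex.exp ((↑(-2 * Real.pi * inner ℝ v (lam • ζ)) : ℂ) * Complex.I) • f v)
      lam⁻¹
    rw [finrank_euclideanSpace, Fintype.card_fin] at h1
    have h2 : |((lam⁻¹ : ℝ) ^ d)⁻¹| = lam ^ d := by
      rw [inv_pow, inv_inv, abs_of_pos (by positivity)]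
    rw [h2] at h1
    have h3 : ∀ v : EE d, inner ℝ (lam⁻¹ • v) (lam • ζ) = inner ℝ v ζ := by
      intro v
      rw [real_inner_smul_left, real_inner_smul_right, ← mul_assoc, inv_mul_cancel₀ hl.ne', one_mul]
    simp only [h3] at h1
    rw [h1, Complex.real_smul]
  unfold MM
  have h1 := Measure.integral_comp_smul (volume : Measure (EE d))
    (fun ξ : EE d => e (inner ℝ x ξ) * (mT lam t ξ * 𝓕 f ξ)) lam
  rw [finrank_euclideanSpace, Fintype.card_fin, abs_of_pos (by positivity)] at h1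
  have h2 : ∀ ζ : EE d, e (inner ℝ (lam • x) ζ) *
      (mT 1 (lam * t) ζ * 𝓕 (fun y => f (lam⁻¹ • y)) ζ) =
      ((lam ^ d : ℝ) : ℂ) * (e (inner ℝ x (lam • ζ)) * (mT lam t (lam • ζ) * 𝓕 f (lam • ζ))) := by
    intro ζ
    rw [hF ζ]
    have h3 : mT 1 (lam * t) ζ = mT lam t (lam • ζ) := by
      unfold mT
      rw [norm_smul, Real.norm_of_nonneg hl.le, div_one, mul_div_cancel_left₀ _ hl.ne']
      congr 2
      ring
    rw [h3, real_inner_smul_left, real_inner_smul_right]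
    ring
  simp_rw [h2]
  rw [integral_const_mul, h1, Complex.real_smul, ← mul_assoc, ← Complex.ofReal_mul,
    mul_inv_cancel₀ (by positivity), Complex.ofReal_one, one_mul]

theorem BCd_comp {d : ℕ} {A : ℝ} {f : EE d → ℂ} (h : BCd A f) {c : ℝ} (hc : 0 < c) :
    BCd A (fun y => f (c • y)) := by
  obtain ⟨hm, hA, R, hR⟩ := h
  refine ⟨hm.comp (measurable_const_smul c), fun x => hA _, R / c, fun x hx => hR _ ?_⟩
  rw [norm_smul, Real.norm_of_nonneg hc.le]
  rw [div_lt_iff₀ hc] at hx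
  linarith

theorem BCd_rot {d : ℕ} {A : ℝ} {f : EE d → ℂ} (h : BCd A f) (O : EE d ≃ₗᵢ[ℝ] EE d) :
    BCd A (fun y => f (O y)) := by
  obtain ⟨hm, hA, R, hR⟩ := h
  refine ⟨hm.comp O.continuous.measurable, fun x => hA _, R, fun x hx => hR _ ?_⟩
  rw [O.norm_map]
  exact hx

/-- from one sector to all directions -/
theorem res_of_sec {n : ℕ} {κ p₀ : ℝ} (hκ : 0 < κ) (hp₀ : 2 ≤ p₀)
    (hSEC : ∀ q, p₀ < q → SEC n κ q) : RES n p₀ := by
  intro q η hq hη
  have hq0 : 0 ≤ q := by linarith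
  have hq1 : 1 ≤ q := by linarith
  obtain ⟨J, O, a, ha, hsum⟩ := partition n κ hκ
  choose C hC using fun j => hSEC q hq η (a j) hη (ha j)
  refine ⟨(J : ℝ≥0) ^ (q - 1) * ∑ j, C j, fun lam A f hl hf => ?_⟩
  have hl0 : 0 < lam := by linarith
  have hA0 : 0 ≤ A := (norm_nonneg _).trans (hf.2.1 0)
  -- scaling
  obtain ⟨g, hg⟩ : ∃ g : EE (n + 1) → ℂ, g = fun y => f (lam⁻¹ • y) := ⟨_, rfl⟩
  have hgB : BCd A g := by rw [hg]; exact BCd_comp hf (by positivity)
  have e1 : ∫⁻ t in Icc (1 : ℝ) 2, ∫⁻ x, ‖MM (mT lam t) f x‖ₑ ^ q =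
      ENNReal.ofReal (lam ^ (n + 1))⁻¹ * (ENNReal.ofReal lam⁻¹ *
        ∫⁻ t in Icc lam (2 * lam), ∫⁻ x, ‖MM (mT 1 t) g x‖ₑ ^ q) := by
    have h1 : ∀ t, ∫⁻ x, ‖MM (mT lam t) f x‖ₑ ^ q =
        ENNReal.ofReal (lam ^ (n + 1))⁻¹ * ∫⁻ x, ‖MM (mT 1 (lam * t)) g x‖ₑ ^ q := by
      intro t
      rw [← lint_smul hl0 (fun x => ‖MM (mT 1 (lam * t)) g x‖ₑ ^ q)]
      refine lintegral_congr fun x => ?_
      rw [MM_scale hl0 t f x, hg]
    simp_rw [h1]
    rw [lintegral_const_mul' _ _ ENNReal.ofReal_ne_top,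
      lint_time hl0 (fun t => ∫⁻ x, ‖MM (mT 1 t) g x‖ₑ ^ q)]
  have e2 : ∫⁻ x, ‖g x‖ₑ ^ 2 = ENNReal.ofReal (lam ^ (n + 1)) * ∫⁻ x, ‖f x‖ₑ ^ 2 := by
    rw [hg, lint_smul (inv_pos.2 hl0) (fun x => ‖f x‖ₑ ^ 2), inv_pow, inv_inv]
  -- the sum over the sectors
  have hgi : Integrable g := BCd_int A g hgB
  have hgj : ∀ j, BCd A (fun y => g ((O j).symm y)) := fun j => BCd_rot hgB _
  have e3 : ∀ t x, ‖MM (mT 1 t) g x‖ₑ ^ q ≤ (J : ℝ≥0∞) ^ (q - 1) *
      ∑ j, ‖Ua (a j) t (fun y => g ((O j).symm y)) (O j x)‖ₑ ^ q := by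
    intro t x
    have h1 : MM (mT 1 t) g x = ∑ j, Ua (a j) t (fun y => g ((O j).symm y)) (O j x) := by
      have h2 : ∀ j, Ua (a j) t (fun y => g ((O j).symm y)) (O j x) =
          MM (fun ξ => e (t * ‖ξ‖) * a j (O j ξ)) g x := by
        intro j
        unfold Ua
        rw [← MM_rot (O j) (fun ξ => e (t * ‖ξ‖) * a j ξ) g x]
        simp only [LinearIsometryEquiv.norm_map]
      simp_rw [h2]
      unfold MM
      rw [← integral_finsetSum]
      · refine integral_congr_ae (Filter.Eventually.of_forall fun ξ => ?_)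
        show e (inner ℝ x ξ) * (mT 1 t ξ * 𝓕 g ξ) =
          ∑ j, e (inner ℝ x ξ) * (e (t * ‖ξ‖) * a j (O j ξ) * 𝓕 g ξ)
        unfold mT
        rw [div_one, hsum ξ, Finset.mul_sum, Finset.sum_mul, Finset.mul_sum]
      · intro j _
        have hc : Continuous (fun ξ : EE (n + 1) =>
            e (inner ℝ x ξ) * (e (t * ‖ξ‖) * a j (O j ξ) * 𝓕 g ξ)) := by
          have c1 := (ha j).1.continuous
          have c2 : Continuous (𝓕 g) := fourier_cont g hgi
          have c3 := (O j).continuous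
          exact (continuous_e.comp (by fun_prop)).mul
            (((continuous_e.comp (by fun_prop)).mul (c1.comp c3)).mul c2)
        refine hc.integrable_of_hasCompactSupport ?_
        refine HasCompactSupport.of_support_subset_isCompact
          (isCompact_closedBall (0 : EE (n + 1)) 2) ?_
        intro ξ hξ
        rw [mem_closedBall_zero_iff]
        have h3 : a j (O j ξ) ≠ 0 := by
          intro h0
          apply hξ
          simp [h0]
        have h4 := ((ha j).2 _ h3).2.1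
        rwa [LinearIsometryEquiv.norm_map] at h4
    rw [h1]
    refine (ENNReal.rpow_le_rpow (enorm_sum_le _ _) hq0).trans ?_
    have h5 := ENNReal.rpow_sum_le_const_mul_sum_rpow (Finset.univ : Finset (Fin J))
      (fun j => ‖Ua (a j) t (fun y => g ((O j).symm y)) (O j x)‖ₑ) hq1
    simpa using h5
  have hmeas : ∀ j, Measurable fun p : ℝ × EE (n + 1) =>
      ‖Ua (a j) p.1 (fun y => g ((O j).symm y)) (O j p.2)‖ₑ ^ q := by
    intro j
    have hc : Continuous fun p : ℝ × EE (n + 1) =>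
        Ua (a j) p.1 (fun y => g ((O j).symm y)) p.2 := by
      unfold Ua MM
      have hfi : Integrable (fun y => g ((O j).symm y)) := BCd_int A _ (hgj j)
      have hfc : Continuous (𝓕 (fun y => g ((O j).symm y))) := fourier_cont _ hfi
      have hac := (ha j).1.continuous
      apply continuous_of_dominated (bound := fun ξ : EE (n + 1) =>
        ‖a j ξ * 𝓕 (fun y => g ((O j).symm y)) ξ‖)
      · intro p
        exact ((continuous_e.comp (by fun_prop)).mul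
          (((continuous_e.comp (by fun_prop)).mul hac).mul hfc)).aestronglyMeasurable
      · intro p
        refine Filter.Eventually.of_forall fun ξ => ?_
        rw [norm_mul, norm_e, one_mul, norm_mul, norm_mul, norm_e, one_mul, norm_mul]
      · have h1 : Integrable fun ξ : EE (n + 1) =>
            a j ξ * 𝓕 (fun y => g ((O j).symm y)) ξ := by
          apply (hac.mul hfc).integrable_of_hasCompactSupport
          refine HasCompactSupport.of_support_subset_isCompact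
            (isCompact_closedBall (0 : EE (n + 1)) 2) ?_
          intro ξ hξ
          rw [mem_closedBall_zero_iff]
          have h3 : a j ξ ≠ 0 := by
            intro h0
            apply hξ
            show a j ξ * 𝓕 (fun y => g ((O j).symm y)) ξ = 0
            rw [h0, zero_mul]
          exact ((ha j).2 _ h3).2.1
        exact h1.norm
      · refine Filter.Eventually.of_forall fun ξ => ?_
        exact (continuous_e.comp (by fun_prop)).mul
          (((continuous_e.comp (by fun_prop)).mul continuous_const).mul continuous_const)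
    have h2 : Continuous fun p : ℝ × EE (n + 1) => (p.1, O j p.2) :=
      continuous_fst.prodMk ((O j).continuous.comp continuous_snd)
    exact (hc.comp h2).measurable.enorm.pow_const q
  have e4 : ∫⁻ t in Icc lam (2 * lam), ∫⁻ x, ‖MM (mT 1 t) g x‖ₑ ^ q ≤
      (J : ℝ≥0∞) ^ (q - 1) * ∑ j, ∫⁻ t in Icc lam (2 * lam),
        ∫⁻ x, ‖Ua (a j) t (fun y => g ((O j).symm y)) x‖ₑ ^ q :=
    sum_rot O (fun j t x => ‖Ua (a j) t (fun y => g ((O j).symm y)) x‖ₑ ^ q) hmeas _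
      (ENNReal.rpow_ne_top_of_nonneg (by linarith) (ENNReal.natCast_ne_top J)) _ _ e3
  have e5 : ∀ j, ∫⁻ t in Icc lam (2 * lam),
      ∫⁻ x, ‖Ua (a j) t (fun y => g ((O j).symm y)) x‖ₑ ^ q ≤
      C j * ENNReal.ofReal (lam ^ ((n : ℝ) * (q / 2 - 1) + η) * A ^ (q - 2)) *
        ∫⁻ x, ‖g x‖ₑ ^ 2 := by
    intro j
    refine (hC j lam A _ hl (hgj j)).trans (le_of_eq ?_)
    congr 1
    exact lint_rot (O j).symm (fun x => ‖g x‖ₑ ^ 2)
  rw [e1]
  calc ENNReal.ofReal (lam ^ (n + 1))⁻¹ * (ENNReal.ofReal lam⁻¹ *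
        ∫⁻ t in Icc lam (2 * lam), ∫⁻ x, ‖MM (mT 1 t) g x‖ₑ ^ q)
      ≤ ENNReal.ofReal (lam ^ (n + 1))⁻¹ * (ENNReal.ofReal lam⁻¹ *
        ((J : ℝ≥0∞) ^ (q - 1) * ∑ j, (C j * ENNReal.ofReal
          (lam ^ ((n : ℝ) * (q / 2 - 1) + η) * A ^ (q - 2)) * ∫⁻ x, ‖g x‖ₑ ^ 2))) := by
        gcongr
        exact e4.trans (mul_le_mul' le_rfl (Finset.sum_le_sum fun j _ => e5 j))
    _ = _ := by
        rw [← Finset.sum_mul, ← Finset.sum_mul, e2]
        have h1 : lam ^ ((n : ℝ) * (q / 2 - 1) - 1 + η) =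
            lam⁻¹ * lam ^ ((n : ℝ) * (q / 2 - 1) + η) := by
          rw [← Real.rpow_neg_one, ← Real.rpow_add hl0]
          congr 1
          ring
        have h2 : ENNReal.ofReal (lam ^ (n + 1))⁻¹ * ENNReal.ofReal (lam ^ (n + 1)) = 1 := by
          rw [← ENNReal.ofReal_mul (by positivity), inv_mul_cancel₀ (by positivity),
            ENNReal.ofReal_one]
        have h3 : ENNReal.ofReal (lam ^ ((n : ℝ) * (q / 2 - 1) - 1 + η) * A ^ (q - 2)) =
            ENNReal.ofReal lam⁻¹ * ENNReal.ofReal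
              (lam ^ ((n : ℝ) * (q / 2 - 1) + η) * A ^ (q - 2)) := by
          rw [h1, mul_assoc, ENNReal.ofReal_mul (by positivity)]
        have h4 : (((J : ℝ≥0) ^ (q - 1) : ℝ≥0) : ℝ≥0∞) = (J : ℝ≥0∞) ^ (q - 1) := by
          rw [ENNReal.coe_rpow_of_nonneg _ (by linarith)]
          simp
        rw [h3, ENNReal.coe_mul, h4]
        push_cast
        generalize ENNReal.ofReal lam⁻¹ = L at *
        generalize ENNReal.ofReal (lam ^ (n + 1))⁻¹ = X at *
        generalize ENNReal.ofReal (lam ^ (n + 1)) = X' at *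
        generalize ENNReal.ofReal (lam ^ ((n : ℝ) * (q / 2 - 1) + η) * A ^ (q - 2)) = W at *
        generalize ∑ j, (C j : ℝ≥0∞) = S at *
        generalize (J : ℝ≥0∞) ^ (q - 1) = Q at *
        calc X * (L * (Q * (S * W * (X' * ∫⁻ x, ‖f x‖ₑ ^ 2))))
            = (X * X') * (Q * S * (L * W) * ∫⁻ x, ‖f x‖ₑ ^ 2) := by ring
          _ = _ := by rw [h2, one_mul]

end Pool.Agent.H81.GT
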