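import Pool.Agent.H81.GT.Defs3
import Pool.Agent.H81.GT.SC
import Pool.Agent.H73.LS.Core

/-!
Local smoothing, general data: localization in space.
-/

set_option autoImplicit false

namespace Pool.Agent.H81.GT

open MeasureTheory Set FourierTransform
open scoped ENNReal NNReal SchwartzMap
open Pool.Agent.H83.LS Pool.Agent.H19.LS

section

variable {n : ℕ}

/-- the kernel of `Ua a t` -/
noncomputable def Kt (a : EE (n + 1) → ℂ) (t : ℝ) (z : EE (n + 1)) : ℂ :=
  MK (fun ξ => e (t * ‖ξ‖) * a ξ) z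

theorem Kt_eq (a : EE (n + 1) → ℂ) (t : ℝ) (z : EE (n + 1)) :
    Kt a t z = Pool.Agent.H82.KL.U a (z, t) := by
  unfold Kt MK Pool.Agent.H82.KL.U
  refine integral_congr_ae (Filter.Eventually.of_forall fun ξ => ?_)
  show e (inner ℝ z ξ) * (e (t * ‖ξ‖) * a ξ) = e (inner ℝ z ξ + t * ‖ξ‖) * a ξ
  rw [e_add, mul_assoc]

variable {κ : ℝ} {a : EE (n + 1) → ℂ} (ha : SymE n κ a)

include ha

theorem SymE.cs : HasCompactSupport a := by
  refine HasCompactSupport.of_support_subset_isCompact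
    (isCompact_closedBall (0 : EE (n + 1)) 2) ?_
  intro ξ hξ
  rw [mem_closedBall_zero_iff]
  exact (ha.2 ξ hξ).2.1

theorem SymE.sym : Pool.Agent.H82.KL.Sym a := by
  refine ⟨ha.1, ha.cs, ?_⟩
  intro h0
  have h1 : tsupport a ⊆ {ξ : EE (n + 1) | 1 / 2 ≤ ‖ξ‖} := by
    refine closure_minimal (fun ξ hξ => (ha.2 ξ hξ).1) ?_
    exact isClosed_le continuous_const continuous_norm
  have h2 := h1 h0
  simp only [mem_ofPred_eq, norm_zero] at h2
  norm_num at h2

theorem sym_cont (t : ℝ) : Continuous (fun ξ : EE (n + 1) => e (t * ‖ξ‖) * a ξ) := by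
  have := ha.1.continuous
  exact (continuous_e.comp (by fun_prop)).mul this

theorem sym_int' (t : ℝ) : Integrable (fun ξ : EE (n + 1) => e (t * ‖ξ‖) * a ξ) := by
  refine (sym_cont ha t).integrable_of_hasCompactSupport ?_
  exact HasCompactSupport.mul_left ha.cs

theorem Kt_cont (t : ℝ) : Continuous (Kt a t) := by
  unfold Kt MK
  have h1 := sym_int' ha t
  apply continuous_of_dominated (bound := fun ξ : EE (n + 1) => ‖e (t * ‖ξ‖) * a ξ‖)
  · intro p
    exact ((continuous_e.comp (by fun_prop)).mul (sym_cont ha t)).aestronglyMeasurable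
  · intro p
    refine Filter.Eventually.of_forall fun ξ => ?_
    rw [norm_mul, norm_e, one_mul]
  · exact h1.norm
  · refine Filter.Eventually.of_forall fun ξ => ?_
    exact (continuous_e.comp (by fun_prop)).mul continuous_const

omit ha in
theorem Kt_bdd (t : ℝ) (x : EE (n + 1)) : ‖Kt a t x‖ ≤ ∫ ξ : EE (n + 1), ‖e (t * ‖ξ‖) * a ξ‖ := by
  unfold Kt MK
  refine (norm_integral_le_integral_norm _).trans (le_of_eq ?_)
  congr 1
  funext ξ
  rw [norm_mul, norm_e, one_mul]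

theorem Kt_fint (t : ℝ) {f : EE (n + 1) → ℂ} (hf : Integrable f) (x : EE (n + 1)) :
    Integrable fun y => Kt a t (x - y) * f y := by
  apply hf.bdd_mul (c := ∫ ξ : EE (n + 1), ‖e (t * ‖ξ‖) * a ξ‖)
  · exact ((Kt_cont ha t).comp (continuous_const.sub continuous_id)).aestronglyMeasurable
  · exact Filter.Eventually.of_forall fun y => Kt_bdd t _

theorem Ua_conv (hPLE : T_PLE) (t : ℝ) {A : ℝ} {f : EE (n + 1) → ℂ} (hf : BCd A f)
    (x : EE (n + 1)) : Ua a t f x = ∫ y, Kt a t (x - y) * f y := by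
  obtain ⟨D, hD⟩ := ha.1.continuous.bounded_above_of_compact_support ha.cs
  refine Pool.Agent.H73.LS.ple_bdd hPLE _ f (|D| + 1) (by positivity) (sym_cont ha t).measurable
    (fun ξ => ?_) (sym_int' ha t) (BCd_int A f hf) ⟨A, hf.2.1⟩ hf.1 x
  rw [norm_mul, norm_e, one_mul]
  have := le_abs_self D
  linarith [hD ξ]

theorem Ua_meas {f : EE (n + 1) → ℂ} (hf : Integrable f) :
    Continuous fun p : ℝ × EE (n + 1) => Ua a p.1 f p.2 := by
  unfold Ua MM
  have hfc : Continuous (𝓕 f) := fourier_cont _ hf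
  have hac := ha.1.continuous
  apply continuous_of_dominated (bound := fun ξ : EE (n + 1) => ‖a ξ * 𝓕 f ξ‖)
  · intro p
    exact ((continuous_e.comp (by fun_prop)).mul
      (((continuous_e.comp (by fun_prop)).mul hac).mul hfc)).aestronglyMeasurable
  · intro p
    refine Filter.Eventually.of_forall fun ξ => ?_
    rw [norm_mul, norm_e, one_mul, norm_mul, norm_mul, norm_e, one_mul, norm_mul]
  · have h1 : Integrable fun ξ : EE (n + 1) => a ξ * 𝓕 f ξ := by
      apply (hac.mul hfc).integrable_of_hasCompactSupport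
      exact HasCompactSupport.mul_right ha.cs
    exact h1.norm
  · refine Filter.Eventually.of_forall fun ξ => ?_
    exact (continuous_e.comp (by fun_prop)).mul
      (((continuous_e.comp (by fun_prop)).mul continuous_const).mul continuous_const)

end

/-! ### averaging over the centres of balls -/

theorem avg_ball {d : ℕ} (r : ℝ) (g : EE d → ℝ≥0∞) (hg : Measurable g) :
    ∫⁻ x₀, ∫⁻ x in Metric.ball x₀ r, g x = volume (Metric.ball (0 : EE d) r) * ∫⁻ x, g x := by
  have h1 : ∀ x₀, ∫⁻ x in Metric.ball x₀ r, g x =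
      ∫⁻ x, (Metric.ball x r).indicator (fun _ => g x) x₀ := by
    intro x₀
    rw [← lintegral_indicator Metric.isOpen_ball.measurableSet]
    refine lintegral_congr fun x => ?_
    by_cases h : x ∈ Metric.ball x₀ r
    · rw [indicator_of_mem h, indicator_of_mem]
      exact Metric.mem_ball_comm.1 h
    · rw [indicator_of_notMem h, indicator_of_notMem]
      exact fun h' => h (Metric.mem_ball_comm.1 h')
  simp_rw [h1]
  rw [lintegral_lintegral_swap]
  · have h2 : ∀ x, ∫⁻ x₀, (Metric.ball x r).indicator (fun _ => g x) x₀ =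
        volume (Metric.ball (0 : EE d) r) * g x := by
      intro x
      rw [lintegral_indicator_const Metric.isOpen_ball.measurableSet,
        Measure.addHaar_ball_center, mul_comm]
    simp_rw [h2]
    rw [lintegral_const_mul _ hg]
  · have h3 : Function.uncurry (fun x₀ x : EE d => (Metric.ball x r).indicator (fun _ => g x) x₀) =
        {p : EE d × EE d | dist p.1 p.2 < r}.indicator (fun p => g p.2) := by
      funext p
      simp only [Function.uncurry]
      by_cases h : p.1 ∈ Metric.ball p.2 r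
      · rw [indicator_of_mem h, indicator_of_mem]
        exact h
      · rw [indicator_of_notMem h, indicator_of_notMem]
        exact h
    rw [h3]
    refine ((hg.comp measurable_snd).indicator ?_).aemeasurable
    exact (isOpen_lt (by fun_prop) continuous_const).measurableSet

theorem avg_cball {d : ℕ} (r : ℝ) (g : EE d → ℝ≥0∞) (hg : Measurable g) :
    ∫⁻ x₀, ∫⁻ x in Metric.closedBall x₀ r, g x =
      volume (Metric.closedBall (0 : EE d) r) * ∫⁻ x, g x := by
  have h1 : ∀ x₀, ∫⁻ x in Metric.closedBall x₀ r, g x =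
      ∫⁻ x, (Metric.closedBall x r).indicator (fun _ => g x) x₀ := by
    intro x₀
    rw [← lintegral_indicator Metric.isClosed_closedBall.measurableSet]
    refine lintegral_congr fun x => ?_
    by_cases h : x ∈ Metric.closedBall x₀ r
    · rw [indicator_of_mem h, indicator_of_mem]
      exact Metric.mem_closedBall_comm.1 h
    · rw [indicator_of_notMem h, indicator_of_notMem]
      exact fun h' => h (Metric.mem_closedBall_comm.1 h')
  simp_rw [h1]
  rw [lintegral_lintegral_swap]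
  · have h2 : ∀ x, ∫⁻ x₀, (Metric.closedBall x r).indicator (fun _ => g x) x₀ =
        volume (Metric.closedBall (0 : EE d) r) * g x := by
      intro x
      rw [lintegral_indicator_const Metric.isClosed_closedBall.measurableSet,
        Measure.addHaar_closedBall_center, mul_comm]
    simp_rw [h2]
    rw [lintegral_const_mul _ hg]
  · have h3 : Function.uncurry (fun x₀ x : EE d =>
        (Metric.closedBall x r).indicator (fun _ => g x) x₀) =
        {p : EE d × EE d | dist p.1 p.2 ≤ r}.indicator (fun p => g p.2) := by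
      funext p
      simp only [Function.uncurry]
      by_cases h : p.1 ∈ Metric.closedBall p.2 r
      · rw [indicator_of_mem h, indicator_of_mem]
        exact h
      · rw [indicator_of_notMem h, indicator_of_notMem]
        exact h
    rw [h3]
    refine ((hg.comp measurable_snd).indicator ?_).aemeasurable
    exact (isClosed_le (by fun_prop) continuous_const).measurableSet

/-- average over the centres -/
theorem avg_claim {n : ℕ} {R : ℝ} (hR0 : 0 < R) (G F H : EE (n + 1) → ℝ≥0∞) (hG : Measurable G)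
    (hF : Measurable F) (hH : Measurable H) (c₁ c₂ : ℝ≥0∞) (hc₁ : c₁ ≠ ⊤) (hc₂ : c₂ ≠ ⊤)
    (h : ∀ x₀, ∫⁻ x in Metric.ball x₀ R, G x ≤
      c₁ * (∫⁻ x in Metric.closedBall x₀ (4 * R), F x) + c₂ * ∫⁻ x in Metric.ball x₀ R, H x) :
    ∫⁻ x, G x ≤ c₁ * (4 ^ (n + 1) * ∫⁻ x, F x) + c₂ * ∫⁻ x, H x := by
  obtain ⟨v, hv⟩ : ∃ v : ℝ≥0∞, v = volume (Metric.ball (0 : EE (n + 1)) R) := ⟨_, rfl⟩
  have hv0 : v ≠ 0 := by rw [hv]; exact (Metric.measure_ball_pos _ _ hR0).ne'
  have hvt : v ≠ ⊤ := by rw [hv]; exact Metric.isBounded_ball.measure_lt_top.ne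
  have hv4 : volume (Metric.closedBall (0 : EE (n + 1)) (4 * R)) = 4 ^ (n + 1) * v := by
    rw [hv, Measure.addHaar_closedBall _ _ (by positivity), Measure.addHaar_ball _ _ hR0.le,
      finrank_euclideanSpace, Fintype.card_fin, mul_pow, ENNReal.ofReal_mul (by positivity),
      mul_assoc]
    congr 1
    rw [ENNReal.ofReal_pow (by norm_num), ENNReal.ofReal_ofNat]
  have hi1 : Measurable fun x₀ : EE (n + 1) => ∫⁻ x in Metric.ball x₀ R, H x := by
    have h1 : ∀ x₀ : EE (n + 1), ∫⁻ x in Metric.ball x₀ R, H x =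
        ∫⁻ x, {p : EE (n + 1) × EE (n + 1) | dist p.2 p.1 < R}.indicator (fun p => H p.2) (x₀, x) := by
      intro x₀
      rw [← lintegral_indicator Metric.isOpen_ball.measurableSet]
      refine lintegral_congr fun x => ?_
      by_cases h : x ∈ Metric.ball x₀ R
      · rw [indicator_of_mem h, indicator_of_mem]
        exact h
      · rw [indicator_of_notMem h, indicator_of_notMem]
        exact h
    simp_rw [h1]
    refine Measurable.lintegral_prod_right' ((hH.comp measurable_snd).indicator ?_)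
    exact (isOpen_lt (by fun_prop) continuous_const).measurableSet
  refine (ENNReal.mul_le_mul_iff_right hv0 hvt).1 ?_
  calc v * ∫⁻ x, G x = ∫⁻ x₀, ∫⁻ x in Metric.ball x₀ R, G x := by
        rw [avg_ball R G hG, hv]
    _ ≤ ∫⁻ x₀, (c₁ * (∫⁻ x in Metric.closedBall x₀ (4 * R), F x) +
          c₂ * ∫⁻ x in Metric.ball x₀ R, H x) := lintegral_mono h
    _ = c₁ * (∫⁻ x₀, ∫⁻ x in Metric.closedBall x₀ (4 * R), F x) +
          c₂ * (∫⁻ x₀, ∫⁻ x in Metric.ball x₀ R, H x) := by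
        rw [lintegral_add_right _ (hi1.const_mul _), lintegral_const_mul' _ _ hc₁,
          lintegral_const_mul' _ _ hc₂]
    _ = _ := by
        rw [avg_ball R _ hH, avg_cball (4 * R) _ hF, hv4, ← hv]
        ring

/-- the majorant of the kernel far away -/
noncomputable def kf (d : ℕ) (x : EE d) : ℝ := (1 + ‖x‖) ^ (-((d : ℝ) + 1))

theorem kf_fin (d : ℕ) : ∫⁻ x : EE d, ENNReal.ofReal (kf d x) ≠ ⊤ := by
  have h1 : Integrable (kf d) := by
    apply integrable_one_add_norm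
    rw [finrank_euclideanSpace, Fintype.card_fin]
    linarith
  have h2 := h1.lintegral_lt_top
  exact h2.ne

/-- bound of the kernel far away -/
theorem Kt_far {n : ℕ} {κ : ℝ} {a : EE (n + 1) → ℂ} (hK1 : Pool.Agent.H82.KL.T_K1)
    (ha : SymE n κ a) : ∃ C : ℝ, 0 ≤ C ∧ ∀ (R t : ℝ) (z : EE (n + 1)), 1 ≤ R → t ∈ Icc R (2 * R) →
    3 * R ≤ ‖z‖ → ‖Kt a t z‖ ≤ C / R * kf (n + 1) z := by
  obtain ⟨C, hC, hK⟩ := hK1 (n + 1) (n + 3) a (by omega) ha.sym
  refine ⟨C * 3 ^ (n + 3), by positivity, fun R t z hR ht hz => ?_⟩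
  have hR0 : 0 < R := by linarith
  have ht0 : 0 ≤ t := by linarith [ht.1]
  rw [Kt_eq]
  refine (hK z t).trans ?_
  have h1 : (1 + ‖z‖ + |t|) ^ (-((((n + 1 : ℕ) : ℝ) - 1) / 2)) ≤ 1 := by
    apply Real.rpow_le_one_of_one_le_of_nonpos
    · have := norm_nonneg z
      have := abs_nonneg t
      linarith
    · push_cast
      have : (0 : ℝ) ≤ n := Nat.cast_nonneg _
      linarith
  have h2 : (1 + ‖z‖) / 3 ≤ 1 + abs (‖z‖ - |t|) := by
    rw [abs_of_nonneg ht0]
    have := le_abs_self (‖z‖ - t)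
    linarith [ht.2]
  have h0 : 0 < 1 + ‖z‖ := by have := norm_nonneg z; linarith
  have h3 : ((1 + abs (‖z‖ - |t|)) ^ (n + 3))⁻¹ ≤ 3 ^ (n + 3) * ((1 + ‖z‖) ^ (n + 3))⁻¹ := by
    have h4 : ((1 + ‖z‖) / 3) ^ (n + 3) ≤ (1 + abs (‖z‖ - |t|)) ^ (n + 3) :=
      pow_le_pow_left₀ (by positivity) h2 _
    have h5 := inv_anti₀ (by positivity) h4
    refine h5.trans (le_of_eq ?_)
    rw [div_pow, inv_div, div_eq_mul_inv]
  have h6 : ((1 + ‖z‖) ^ (n + 3))⁻¹ ≤ 1 / R * kf (n + 1) z := by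
    unfold kf
    have e1 : (1 + ‖z‖) ^ (-(((n + 1 : ℕ) : ℝ) + 1)) = ((1 + ‖z‖) ^ (n + 2))⁻¹ := by
      rw [Real.rpow_neg h0.le]
      congr 1
      rw [← Real.rpow_natCast]
      congr 1
      push_cast
      ring
    rw [e1, pow_succ, mul_inv, mul_comm, one_div]
    refine mul_le_mul_of_nonneg_right (inv_anti₀ hR0 ?_) (by positivity)
    linarith
  calc C * (1 + ‖z‖ + |t|) ^ (-((((n + 1 : ℕ) : ℝ) - 1) / 2)) *
        ((1 + abs (‖z‖ - |t|)) ^ (n + 3))⁻¹
      ≤ C * 1 * (3 ^ (n + 3) * ((1 + ‖z‖) ^ (n + 3))⁻¹) := by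
        gcongr
    _ ≤ C * 1 * (3 ^ (n + 3) * (1 / R * kf (n + 1) z)) := by
        gcongr
    _ = _ := by ring

/-- localization -/
theorem sec_of_lsec (hPLE : T_PLE) (hYG : T_YG) (hK1 : Pool.Agent.H82.KL.T_K1) {n : ℕ} {κ q : ℝ}
    (hq : 2 ≤ q) (h : LSEC n κ q) : SEC n κ q := by
  intro η a hη ha
  have hq0 : 0 ≤ q := by linarith
  have hq1 : 1 ≤ q := by linarith
  obtain ⟨C₁, hC₁⟩ := h η a hη ha
  obtain ⟨C₂, hC₂0, hC₂⟩ := Kt_far hK1 ha
  obtain ⟨Q, hQ⟩ : ∃ Q : ℝ≥0, (Q : ℝ≥0∞) = ∫⁻ x : EE (n + 1), ENNReal.ofReal (C₂ * kf (n + 1) x) := by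
    have h1 : ∫⁻ x : EE (n + 1), ENNReal.ofReal (C₂ * kf (n + 1) x) =
        ENNReal.ofReal C₂ * ∫⁻ x : EE (n + 1), ENNReal.ofReal (kf (n + 1) x) := by
      rw [← lintegral_const_mul' _ _ ENNReal.ofReal_ne_top]
      refine lintegral_congr fun x => ?_
      rw [ENNReal.ofReal_mul hC₂0]
    rw [h1]
    exact ⟨_, ENNReal.coe_toNNReal (ENNReal.mul_ne_top ENNReal.ofReal_ne_top (kf_fin _))⟩
  refine ⟨2 ^ (q - 1) * (4 ^ (n + 1) * C₁ + Q ^ q), fun R A f hR hf => ?_⟩
  have hR0 : 0 < R := by linarith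
  have hA0 : 0 ≤ A := (norm_nonneg _).trans (hf.2.1 0)
  have hn0 : (0 : ℝ) ≤ n := Nat.cast_nonneg _
  obtain ⟨E, hE⟩ : ∃ E : ℝ, E = (n : ℝ) * (q / 2 - 1) + η := ⟨_, rfl⟩
  have hE0 : 0 ≤ E := by
    rw [hE]
    have : 0 ≤ (n : ℝ) * (q / 2 - 1) := mul_nonneg hn0 (by linarith)
    linarith
  rw [← hE]
  obtain ⟨W, hW⟩ : ∃ W : ℝ≥0∞, W = C₁ * ENNReal.ofReal (R ^ E * A ^ (q - 2)) := ⟨_, rfl⟩
  obtain ⟨H, hH⟩ : ∃ H : EE (n + 1) → ℝ≥0∞, H = fun x =>
    ∫⁻ y, ENNReal.ofReal (C₂ / R * kf (n + 1) (x - y)) * ‖f y‖ₑ := ⟨_, rfl⟩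
  have hkm : Measurable fun x : EE (n + 1) => ENNReal.ofReal (C₂ / R * kf (n + 1) x) := by
    unfold kf
    fun_prop
  have hHm : Measurable H := by
    rw [hH]
    have : Measurable fun p : EE (n + 1) × EE (n + 1) =>
        ENNReal.ofReal (C₂ / R * kf (n + 1) (p.1 - p.2)) * ‖f p.2‖ₑ :=
      (hkm.comp (measurable_fst.sub measurable_snd)).mul (hf.1.comp measurable_snd).enorm
    exact this.lintegral_prod_right'
  have hfi := BCd_int A f hf
  have hUm : Measurable fun p : ℝ × EE (n + 1) => ‖Ua a p.1 f p.2‖ₑ ^ q :=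
    (Ua_meas ha hfi).measurable.enorm.pow_const q
  -- one ball
  have claim1 : ∀ x₀ : EE (n + 1),
      ∫⁻ x in Metric.ball x₀ R, ∫⁻ t in Icc R (2 * R), ‖Ua a t f x‖ₑ ^ q ≤
      2 ^ (q - 1) * (W * ∫⁻ x in Metric.closedBall x₀ (4 * R), ‖f x‖ₑ ^ 2) +
        2 ^ (q - 1) * (ENNReal.ofReal R * ∫⁻ x in Metric.ball x₀ R, H x ^ q) := by
    intro x₀
    obtain ⟨f₁, hf₁⟩ : ∃ f₁ : EE (n + 1) → ℂ,
      f₁ = (Metric.closedBall x₀ (4 * R)).indicator f := ⟨_, rfl⟩
    obtain ⟨f₂, hf₂⟩ : ∃ f₂ : EE (n + 1) → ℂ,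
      f₂ = (Metric.closedBall x₀ (4 * R))ᶜ.indicator f := ⟨_, rfl⟩
    have hB₁ : BCd A f₁ := by
      obtain ⟨hm, hA, R', hR'⟩ := hf
      refine ⟨hf₁ ▸ hm.indicator measurableSet_closedBall, fun x => ?_, R', fun x hx => ?_⟩
      · rw [hf₁]
        exact (norm_indicator_le_norm_self f x).trans (hA x)
      · rw [hf₁]
        by_cases h : x ∈ Metric.closedBall x₀ (4 * R)
        · rw [indicator_of_mem h, hR' x hx]
        · rw [indicator_of_notMem h]
    have hB₂ : BCd A f₂ := by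
      obtain ⟨hm, hA, R', hR'⟩ := hf
      refine ⟨hf₂ ▸ hm.indicator measurableSet_closedBall.compl, fun x => ?_, R', fun x hx => ?_⟩
      · rw [hf₂]
        exact (norm_indicator_le_norm_self f x).trans (hA x)
      · rw [hf₂]
        by_cases h : x ∈ (Metric.closedBall x₀ (4 * R))ᶜ
        · rw [indicator_of_mem h, hR' x hx]
        · rw [indicator_of_notMem h]
    have hsum : ∀ y, f y = f₁ y + f₂ y := by
      intro y
      rw [hf₁, hf₂]
      exact (congrFun (indicator_self_add_compl (Metric.closedBall x₀ (4 * R)) f) y).symm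
    -- pointwise bound
    have hpt : ∀ t ∈ Icc R (2 * R), ∀ x ∈ Metric.ball x₀ R,
        ‖Ua a t f x‖ₑ ^ q ≤ 2 ^ (q - 1) * ‖Ua a t f₁ x‖ₑ ^ q + 2 ^ (q - 1) * H x ^ q := by
      intro t ht x hx
      have h1 : Ua a t f x = Ua a t f₁ x + Ua a t f₂ x := by
        rw [Ua_conv ha hPLE t hf, Ua_conv ha hPLE t hB₁, Ua_conv ha hPLE t hB₂,
          ← integral_add (Kt_fint ha t (BCd_int A _ hB₁) x) (Kt_fint ha t (BCd_int A _ hB₂) x)]
        refine integral_congr_ae (Filter.Eventually.of_forall fun y => ?_)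
        show Kt a t (x - y) * f y = Kt a t (x - y) * f₁ y + Kt a t (x - y) * f₂ y
        rw [hsum y, mul_add]
      have h2 : ‖Ua a t f₂ x‖ₑ ≤ H x := by
        rw [Ua_conv ha hPLE t hB₂, hH]
        refine (enorm_integral_le_lintegral_enorm _).trans (lintegral_mono fun y => ?_)
        rw [enorm_mul]
        by_cases hy : y ∈ Metric.closedBall x₀ (4 * R)
        · have : f₂ y = 0 := by
            rw [hf₂, indicator_of_notMem]
            exact fun h => h hy
          rw [this]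
          simp
        · have h3 : f₂ y = f y := by
            rw [hf₂, indicator_of_mem]
            exact hy
          rw [h3]
          refine mul_le_mul' ?_ le_rfl
          rw [← ofReal_norm]
          apply ENNReal.ofReal_le_ofReal
          refine hC₂ R t (x - y) hR ht ?_
          rw [Metric.mem_closedBall, not_le, dist_eq_norm] at hy
          rw [Metric.mem_ball, dist_eq_norm] at hx
          have h4 : ‖y - x₀‖ ≤ ‖x - x₀‖ + ‖x - y‖ := by
            have : y - x₀ = (x - x₀) - (x - y) := by abel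
            rw [this]
            exact norm_sub_le _ _
          linarith
      rw [h1, ← mul_add]
      refine (ENNReal.rpow_le_rpow ((enorm_add_le _ _).trans (add_le_add le_rfl h2)) hq0).trans ?_
      exact ENNReal.rpow_add_le_mul_rpow_add_rpow _ _ hq1
    -- translation
    obtain ⟨g, hg⟩ : ∃ g : EE (n + 1) → ℂ, g = fun y => f₁ (y + x₀) := ⟨_, rfl⟩
    have hgm : Measurable g := by rw [hg]; exact hB₁.1.comp (measurable_add_const x₀)
    have hgA : ∀ x, ‖g x‖ ≤ A := fun x => by rw [hg]; exact hB₁.2.1 _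
    have hg0 : ∀ x, 4 * R < ‖x‖ → g x = 0 := by
      intro x hx
      rw [hg, hf₁]
      show (Metric.closedBall x₀ (4 * R)).indicator f (x + x₀) = 0
      rw [indicator_of_notMem]
      rw [Metric.mem_closedBall, dist_eq_norm, add_sub_cancel_right, not_le]
      exact hx
    have hgB : BCd A g := ⟨hgm, hgA, 4 * R, hg0⟩
    have htr : ∀ t x, Ua a t f₁ (x + x₀) = Ua a t g x := by
      intro t x
      rw [Ua_conv ha hPLE t hB₁, Ua_conv ha hPLE t hgB, hg,
        ← integral_add_right_eq_self (fun y => Kt a t (x + x₀ - y) * f₁ y) x₀]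
      refine integral_congr_ae (Filter.Eventually.of_forall fun y => ?_)
      show Kt a t (x + x₀ - (y + x₀)) * f₁ (y + x₀) = Kt a t (x - y) * f₁ (y + x₀)
      rw [add_sub_add_right_eq_sub]
    have hball : ∀ F : EE (n + 1) → ℝ≥0∞, ∫⁻ x in Metric.ball x₀ R, F x =
        ∫⁻ x in Metric.ball 0 R, F (x + x₀) := by
      intro F
      rw [← lintegral_indicator Metric.isOpen_ball.measurableSet,
        ← lintegral_indicator Metric.isOpen_ball.measurableSet,
        ← lintegral_add_right_eq_self _ x₀]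
      refine lintegral_congr fun x => ?_
      by_cases hx : x ∈ Metric.ball (0 : EE (n + 1)) R
      · rw [indicator_of_mem hx, indicator_of_mem]
        rw [Metric.mem_ball, dist_eq_norm, add_sub_cancel_right]
        simpa using hx
      · rw [indicator_of_notMem hx, indicator_of_notMem]
        rw [Metric.mem_ball, dist_eq_norm, add_sub_cancel_right]
        simpa using hx
    have hU₁m : Measurable fun p : ℝ × EE (n + 1) => ‖Ua a p.1 f₁ p.2‖ₑ ^ q :=
      (Ua_meas ha (BCd_int A _ hB₁)).measurable.enorm.pow_const q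
    have hint : ∫⁻ x in Metric.ball x₀ R, ∫⁻ t in Icc R (2 * R), ‖Ua a t f₁ x‖ₑ ^ q ≤
        W * ∫⁻ x in Metric.closedBall x₀ (4 * R), ‖f x‖ₑ ^ 2 := by
      rw [hball]
      simp_rw [htr]
      rw [lintegral_lintegral_swap]
      · refine (hC₁ R A g hR hgm hgA hg0).trans (le_of_eq ?_)
        rw [hW, hE]
        congr 1
        rw [hg, lintegral_add_right_eq_self (fun y => ‖f₁ y‖ₑ ^ 2) x₀, hf₁,
          ← lintegral_indicator measurableSet_closedBall]
        refine lintegral_congr fun x => ?_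
        by_cases hx : x ∈ Metric.closedBall x₀ (4 * R)
        · rw [indicator_of_mem hx, indicator_of_mem hx]
        · rw [indicator_of_notMem hx, indicator_of_notMem hx]
          simp
      · have h1 : Measurable fun p : EE (n + 1) × ℝ => ‖Ua a p.2 g p.1‖ₑ ^ q :=
          ((Ua_meas ha (BCd_int A _ hgB)).comp
            (continuous_snd.prodMk continuous_fst)).measurable.enorm.pow_const q
        exact h1.aemeasurable
    have hsm : ∀ x, Measurable fun t => (2 : ℝ≥0∞) ^ (q - 1) * ‖Ua a t f₁ x‖ₑ ^ q := fun x =>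
      (hU₁m.comp (measurable_id.prodMk measurable_const)).const_mul _
    calc ∫⁻ x in Metric.ball x₀ R, ∫⁻ t in Icc R (2 * R), ‖Ua a t f x‖ₑ ^ q
        ≤ ∫⁻ x in Metric.ball x₀ R, ∫⁻ t in Icc R (2 * R),
            (2 ^ (q - 1) * ‖Ua a t f₁ x‖ₑ ^ q + 2 ^ (q - 1) * H x ^ q) := by
          refine setLIntegral_mono' Metric.isOpen_ball.measurableSet fun x hx => ?_
          exact setLIntegral_mono' measurableSet_Icc fun t ht => hpt t ht x hx
      _ = ∫⁻ x in Metric.ball x₀ R, (2 ^ (q - 1) * (∫⁻ t in Icc R (2 * R), ‖Ua a t f₁ x‖ₑ ^ q) +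
            2 ^ (q - 1) * (ENNReal.ofReal R * H x ^ q)) := by
          refine lintegral_congr fun x => ?_
          rw [lintegral_add_left (hsm x), lintegral_const_mul' _ _
            (ENNReal.rpow_ne_top_of_nonneg (by linarith) (by norm_num)), setLIntegral_const,
            Real.volume_Icc]
          have : 2 * R - R = R := by ring
          rw [this, mul_assoc, mul_comm (H x ^ q)]
      _ = 2 ^ (q - 1) * (∫⁻ x in Metric.ball x₀ R, ∫⁻ t in Icc R (2 * R), ‖Ua a t f₁ x‖ₑ ^ q) +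
            2 ^ (q - 1) * (ENNReal.ofReal R * ∫⁻ x in Metric.ball x₀ R, H x ^ q) := by
          have h2t : (2 : ℝ≥0∞) ^ (q - 1) ≠ ⊤ :=
            ENNReal.rpow_ne_top_of_nonneg (by linarith) (by norm_num)
          have hm2 : Measurable fun x => (2 : ℝ≥0∞) ^ (q - 1) * (ENNReal.ofReal R * H x ^ q) :=
            ((hHm.pow_const q).const_mul _).const_mul _
          rw [lintegral_add_right _ hm2, lintegral_const_mul' _ _ h2t,
            lintegral_const_mul' _ _ h2t, lintegral_const_mul' _ _ ENNReal.ofReal_ne_top]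
      _ ≤ _ := by gcongr
  -- average over the centres
  obtain ⟨G, hG⟩ : ∃ G : EE (n + 1) → ℝ≥0∞, G = fun x =>
    ∫⁻ t in Icc R (2 * R), ‖Ua a t f x‖ₑ ^ q := ⟨_, rfl⟩
  have hUm' : Measurable fun p : EE (n + 1) × ℝ => ‖Ua a p.2 f p.1‖ₑ ^ q :=
    ((Ua_meas ha hfi).comp (continuous_snd.prodMk continuous_fst)).measurable.enorm.pow_const q
  have hGm : Measurable G := by rw [hG]; exact hUm'.lintegral_prod_right'
  have hfm : Measurable fun x => ‖f x‖ₑ ^ 2 := hf.1.enorm.pow_const 2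
  have h2t : (2 : ℝ≥0∞) ^ (q - 1) ≠ ⊤ :=
    ENNReal.rpow_ne_top_of_nonneg (by linarith) (by norm_num)
  have hWt : W ≠ ⊤ := by rw [hW]; exact ENNReal.mul_ne_top ENNReal.coe_ne_top ENNReal.ofReal_ne_top
  have hHq : Measurable fun x => H x ^ q := hHm.pow_const q
  have claim3 : ∫⁻ x, G x ≤ (2 ^ (q - 1) * W) * (4 ^ (n + 1) * ∫⁻ x, ‖f x‖ₑ ^ 2) +
      (2 ^ (q - 1) * ENNReal.ofReal R) * ∫⁻ x, H x ^ q := by
    refine avg_claim hR0 G (fun x => ‖f x‖ₑ ^ 2) (fun x => H x ^ q) hGm hfm hHq _ _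
      (ENNReal.mul_ne_top h2t hWt) (ENNReal.mul_ne_top h2t ENNReal.ofReal_ne_top) fun x₀ => ?_
    rw [mul_assoc, mul_assoc, hG]
    exact claim1 x₀
  -- the error
  have herr : ENNReal.ofReal R * ∫⁻ x, H x ^ q ≤
      (Q : ℝ≥0∞) ^ q * ENNReal.ofReal (A ^ (q - 2)) * ∫⁻ x, ‖f x‖ₑ ^ 2 := by
    have h1 := hYG (EE (n + 1)) volume (fun x => ENNReal.ofReal (C₂ / R * kf (n + 1) x))
      (fun x => ‖f x‖ₑ) q hkm hf.1.enorm hq1
    have h2 : ∫⁻ x, H x ^ q ≤ (∫⁻ y : EE (n + 1), ENNReal.ofReal (C₂ / R * kf (n + 1) y)) ^ q *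
        ∫⁻ y, ‖f y‖ₑ ^ q := by
      rw [hH]
      exact h1
    have h3 : ∫⁻ y : EE (n + 1), ENNReal.ofReal (C₂ / R * kf (n + 1) y) =
        ENNReal.ofReal R⁻¹ * Q := by
      rw [hQ, ← lintegral_const_mul' _ _ ENNReal.ofReal_ne_top]
      refine lintegral_congr fun x => ?_
      rw [← ENNReal.ofReal_mul (by positivity)]
      congr 1
      ring
    have h4 : ∫⁻ y, ‖f y‖ₑ ^ q ≤ ENNReal.ofReal (A ^ (q - 2)) * ∫⁻ x, ‖f x‖ₑ ^ 2 := by
      rw [← lintegral_const_mul' _ _ ENNReal.ofReal_ne_top]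
      refine lintegral_mono fun x => ?_
      have e1 : ‖f x‖ₑ ^ q = ‖f x‖ₑ ^ (q - 2) * ‖f x‖ₑ ^ 2 := by
        rw [← ENNReal.rpow_natCast, ← ENNReal.rpow_add_of_nonneg _ _ (by linarith) (by norm_num)]
        congr 1
        push_cast
        ring
      rw [e1]
      refine mul_le_mul' ?_ le_rfl
      rw [← ofReal_norm, ENNReal.ofReal_rpow_of_nonneg (norm_nonneg _) (by linarith)]
      exact ENNReal.ofReal_le_ofReal (Real.rpow_le_rpow (norm_nonneg _) (hf.2.1 x) (by linarith))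
    rw [h3] at h2
    have h5 : ENNReal.ofReal R * (ENNReal.ofReal R⁻¹ * (Q : ℝ≥0∞)) ^ q ≤ (Q : ℝ≥0∞) ^ q := by
      rw [ENNReal.mul_rpow_of_nonneg _ _ hq0, ← mul_assoc]
      have h6 : ENNReal.ofReal R * ENNReal.ofReal R⁻¹ ^ q ≤ 1 := by
        rw [ENNReal.ofReal_rpow_of_nonneg (by positivity) hq0, ← ENNReal.ofReal_mul hR0.le,
          ← ENNReal.ofReal_one]
        apply ENNReal.ofReal_le_ofReal
        rw [Real.inv_rpow hR0.le, ← div_eq_mul_inv, div_le_one (by positivity)]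
        calc R = R ^ (1 : ℝ) := (Real.rpow_one R).symm
          _ ≤ R ^ q := Real.rpow_le_rpow_of_exponent_le hR hq1
      calc ENNReal.ofReal R * ENNReal.ofReal R⁻¹ ^ q * (Q : ℝ≥0∞) ^ q ≤ 1 * (Q : ℝ≥0∞) ^ q := by
            gcongr
        _ = _ := one_mul _
    calc ENNReal.ofReal R * ∫⁻ x, H x ^ q
        ≤ ENNReal.ofReal R * ((ENNReal.ofReal R⁻¹ * (Q : ℝ≥0∞)) ^ q *
            (ENNReal.ofReal (A ^ (q - 2)) * ∫⁻ x, ‖f x‖ₑ ^ 2)) := by
          gcongr
          exact h2.trans (mul_le_mul' le_rfl h4)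
      _ = (ENNReal.ofReal R * (ENNReal.ofReal R⁻¹ * (Q : ℝ≥0∞)) ^ q) *
            (ENNReal.ofReal (A ^ (q - 2)) * ∫⁻ x, ‖f x‖ₑ ^ 2) := by ring
      _ ≤ (Q : ℝ≥0∞) ^ q * (ENNReal.ofReal (A ^ (q - 2)) * ∫⁻ x, ‖f x‖ₑ ^ 2) := by gcongr
      _ = _ := by ring
  have hswap : ∫⁻ t in Icc R (2 * R), ∫⁻ x, ‖Ua a t f x‖ₑ ^ q = ∫⁻ x, G x := by
    rw [hG, lintegral_lintegral_swap]
    exact hUm.aemeasurable
  rw [hswap]
  refine claim3.trans ?_
  rw [mul_assoc, mul_assoc (2 ^ (q - 1)) (ENNReal.ofReal R)]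
  have hAW : ENNReal.ofReal (A ^ (q - 2)) ≤ ENNReal.ofReal (R ^ E * A ^ (q - 2)) := by
    apply ENNReal.ofReal_le_ofReal
    have : 1 ≤ R ^ E := Real.one_le_rpow hR hE0
    have : 0 ≤ A ^ (q - 2) := Real.rpow_nonneg hA0 _
    nlinarith
  calc 2 ^ (q - 1) * (W * (4 ^ (n + 1) * ∫⁻ x, ‖f x‖ₑ ^ 2)) +
        2 ^ (q - 1) * (ENNReal.ofReal R * ∫⁻ x, H x ^ q)
      ≤ 2 ^ (q - 1) * (W * (4 ^ (n + 1) * ∫⁻ x, ‖f x‖ₑ ^ 2)) +
        2 ^ (q - 1) * ((Q : ℝ≥0∞) ^ q * ENNReal.ofReal (R ^ E * A ^ (q - 2)) *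
          ∫⁻ x, ‖f x‖ₑ ^ 2) := by
        refine add_le_add le_rfl (mul_le_mul' le_rfl (herr.trans ?_))
        gcongr
    _ = _ := by
        have h2c : (((2 : ℝ≥0) ^ (q - 1) : ℝ≥0) : ℝ≥0∞) = (2 : ℝ≥0∞) ^ (q - 1) := by
          rw [ENNReal.coe_rpow_of_nonneg _ (by linarith)]
          rfl
        rw [hW]
        push_cast
        rw [← ENNReal.coe_rpow_of_nonneg _ hq0, h2c]
        ring

end Pool.Agent.H81.GT
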