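import Pool.Agent.H81.GT.TargetsT
import Pool.Agent.H54.LS.Sph

/-!
Theorem G (MP_ee74d2_an), group T: the sharp plank bound.
-/

set_option autoImplicit false

namespace Pool.Agent.H81.GT

open MeasureTheory Set FourierTransform
open scoped ENNReal NNReal RealInnerProductSpace
open Pool.Agent.H83.LS
open Pool.Agent.H83.G (Z TF Rg Cls pl Lo Bp TP wt)
open Pool.Agent.H54.LS (jo_last pr_jo jo_pr jo_norm_sq mp_jo continuous_pr)

/-- volume in the coordinates `(y, w)` -/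
theorem shp_vol {n : ℕ} {S : Set (EE n × ℝ)} (hS : MeasurableSet S) (y : EE n) (w : ℝ) :
    volume {x : EE (n + 1) | (y - pr x, w + x (Fin.last n) / 2) ∈ S} = 2 * volume S := by
  have hm : Measurable fun x : EE (n + 1) => (y - pr x, w + x (Fin.last n) / 2) := by
    refine Measurable.prodMk (measurable_const.sub continuous_pr.measurable) ?_
    fun_prop
  have hE : MeasurableSet {x : EE (n + 1) | (y - pr x, w + x (Fin.last n) / 2) ∈ S} := hm hS
  rw [← (mp_jo n).measure_preimage hE.nullMeasurableSet]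
  have e1 : (fun q : EE n × ℝ => jo q.1 q.2) ⁻¹'
      {x : EE (n + 1) | (y - pr x, w + x (Fin.last n) / 2) ∈ S} =
      {q : EE n × ℝ | (y - q.1, w + q.2 / 2) ∈ S} := by
    ext q
    show (y - pr (jo q.1 q.2), w + (jo q.1 q.2) (Fin.last n) / 2) ∈ S ↔ _
    rw [pr_jo, jo_last]
    rfl
  rw [e1]
  have hm2 : Measurable fun q : EE n × ℝ => (y - q.1, w + q.2 / 2) := by fun_prop
  have hE2 : MeasurableSet {q : EE n × ℝ | (y - q.1, w + q.2 / 2) ∈ S} := hm2 hS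
  rw [Measure.prod_apply hE2]
  have e2 : ∀ x : EE n, volume (Prod.mk x ⁻¹' {q : EE n × ℝ | (y - q.1, w + q.2 / 2) ∈ S}) =
      2 * volume (Prod.mk (y - x) ⁻¹' S) := by
    intro x
    have e3 : Prod.mk x ⁻¹' {q : EE n × ℝ | (y - q.1, w + q.2 / 2) ∈ S} =
        (fun u : ℝ => 2⁻¹ * u) ⁻¹' ((fun u : ℝ => w + u) ⁻¹' (Prod.mk (y - x) ⁻¹' S)) := by
      ext u
      show (y - x, w + u / 2) ∈ S ↔ (y - x, w + 2⁻¹ * u) ∈ S
      rw [div_eq_inv_mul]
    rw [e3, Real.volume_preimage_mul_left (by norm_num), measure_preimage_add]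
    norm_num
  simp_rw [e2]
  rw [lintegral_const_mul' _ _ (by norm_num), lintegral_sub_left_eq_self
    (fun x : EE n => volume (Prod.mk x ⁻¹' S)) y]
  rw [← Measure.prod_apply hS]
  rfl

/-- `zt` is additive -/
theorem zt_sub {n : ℕ} (x x' : EE (n + 1)) (t t' : ℝ) : zt x t - zt x' t' = zt (x - x') (t - t') := by
  unfold zt
  refine Prod.ext ?_ (Prod.ext ?_ ?_)
  · simp only [Prod.fst_sub, PiLp.sub_apply]
    ring
  · simp only [Prod.snd_sub, Prod.fst_sub]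
    ext i
    simp [pr]
  · simp only [Prod.snd_sub, PiLp.sub_apply]
    ring

theorem xz_norm {n : ℕ} (z : Z n) : ‖xz z‖ ≤ 3 * ‖z‖ := by
  have h1 : ‖xz z‖ ^ 2 = ‖z.2.1‖ ^ 2 + (z.1 - z.2.2) ^ 2 := jo_norm_sq _ _
  have h2 : |z.1| ≤ ‖z‖ := norm_fst_le z
  have h3 : ‖z.2‖ ≤ ‖z‖ := norm_snd_le z
  have h4 : ‖z.2.1‖ ≤ ‖z‖ := (norm_fst_le z.2).trans h3
  have h5 : |z.2.2| ≤ ‖z‖ := (norm_snd_le z.2).trans h3
  have h6 : |z.1 - z.2.2| ≤ 2 * ‖z‖ := by
    refine (abs_sub _ _).trans ?_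
    linarith
  have h7 : (z.1 - z.2.2) ^ 2 ≤ (2 * ‖z‖) ^ 2 := sq_le_sq' (abs_le.1 h6).1 (abs_le.1 h6).2
  have h8 : ‖z.2.1‖ ^ 2 ≤ ‖z‖ ^ 2 := by gcongr
  have h9 : ‖xz z‖ ^ 2 ≤ (3 * ‖z‖) ^ 2 := by nlinarith [sq_nonneg ‖z‖]
  exact le_of_sq_le_sq h9 (by positivity)

theorem tz_norm {n : ℕ} (z : Z n) : |tz z| ≤ 2 * ‖z‖ := by
  have h2 : |z.1| ≤ ‖z‖ := norm_fst_le z
  have h3 : ‖z.2‖ ≤ ‖z‖ := norm_snd_le z
  have h5 : |z.2.2| ≤ ‖z‖ := (norm_snd_le z.2).trans h3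
  unfold tz
  refine (abs_add_le _ _).trans ?_
  linarith

/-- numerology of one time slice -/
theorem shp_num {R s r t lam : ℝ} (hR : 1 ≤ R) (hs : 0 < s) (hr : 1 ≤ r)
    (hrR : r ≤ 16 * R * s ^ 2) (hlam : lam = 1 + |t| / R) :
    1 + |t| + s⁻¹ ≤ 5 * R * lam ∧ r / s + |t| * s ≤ 17 * R * s * lam ∧ 1 ≤ 4 * (R * s) ∧
      1 ≤ lam ∧ r / s ^ 2 ≤ 16 * R := by
  have hR0 : 0 < R := by linarith
  have ht : 0 ≤ |t| := abs_nonneg t
  have hlam1 : 1 ≤ lam := by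
    rw [hlam]
    have : 0 ≤ |t| / R := by positivity
    linarith
  have hRl : R * lam = R + |t| := by
    rw [hlam]
    field_simp
  have h1 : 1 ≤ 4 * (R * s) := by
    have h2 : 1 ≤ 16 * R * s ^ 2 := hr.trans hrR
    have h3 : (1 : ℝ) ≤ (4 * (R * s)) ^ 2 := by nlinarith
    nlinarith [mul_pos hR0 hs]
  refine ⟨?_, ?_, h1, hlam1, ?_⟩
  · have h4 : s⁻¹ ≤ 4 * R := by
      rw [inv_le_iff_one_le_mul₀ hs]
      linarith
    nlinarith
  · have h5 : r / s ≤ 16 * R * s := by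
      rw [div_le_iff₀ hs]
      nlinarith
    have h6 : 17 * R * s * lam = 17 * s * (R + |t|) := by rw [← hRl]; ring
    rw [h6]
    nlinarith [mul_nonneg hs.le ht]
  · rw [div_le_iff₀ (by positivity)]
    exact hrR

/-- the `L²` bound -/
theorem Ua_l2 (hPLE : T_PLE) {n : ℕ} {κ : ℝ} {b : EE (n + 1) → ℂ} (hb : SymE n κ b) {M : ℝ}
    (hM : 0 < M) (hbM : ∀ ξ, ‖b ξ‖ ≤ M) (t : ℝ) {A : ℝ} {g : EE (n + 1) → ℂ} (hg : BCd A g) :
    ∫⁻ x, ‖Ua b t g x‖ₑ ^ 2 ≤ ENNReal.ofReal (M ^ 2) * ∫⁻ x, ‖g x‖ₑ ^ 2 := by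
  set m : EE (n + 1) → ℂ := fun ξ => (M : ℂ)⁻¹ * (e (t * ‖ξ‖) * b ξ) with hm
  have hM' : (M : ℂ) ≠ 0 := by exact_mod_cast hM.ne'
  have h1 : ∀ x, Ua b t g x = (M : ℂ) * MM m g x := by
    intro x
    unfold Ua MM
    rw [← integral_const_mul]
    refine integral_congr_ae (Filter.Eventually.of_forall fun ξ => ?_)
    simp only [hm]
    field_simp
  have hmc : Continuous m := continuous_const.mul (sym_cont hb t)
  have hmb : ∀ ξ, ‖m ξ‖ ≤ 1 := by
    intro ξ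
    simp only [hm]
    rw [norm_mul, norm_mul, norm_e, one_mul, norm_inv, Complex.norm_real,
      Real.norm_of_nonneg hM.le, inv_mul_le_iff₀ hM, mul_one]
    exact hbM ξ
  have h2 := (hPLE (n + 1) m g hmc.measurable hmb ((sym_int' hb t).const_mul _)
    (Pool.Agent.H19.LS.BCd_int A g hg) ⟨A, hg.2.1⟩ hg.1).2
  calc ∫⁻ x, ‖Ua b t g x‖ₑ ^ 2 = ∫⁻ x, ENNReal.ofReal (M ^ 2) * ‖MM m g x‖ₑ ^ 2 := by
        refine lintegral_congr fun x => ?_
        rw [h1, enorm_mul, mul_pow]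
        congr 1
        rw [← ofReal_norm, Complex.norm_real, Real.norm_of_nonneg hM.le,
          ENNReal.ofReal_pow hM.le]
    _ = ENNReal.ofReal (M ^ 2) * ∫⁻ x, ‖MM m g x‖ₑ ^ 2 :=
        lintegral_const_mul' _ _ ENNReal.ofReal_ne_top
    _ ≤ _ := by gcongr

/-- splitting of the data -/
theorem Ua_split (hPLE : T_PLE) {n : ℕ} {κ : ℝ} {b : EE (n + 1) → ℂ} (hb : SymE n κ b) (t : ℝ)
    {A : ℝ} {f : EE (n + 1) → ℂ} (hf : BCd A f) {E : Set (EE (n + 1))} (hE : MeasurableSet E) :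
    BCd A (E.indicator f) ∧ BCd A (Eᶜ.indicator f) ∧
    ∀ x, Ua b t f x = Ua b t (E.indicator f) x + Ua b t (Eᶜ.indicator f) x := by
  have hA : 0 ≤ A := (norm_nonneg _).trans (hf.2.1 0)
  have hg : ∀ E : Set (EE (n + 1)), MeasurableSet E → BCd A (E.indicator f) := by
    intro E hE
    refine ⟨hf.1.indicator hE, fun x => ?_, ?_⟩
    · by_cases hx : x ∈ E
      · rw [indicator_of_mem hx]; exact hf.2.1 x
      · rw [indicator_of_notMem hx, norm_zero]; exact hA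
    · obtain ⟨ρ, hρ⟩ := hf.2.2
      refine ⟨ρ, fun x hx => ?_⟩
      by_cases hxE : x ∈ E
      · rw [indicator_of_mem hxE]; exact hρ x hx
      · rw [indicator_of_notMem hxE]
  have h1 := hg E hE
  have h2 := hg Eᶜ hE.compl
  refine ⟨h1, h2, fun x => ?_⟩
  rw [Ua_conv hb hPLE t hf, Ua_conv hb hPLE t h1, Ua_conv hb hPLE t h2, ← integral_add
    (Kt_fint hb t (Pool.Agent.H19.LS.BCd_int A _ h1) x)
    (Kt_fint hb t (Pool.Agent.H19.LS.BCd_int A _ h2) x)]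
  refine integral_congr_ae (Filter.Eventually.of_forall fun y => ?_)
  show Kt b t (x - y) * f y =
    Kt b t (x - y) * E.indicator f y + Kt b t (x - y) * Eᶜ.indicator f y
  rw [← mul_add]
  congr 1
  by_cases hy : y ∈ E
  · rw [indicator_of_mem hy, indicator_of_notMem (by simpa using hy), add_zero]
  · rw [indicator_of_notMem hy, indicator_of_mem (by simpa using hy), zero_add]

/-- numerology: the main term -/
theorem shp_num1 {n : ℕ} {R s r t lam δ Cρ Cv Ma A ρ : ℝ} (hR : 1 ≤ R) (hs : 0 < s)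
    (hr : 1 ≤ r) (hrR : r ≤ 16 * R * s ^ 2) (hlam : lam = 1 + |t| / R) (hCρ : 1 ≤ Cρ)
    (hCv : 1 ≤ Cv) (hρ : ρ = R ^ (δ / (2 * ((n : ℝ) + 2))) * lam) :
    Ma ^ 2 * (A ^ 2 * (2 * (Cv * (Cρ * ρ ^ 2) ^ (n + 2) * r * (r / s + |t| * s) ^ n))) ≤
      (Ma ^ 2 * 2 * Cv * Cρ ^ (n + 2) * 17 ^ n) *
        (A ^ 2 * R ^ δ * lam ^ (3 * n + 4) * (r * (R * s) ^ n)) := by
  obtain ⟨-, h1, -, h2, -⟩ := shp_num hR hs hr hrR hlam
  have hR0 : 0 < R := by linarith
  have hlam0 : 0 < lam := by linarith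
  have e1 : (ρ ^ 2) ^ (n + 2) = R ^ δ * lam ^ (2 * n + 4) := by
    rw [hρ, ← pow_mul, mul_pow, ← Real.rpow_natCast (R ^ (δ / (2 * ((n : ℝ) + 2)))),
      ← Real.rpow_mul hR0.le]
    congr 2
    push_cast
    have : (n : ℝ) + 2 ≠ 0 := by positivity
    field_simp
  have h3 : (r / s + |t| * s) ^ n ≤ (17 * R * s * lam) ^ n := by gcongr
  have hρ0 : 0 ≤ ρ := by rw [hρ]; positivity
  have hM0 : 0 ≤ Ma ^ 2 * (A ^ 2 * (2 * (Cv * (Cρ * ρ ^ 2) ^ (n + 2) * r))) := by positivity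
  calc Ma ^ 2 * (A ^ 2 * (2 * (Cv * (Cρ * ρ ^ 2) ^ (n + 2) * r * (r / s + |t| * s) ^ n)))
      = Ma ^ 2 * (A ^ 2 * (2 * (Cv * (Cρ * ρ ^ 2) ^ (n + 2) * r))) * (r / s + |t| * s) ^ n := by
        ring
    _ ≤ Ma ^ 2 * (A ^ 2 * (2 * (Cv * (Cρ * ρ ^ 2) ^ (n + 2) * r))) * (17 * R * s * lam) ^ n := by
        gcongr
    _ = _ := by
        rw [mul_pow Cρ, e1, show 17 * R * s * lam = 17 * (R * s) * lam by ring, mul_pow,
          mul_pow]
        ring

/-- numerology: the tail -/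
theorem shp_num2 {n N : ℕ} {R s r t lam δ' Ct A ρ c : ℝ} (hR : 1 ≤ R) (hs : 0 < s)
    (hr : 1 ≤ r) (hrR : r ≤ 16 * R * s ^ 2) (hlam : lam = 1 + |t| / R) (hCt : 0 < Ct) (hc : 0 ≤ c)
    (hρ : ρ = R ^ δ' * lam) (hN1 : n + 3 ≤ N) (hN2 : (3 * (n : ℝ) + 7) ≤ 2 * N * δ')
    {δ : ℝ} (hδ : 0 < δ) :
    (A * (Ct * (1 + |t| + s⁻¹) ^ (n + 3) * (ρ ^ N)⁻¹)) ^ 2 * ((384 * R) ^ (n + 1) * c) ≤
      (Ct ^ 2 * c * 5 ^ (2 * n + 6) * 384 ^ (n + 1) * 4 ^ n) *
        (A ^ 2 * R ^ δ * lam ^ (3 * n + 4) * (r * (R * s) ^ n)) := by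
  obtain ⟨h0, -, h1, h2, -⟩ := shp_num hR hs hr hrR hlam
  have hR0 : 0 < R := by linarith
  have hlam0 : 0 < lam := by linarith
  have hT0 : 0 < 1 + |t| + s⁻¹ := by positivity
  have hρ0 : 0 < ρ := by rw [hρ]; positivity
  have h3 : ((1 + |t| + s⁻¹) ^ (n + 3) * (ρ ^ N)⁻¹) ^ 2 * R ^ (n + 1) ≤ 5 ^ (2 * n + 6) := by
    have e1 : ((1 + |t| + s⁻¹) ^ (n + 3) * (ρ ^ N)⁻¹) ^ 2 =
        (1 + |t| + s⁻¹) ^ (2 * n + 6) / ρ ^ (2 * N) := by
      rw [mul_pow, ← pow_mul, inv_pow, ← pow_mul, div_eq_mul_inv]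
      congr 2 <;> ring
    rw [e1, div_mul_eq_mul_div, div_le_iff₀ (by positivity)]
    have h4 : (1 + |t| + s⁻¹) ^ (2 * n + 6) ≤ (5 * R * lam) ^ (2 * n + 6) := by gcongr
    have h5 : R ^ (3 * n + 7) * lam ^ (2 * n + 6) ≤ ρ ^ (2 * N) := by
      rw [hρ, mul_pow]
      have h6 : R ^ (3 * n + 7) ≤ (R ^ δ') ^ (2 * N) := by
        rw [← Real.rpow_natCast, ← Real.rpow_natCast, ← Real.rpow_mul hR0.le]
        apply Real.rpow_le_rpow_of_exponent_le hR
        push_cast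
        linarith
      have h7 : lam ^ (2 * n + 6) ≤ lam ^ (2 * N) := pow_le_pow_right₀ h2 (by omega)
      gcongr
    calc (1 + |t| + s⁻¹) ^ (2 * n + 6) * R ^ (n + 1)
        ≤ (5 * R * lam) ^ (2 * n + 6) * R ^ (n + 1) := by gcongr
      _ = 5 ^ (2 * n + 6) * (R ^ (3 * n + 7) * lam ^ (2 * n + 6)) := by
          rw [mul_pow, mul_pow, show 3 * n + 7 = (2 * n + 6) + (n + 1) by ring,
            pow_add R (2 * n + 6) (n + 1)]
          ring
      _ ≤ 5 ^ (2 * n + 6) * ρ ^ (2 * N) := by gcongr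
  have h8 : 1 ≤ 4 ^ n * (R * s) ^ n := by
    rw [← mul_pow]
    exact one_le_pow₀ h1
  have h9 : 1 ≤ R ^ δ := Real.one_le_rpow hR hδ.le
  have h10 : 1 ≤ lam ^ (3 * n + 4) := one_le_pow₀ h2
  have h11 : 1 ≤ R ^ δ * lam ^ (3 * n + 4) * (r * (4 ^ n * (R * s) ^ n)) := by
    have h12 : 1 ≤ R ^ δ * lam ^ (3 * n + 4) := one_le_mul_of_one_le_of_one_le h9 h10
    have h13 : 1 ≤ r * (4 ^ n * (R * s) ^ n) := one_le_mul_of_one_le_of_one_le hr h8
    exact one_le_mul_of_one_le_of_one_le h12 h13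
  calc (A * (Ct * (1 + |t| + s⁻¹) ^ (n + 3) * (ρ ^ N)⁻¹)) ^ 2 * ((384 * R) ^ (n + 1) * c)
      = (Ct ^ 2 * c * 384 ^ (n + 1) * A ^ 2) *
        (((1 + |t| + s⁻¹) ^ (n + 3) * (ρ ^ N)⁻¹) ^ 2 * R ^ (n + 1)) := by
        rw [mul_pow 384 R]
        ring
    _ ≤ (Ct ^ 2 * c * 384 ^ (n + 1) * A ^ 2) * 5 ^ (2 * n + 6) := by gcongr
    _ = (Ct ^ 2 * c * 384 ^ (n + 1) * A ^ 2) * 5 ^ (2 * n + 6) * 1 := (mul_one _).symm
    _ ≤ (Ct ^ 2 * c * 384 ^ (n + 1) * A ^ 2) * 5 ^ (2 * n + 6) *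
        (R ^ δ * lam ^ (3 * n + 4) * (r * (4 ^ n * (R * s) ^ n))) := by gcongr
    _ = _ := by ring

/-- one time slice -/
theorem shp_slice (hCOV : T_COV) (hACS : T_ACS) (hTAI : T_TAI) (hTRP : T_TRP) (hVOL : T_VOL)
    (hPLE : T_PLE) (hLOA : Pool.Agent.H83.G.T_LOA) (hLOB : Pool.Agent.H83.G.T_LOB) (n : ℕ)
    (κ δ : ℝ) (a : EE (n + 1) → ℂ) (hn : 1 ≤ n) (hκ : κ ≤ 1 / 8) (ha : SymE n κ a) (hδ : 0 < δ) :
    ∃ C : ℝ, 0 < C ∧ ∀ (R A s r t : ℝ) (η η' : EE n) (z₁ : Z n) (f : EE (n + 1) → ℂ), 1 ≤ R →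
    BCd A f → 0 < A → 0 < s → s ≤ 1 → 1 ≤ r → r ≤ 16 * R * s ^ 2 → ‖η'‖ ≤ 1 / 3 →
    ‖η - η'‖ ≤ 3 * s →
    ∫⁻ x in {x | zt x t ∈ pl η' s r z₁}, ‖Ua (ac a η s) t f x‖ₑ ^ 2 ≤
      ENNReal.ofReal (C * (A ^ 2 * R ^ δ * (1 + |t| / R) ^ (3 * n + 4) * (r * (R * s) ^ n))) := by
  obtain ⟨Ma', hMa'⟩ := ha.1.continuous.bounded_above_of_compact_support (SymE.cs ha)
  set Ma : ℝ := |Ma'| + 1 with hMa
  have hMa0 : 0 < Ma := by positivity
  have hMab : ∀ ξ, ‖a ξ‖ ≤ Ma := by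
    intro ξ
    have := le_abs_self Ma'
    linarith [hMa' ξ]
  set δ' : ℝ := δ / (2 * ((n : ℝ) + 2)) with hδ'
  have hδ'0 : 0 < δ' := by positivity
  obtain ⟨N, hN1, hN2⟩ : ∃ N : ℕ, n + 3 ≤ N ∧ 3 * (n : ℝ) + 7 ≤ 2 * N * δ' := by
    obtain ⟨k, hk⟩ := exists_nat_ge ((3 * (n : ℝ) + 7) / (2 * δ'))
    refine ⟨k + n + 3, by omega, ?_⟩
    rw [div_le_iff₀ (by positivity)] at hk
    push_cast
    nlinarith [mul_nonneg hδ'0.le (Nat.cast_nonneg (α := ℝ) n)]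
  obtain ⟨Ct, hCt, hT⟩ := hTAI n N κ a hn hκ ha
  obtain ⟨Cρ, hCρ, hTr⟩ := hTRP n
  obtain ⟨Cv, hCv, hV⟩ := hVOL n
  set c : ℝ := (volume (Metric.ball (0 : EE (n + 1)) 1)).toReal with hc
  have hc0 : 0 ≤ c := ENNReal.toReal_nonneg
  set C₁ : ℝ := Ma ^ 2 * 2 * Cv * Cρ ^ (n + 2) * 17 ^ n with hC₁
  set C₂ : ℝ := Ct ^ 2 * c * 5 ^ (2 * n + 6) * 384 ^ (n + 1) * 4 ^ n with hC₂
  have hC₁0 : 0 < C₁ := by positivity
  have hC₂0 : 0 ≤ C₂ := by positivity
  refine ⟨2 * (C₁ + C₂), by positivity, ?_⟩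
  intro R A s r t η η' z₁ f hR hf hA hs hs1 hr hrR hη' hηη
  set lam : ℝ := 1 + |t| / R with hlam
  obtain ⟨hn0, -, hn1, hlam1, hn3⟩ := shp_num hR hs hr hrR hlam
  have hR0 : 0 < R := by linarith
  have hr0 : 0 < r := by linarith
  set ρ : ℝ := R ^ δ' * lam with hρ
  have hρ1 : 1 ≤ ρ := one_le_mul_of_one_le_of_one_le (Real.one_le_rpow hR hδ'0.le) hlam1
  obtain ⟨hb, hb1, hb2⟩ := hACS n κ s η a hκ ha hs
  set P : Set (EE (n + 1)) := {x | zt x t ∈ pl η' s r z₁} with hP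
  rcases P.eq_empty_or_nonempty with hPe | ⟨xc, hxc⟩
  · rw [hPe]
    simp
  set z' : Z n := zt xc t with hz'
  set ρb : ℝ := Cρ * ρ ^ 2 with hρb
  have hρb1 : 1 ≤ ρb := one_le_mul_of_one_le_of_one_le hCρ (one_le_pow₀ hρ1)
  obtain ⟨hSc, hSv⟩ := hV t s r ρb η' hs hs1 hr hρb1 hη'
  set S : Set (EE n × ℝ) := SV t s (ρb * r) (ρb * (r / s + Real.sqrt |t|)) η' with hS
  set E : Set (EE (n + 1)) := {x | (z'.2.1 - pr x, z'.2.2 + x (Fin.last n) / 2) ∈ S} with hE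
  have hEm : MeasurableSet E := by
    have hm : Measurable fun x : EE (n + 1) => (z'.2.1 - pr x, z'.2.2 + x (Fin.last n) / 2) := by
      refine Measurable.prodMk (measurable_const.sub continuous_pr.measurable) ?_
      fun_prop
    exact hm hSc.measurableSet
  have hEv : volume E = 2 * volume S := shp_vol hSc.measurableSet _ _
  obtain ⟨hf1, hf2, hsplit⟩ := Ua_split hPLE hb t hf hEm
  -- main part
  have h1 : ∫⁻ x in P, ‖Ua (ac a η s) t (E.indicator f) x‖ₑ ^ 2 ≤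
      ENNReal.ofReal (C₁ * (A ^ 2 * R ^ δ * lam ^ (3 * n + 4) * (r * (R * s) ^ n))) := by
    refine (setLIntegral_le_lintegral P _).trans ?_
    refine (Ua_l2 hPLE hb hMa0 (fun ξ => (hb1 ξ).trans (hMab ξ)) t hf1).trans ?_
    have h2 : ∫⁻ x, ‖E.indicator f x‖ₑ ^ 2 ≤ ENNReal.ofReal (A ^ 2) * volume E := by
      rw [← setLIntegral_const, ← lintegral_indicator hEm]
      refine lintegral_mono fun x => ?_
      by_cases hx : x ∈ E
      · rw [indicator_of_mem hx, indicator_of_mem hx, ← ofReal_norm,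
          ← ENNReal.ofReal_pow (norm_nonneg _)]
        apply ENNReal.ofReal_le_ofReal
        have := hf.2.1 x
        gcongr
      · rw [indicator_of_notMem hx, indicator_of_notMem hx]
        simp
    calc ENNReal.ofReal (Ma ^ 2) * ∫⁻ x, ‖E.indicator f x‖ₑ ^ 2
        ≤ ENNReal.ofReal (Ma ^ 2) * (ENNReal.ofReal (A ^ 2) * (ENNReal.ofReal 2 *
          ENNReal.ofReal (Cv * ρb ^ (n + 2) * r * (r / s + |t| * s) ^ n))) := by
          gcongr
          refine h2.trans ?_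
          rw [hEv]
          gcongr
          rw [ENNReal.ofReal_ofNat]
      _ = ENNReal.ofReal (Ma ^ 2 * (A ^ 2 * (2 * (Cv * ρb ^ (n + 2) * r *
          (r / s + |t| * s) ^ n)))) := by
          rw [← ENNReal.ofReal_mul (by norm_num : (0 : ℝ) ≤ 2),
            ← ENNReal.ofReal_mul (by positivity : (0 : ℝ) ≤ A ^ 2),
            ← ENNReal.ofReal_mul (by positivity : (0 : ℝ) ≤ Ma ^ 2)]
      _ ≤ _ := ENNReal.ofReal_le_ofReal
          (shp_num1 hR hs hr hrR hlam hCρ hCv hρ)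
  -- the tail
  have h3 : ∀ x ∈ P, ‖Ua (ac a η s) t (Eᶜ.indicator f) x‖ₑ ≤
      ENNReal.ofReal (A * (Ct * (1 + |t| + s⁻¹) ^ (n + 3) * (ρ ^ N)⁻¹)) := by
    intro x hx
    rw [Ua_conv hb hPLE t hf2]
    set U : Set (EE (n + 1)) := {u | x - u ∉ E} with hU
    have hUm : MeasurableSet U := (measurable_const.sub measurable_id) hEm.compl
    have h4 : ∀ u ∈ U, ∀ θ ∈ Th η s, ρ ≤ Wz s (zt u t) θ := by
      intro u hu θ hθ
      by_contra hcon
      apply hu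
      have e1 : zt x t - zt (x - u) 0 = zt u t := by
        rw [zt_sub]
        congr 1
        · abel
        · ring
      have h5 := hTr s r ρ η' θ z₁ (zt x t) z' (zt (x - u) 0) hs hs1 hr hρ1 hθ.2 (by
        calc ‖θ - η'‖ = ‖(θ - η) + (η - η')‖ := by congr 1; abel
          _ ≤ ‖θ - η‖ + ‖η - η'‖ := norm_add_le _ _
          _ ≤ 7 * s := by linarith [hθ.1]) hx hxc (by
        rw [((hCOV n).1 x t).2, hz', ((hCOV n).1 xc t).2]) ((hCOV n).1 (x - u) 0).2 (by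
        rw [e1]; exact (not_le.1 hcon).le)
      obtain ⟨h6, h7⟩ := h5
      have e2 : z' - zt (x - u) 0 = (t - (z'.2.2 + (x - u) (Fin.last n) / 2),
          z'.2.1 - pr (x - u), z'.2.2 + (x - u) (Fin.last n) / 2) := by
        refine Prod.ext ?_ (Prod.ext ?_ ?_)
        · simp only [hz', zt, Prod.fst_sub]
          ring
        · simp only [zt, Prod.snd_sub, Prod.fst_sub]
        · simp only [zt, Prod.snd_sub]
          ring
      rw [e2] at h6 h7
      rw [((hCOV n).1 x t).2] at h7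
      refine ⟨θ, hθ.2, ?_, ?_, ?_⟩
      · calc ‖θ - η'‖ = ‖(θ - η) + (η - η')‖ := by congr 1; abel
          _ ≤ ‖θ - η‖ + ‖η - η'‖ := norm_add_le _ _
          _ ≤ 7 * s := by linarith [hθ.1]
      · refine le_trans h6 ?_
        rw [hρb]
        have : ρ ≤ ρ ^ 2 := by nlinarith
        gcongr
      · exact h7
    have h5 := hT η s ρ t U hs hs1 hρ1 hUm h4
    calc ‖∫ y, Kt (ac a η s) t (x - y) * Eᶜ.indicator f y‖ₑ
        ≤ ∫⁻ y, ‖Kt (ac a η s) t (x - y) * Eᶜ.indicator f y‖ₑ := enorm_integral_le_lintegral_enorm _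
      _ ≤ ∫⁻ y, (U.indicator fun u => ‖Kt (ac a η s) t u‖ₑ * ENNReal.ofReal A) (x - y) := by
          refine lintegral_mono fun y => ?_
          by_cases hy : y ∈ E
          · have : Eᶜ.indicator f y = 0 := indicator_of_notMem (by simpa using hy) _
            rw [this, mul_zero, enorm_zero]
            exact zero_le
          · have hyU : x - y ∈ U := by
              show x - (x - y) ∉ E
              rw [sub_sub_cancel]
              exact hy
            rw [indicator_of_mem (show y ∈ Eᶜ from hy), indicator_of_mem hyU, enorm_mul]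
            gcongr
            rw [← ofReal_norm]
            exact ENNReal.ofReal_le_ofReal (hf.2.1 y)
      _ = ∫⁻ u, (U.indicator fun u => ‖Kt (ac a η s) t u‖ₑ * ENNReal.ofReal A) u :=
          lintegral_sub_left_eq_self _ x
      _ = (∫⁻ u in U, ‖Kt (ac a η s) t u‖ₑ) * ENNReal.ofReal A := by
          rw [lintegral_indicator hUm, lintegral_mul_const' _ _ ENNReal.ofReal_ne_top]
      _ ≤ ENNReal.ofReal (Ct * (1 + |t| + s⁻¹) ^ (n + 3) * (ρ ^ N)⁻¹) * ENNReal.ofReal A := by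
          gcongr
      _ = _ := by
          rw [mul_comm, ← ENNReal.ofReal_mul hA.le]
  have hPv : volume P ≤ ENNReal.ofReal ((384 * R) ^ (n + 1) * c) := by
    have h4 : P ⊆ Metric.closedBall xc (384 * R) := by
      intro x hx
      rw [Metric.mem_closedBall, dist_eq_norm]
      have e1 : x - xc = xz (zt x t - z') := by
        rw [hz', zt_sub, ((hCOV n).1 _ _).1]
      rw [e1]
      refine (xz_norm _).trans ?_
      have h5 := (hLOB n 1 zero_le_one).2.1 η' s (zt x t - z') (by linarith) hs hs1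
      have h6 : ‖Lo η' s (zt x t - z')‖ ≤ 2 * r := by
        have e2 : zt x t - z' = (zt x t - z₁) - (z' - z₁) := by abel
        rw [e2, ((hLOA n).1 η' s _ _).2.1]
        have h7 : ‖Lo η' s (zt x t - z₁)‖ ≤ r := hx
        have h8 : ‖Lo η' s (z' - z₁)‖ ≤ r := hxc
        exact (norm_sub_le _ _).trans (by linarith)
      have h7 : (1 + 1 : ℝ) ^ 2 * s⁻¹ ^ 2 * ‖Lo η' s (zt x t - z')‖ ≤ 8 * (r / s ^ 2) := by
        calc (1 + 1 : ℝ) ^ 2 * s⁻¹ ^ 2 * ‖Lo η' s (zt x t - z')‖ ≤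
            (1 + 1 : ℝ) ^ 2 * s⁻¹ ^ 2 * (2 * r) := by gcongr
          _ = 8 * (r / s ^ 2) := by field_simp; norm_num
      linarith
    refine (measure_mono h4).trans ?_
    rw [Measure.addHaar_closedBall _ _ (by positivity), finrank_euclideanSpace,
      Fintype.card_fin, ENNReal.ofReal_mul (by positivity), hc, ENNReal.ofReal_toReal]
    exact measure_ball_lt_top.ne
  have h4 : ∫⁻ x in P, ‖Ua (ac a η s) t (Eᶜ.indicator f) x‖ₑ ^ 2 ≤
      ENNReal.ofReal (C₂ * (A ^ 2 * R ^ δ * lam ^ (3 * n + 4) * (r * (R * s) ^ n))) := by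
    have hPm : MeasurableSet P := by
      have h5 : Continuous fun x : EE (n + 1) => ‖Lo η' s (zt x t - z₁)‖ := by
        have h6 : Continuous fun x : EE (n + 1) => zt x t := by
          unfold zt
          refine Continuous.prodMk (by fun_prop) (Continuous.prodMk continuous_pr (by fun_prop))
        have h7 : Continuous fun z : Z n => ‖Lo η' s (z - z₁)‖ := by
          unfold Lo
          fun_prop
        exact h7.comp h6
      exact (isClosed_le h5 continuous_const).measurableSet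
    calc ∫⁻ x in P, ‖Ua (ac a η s) t (Eᶜ.indicator f) x‖ₑ ^ 2
        ≤ ∫⁻ x in P, ENNReal.ofReal (A * (Ct * (1 + |t| + s⁻¹) ^ (n + 3) * (ρ ^ N)⁻¹)) ^ 2 := by
          refine setLIntegral_mono' hPm fun x hx => ?_
          gcongr
          exact h3 x hx
      _ = ENNReal.ofReal (A * (Ct * (1 + |t| + s⁻¹) ^ (n + 3) * (ρ ^ N)⁻¹)) ^ 2 * volume P :=
          setLIntegral_const _ _
      _ ≤ ENNReal.ofReal (A * (Ct * (1 + |t| + s⁻¹) ^ (n + 3) * (ρ ^ N)⁻¹)) ^ 2 *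
          ENNReal.ofReal ((384 * R) ^ (n + 1) * c) := by gcongr
      _ = ENNReal.ofReal ((A * (Ct * (1 + |t| + s⁻¹) ^ (n + 3) * (ρ ^ N)⁻¹)) ^ 2 *
          ((384 * R) ^ (n + 1) * c)) := by
          rw [← ENNReal.ofReal_pow (by positivity), ← ENNReal.ofReal_mul (by positivity)]
      _ ≤ _ := ENNReal.ofReal_le_ofReal
          (shp_num2 hR hs hr hrR hlam hCt hc0 hρ hN1 hN2 hδ)
  have hmeas : Measurable fun x => ‖Ua (ac a η s) t (E.indicator f) x‖ₑ ^ 2 :=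
    ((Ua_meas hb (Pool.Agent.H19.LS.BCd_int A _ hf1)).comp
      (continuous_const.prodMk continuous_id)).enorm.measurable.pow_const 2
  calc ∫⁻ x in P, ‖Ua (ac a η s) t f x‖ₑ ^ 2
      ≤ ∫⁻ x in P, (2 * ‖Ua (ac a η s) t (E.indicator f) x‖ₑ ^ 2 +
        2 * ‖Ua (ac a η s) t (Eᶜ.indicator f) x‖ₑ ^ 2) := by
        refine lintegral_mono fun x => ?_
        rw [hsplit x]
        have h5 : ∀ u v : ℂ, ‖u + v‖ₑ ^ 2 ≤ 2 * ‖u‖ₑ ^ 2 + 2 * ‖v‖ₑ ^ 2 := by
          intro u v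
          rw [← ofReal_norm, ← ofReal_norm, ← ofReal_norm, ← ENNReal.ofReal_pow (norm_nonneg _),
            ← ENNReal.ofReal_pow (norm_nonneg _), ← ENNReal.ofReal_pow (norm_nonneg _),
            ← ENNReal.ofReal_ofNat 2, ← ENNReal.ofReal_mul (by norm_num),
            ← ENNReal.ofReal_mul (by norm_num), ← ENNReal.ofReal_add (by positivity)
            (by positivity)]
          apply ENNReal.ofReal_le_ofReal
          have := norm_add_le u v
          nlinarith [norm_nonneg (u + v), sq_nonneg (‖u‖ - ‖v‖), norm_nonneg u, norm_nonneg v]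
        exact h5 _ _
    _ = 2 * (∫⁻ x in P, ‖Ua (ac a η s) t (E.indicator f) x‖ₑ ^ 2) +
        2 * ∫⁻ x in P, ‖Ua (ac a η s) t (Eᶜ.indicator f) x‖ₑ ^ 2 := by
        rw [lintegral_add_left (hmeas.const_mul 2), lintegral_const_mul' _ _ (by norm_num),
          lintegral_const_mul' _ _ (by norm_num)]
    _ ≤ 2 * ENNReal.ofReal (C₁ * (A ^ 2 * R ^ δ * lam ^ (3 * n + 4) * (r * (R * s) ^ n))) +
        2 * ENNReal.ofReal (C₂ * (A ^ 2 * R ^ δ * lam ^ (3 * n + 4) * (r * (R * s) ^ n))) := by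
        gcongr
    _ = _ := by
        rw [← ENNReal.ofReal_ofNat 2, ← ENNReal.ofReal_mul (by norm_num),
          ← ENNReal.ofReal_mul (by norm_num), ← ENNReal.ofReal_add (by positivity)
            (by positivity)]
        congr 1
        ring

theorem xz_cont {n : ℕ} : Continuous (xz : Z n → EE (n + 1)) := by
  unfold xz
  exact Pool.Agent.H54.LS.continuous_jo.comp
    (f := fun z : Z n => (z.2.1, z.1 - z.2.2)) (by fun_prop)

theorem tz_cont {n : ℕ} : Continuous (tz : Z n → ℝ) := by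
  unfold tz
  fun_prop

theorem Ua_zcont {n : ℕ} {κ : ℝ} {b : EE (n + 1) → ℂ} (hb : SymE n κ b) {f : EE (n + 1) → ℂ}
    (hf : Integrable f) : Continuous fun z : Z n => Ua b (tz z) f (xz z) := by
  have h := Ua_meas hb hf
  have h2 : Continuous fun z : Z n => (tz z, xz z) := tz_cont.prodMk xz_cont
  generalize hU : (fun p : ℝ × EE (n + 1) => Ua b p.1 f p.2) = U at h
  have h3 : (fun z : Z n => Ua b (tz z) f (xz z)) = U ∘ fun z : Z n => (tz z, xz z) := by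
    rw [← hU]
    rfl
  rw [h3]
  exact h.comp h2

theorem pf_SHP (hCOV : T_COV) (hACS : T_ACS) (hTAI : T_TAI) (hTRP : T_TRP) (hVOL : T_VOL)
    (hPLE : T_PLE) (hLOA : Pool.Agent.H83.G.T_LOA) (hLOB : Pool.Agent.H83.G.T_LOB) : T_SHP := by
  intro n κ δ a X χ hn hκ ha hX hδ
  obtain ⟨C, hC, hS⟩ := shp_slice hCOV hACS hTAI hTRP hVOL hPLE hLOA hLOB n κ δ a hn hκ ha hδ
  obtain ⟨Cx, hCx, hχ⟩ := hX.2.2.2.2.2 (3 * n + 4)
  refine ⟨8 * C * Cx ^ 2, by positivity, ?_⟩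
  intro R A s r η η' z₁ f hR hf hA hs hs1 hr hrR hη' hηη
  have hR0 : 0 < R := by linarith
  have hr0 : 0 < r := by linarith
  obtain ⟨hb, hb1, hb2⟩ := hACS n κ s η a hκ ha hs
  set K : ℝ := C * Cx ^ 2 * (A ^ 2 * R ^ δ * (r * (R * s) ^ n)) with hK
  have hK0 : 0 ≤ K := by positivity
  have hLc : Continuous fun z : Z n => ‖Lo η' s (z - z₁)‖ := by
    unfold Lo
    fun_prop
  have hplm : MeasurableSet (pl η' s r z₁) := (isClosed_le hLc continuous_const).measurableSet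
  set F : Z n → ℝ≥0∞ := fun z => ‖Ua (ac a η s) (tz z) f (xz z) * χ (tz z / R)‖ₑ ^ 2 with hF
  have hFm : Measurable F := by
    have h1 := Ua_zcont hb (Pool.Agent.H19.LS.BCd_int A _ hf)
    have h2 : Continuous fun z : Z n => χ (tz z / R) :=
      hX.2.2.2.2.1.comp (tz_cont.div_const R)
    exact (h1.mul h2).enorm.measurable.pow_const 2
  rw [← lintegral_indicator hplm, (hCOV n).2.2.1 _ (hFm.indicator hplm)]
  set t₁ : ℝ := tz z₁ with ht₁
  set b : ℝ := 8 * (r / s ^ 2) with hb'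
  have hslice : ∀ t : ℝ, ∫⁻ x : EE (n + 1), (pl η' s r z₁).indicator F (zt x t) ≤
      (Icc (t₁ - b) (t₁ + b)).indicator (fun _ => ENNReal.ofReal K) t := by
    intro t
    by_cases ht : t ∈ Icc (t₁ - b) (t₁ + b)
    · rw [indicator_of_mem ht]
      have e1 : ∀ x : EE (n + 1), (pl η' s r z₁).indicator F (zt x t) =
          ‖χ (t / R)‖ₑ ^ 2 * {x | zt x t ∈ pl η' s r z₁}.indicator
            (fun x => ‖Ua (ac a η s) t f x‖ₑ ^ 2) x := by
        intro x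
        by_cases hx : zt x t ∈ pl η' s r z₁
        · rw [indicator_of_mem hx, indicator_of_mem (show x ∈ {x | zt x t ∈ pl η' s r z₁} from hx)]
          simp only [hF]
          rw [((hCOV n).1 x t).1, ((hCOV n).1 x t).2, enorm_mul, mul_pow, mul_comm]
        · rw [indicator_of_notMem hx,
            indicator_of_notMem (show x ∉ {x | zt x t ∈ pl η' s r z₁} from hx), mul_zero]
      have hztc : Continuous fun x : EE (n + 1) => zt x t := by
        unfold zt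
        refine Continuous.prodMk (by fun_prop) (Continuous.prodMk continuous_pr (by fun_prop))
      have hPm : MeasurableSet {x : EE (n + 1) | zt x t ∈ pl η' s r z₁} :=
        hztc.measurable hplm
      simp_rw [e1]
      rw [lintegral_const_mul' _ _ (by finiteness), lintegral_indicator hPm]
      have h1 := hS R A s r t η η' z₁ f hR hf hA hs hs1 hr hrR hη' hηη
      have h2 : ‖χ (t / R)‖ₑ ^ 2 ≤ ENNReal.ofReal ((Cx * ((1 + |t / R|) ^ (3 * n + 4))⁻¹) ^ 2) := by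
        rw [← ofReal_norm, ← ENNReal.ofReal_pow (norm_nonneg _)]
        apply ENNReal.ofReal_le_ofReal
        gcongr
        exact hχ _
      refine (mul_le_mul' h2 h1).trans ?_
      rw [← ENNReal.ofReal_mul (by positivity)]
      apply ENNReal.ofReal_le_ofReal
      have e2 : |t / R| = |t| / R := by rw [abs_div, abs_of_pos hR0]
      rw [e2, hK]
      have hl1 : 1 ≤ (1 + |t| / R) ^ (3 * n + 4) := by
        apply one_le_pow₀
        have : 0 ≤ |t| / R := by positivity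
        linarith
      set l : ℝ := (1 + |t| / R) ^ (3 * n + 4) with hl
      have hl0 : 0 < l := by linarith
      have h3 : (Cx * l⁻¹) ^ 2 * (C * (A ^ 2 * R ^ δ * l * (r * (R * s) ^ n))) =
          l⁻¹ * (C * Cx ^ 2 * (A ^ 2 * R ^ δ * (r * (R * s) ^ n))) := by
        field_simp
      rw [h3]
      have h4 : l⁻¹ ≤ 1 := inv_le_one_of_one_le₀ hl1
      have h5 : 0 ≤ C * Cx ^ 2 * (A ^ 2 * R ^ δ * (r * (R * s) ^ n)) := by positivity
      nlinarith
    · rw [indicator_of_notMem ht]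
      have e1 : ∀ x : EE (n + 1), (pl η' s r z₁).indicator F (zt x t) = 0 := by
        intro x
        apply indicator_of_notMem
        intro hx
        apply ht
        have h5 := (hLOB n 1 zero_le_one).2.1 η' s (zt x t - z₁) (by linarith) hs hs1
        have h6 : ‖Lo η' s (zt x t - z₁)‖ ≤ r := hx
        have h7 : |t - t₁| ≤ b := by
          have e2 : t - t₁ = tz (zt x t - z₁) := by
            have : tz (zt x t - z₁) = tz (zt x t) - tz z₁ := by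
              unfold tz
              simp only [Prod.fst_sub, Prod.snd_sub]
              ring
            rw [this, ((hCOV n).1 x t).2]
          rw [e2]
          refine (tz_norm _).trans ?_
          have h8 : (1 + 1 : ℝ) ^ 2 * s⁻¹ ^ 2 * ‖Lo η' s (zt x t - z₁)‖ ≤ 4 * (r / s ^ 2) := by
            calc (1 + 1 : ℝ) ^ 2 * s⁻¹ ^ 2 * ‖Lo η' s (zt x t - z₁)‖ ≤
                (1 + 1 : ℝ) ^ 2 * s⁻¹ ^ 2 * r := by gcongr
              _ = 4 * (r / s ^ 2) := by field_simp; norm_num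
          rw [hb']
          linarith
        obtain ⟨h8, h9⟩ := abs_le.1 h7
        exact ⟨by linarith, by linarith⟩
      simp_rw [e1]
      simp
  calc 2⁻¹ * ∫⁻ t : ℝ, ∫⁻ x : EE (n + 1), (pl η' s r z₁).indicator F (zt x t)
      ≤ 2⁻¹ * ∫⁻ t : ℝ, (Icc (t₁ - b) (t₁ + b)).indicator (fun _ => ENNReal.ofReal K) t := by
        gcongr with t
        exact hslice t
    _ = 2⁻¹ * (ENNReal.ofReal K * ENNReal.ofReal (2 * b)) := by
        rw [lintegral_indicator measurableSet_Icc, setLIntegral_const, Real.volume_Icc]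
        congr 3
        ring
    _ = ENNReal.ofReal (2⁻¹ * (K * (2 * b))) := by
        rw [← ENNReal.ofReal_mul hK0, ENNReal.ofReal_mul (by norm_num : (0 : ℝ) ≤ 2⁻¹),
          ENNReal.ofReal_inv_of_pos two_pos, ENNReal.ofReal_ofNat]
    _ = ENNReal.ofReal (8 * C * Cx ^ 2 * R ^ δ *
          (A ^ 2 * (R * s ^ 2 / r) ^ n * (r / s) ^ (n + 2))) := by
        congr 1
        rw [hK, hb', div_pow, div_pow, mul_pow, mul_pow, ← pow_mul]
        have e3 : s ^ (2 * n) = s ^ n * s ^ n := by rw [← pow_add]; congr 1; ring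
        rw [e3, pow_add r n 2, pow_add s n 2]
        field_simp

end Pool.Agent.H81.GT
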