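import Pool.Agent.H81.GT.LEV

/-!
Theorem G (MP_ee74d2_an), group T: from the level sets to `SEC`, for a general exponent `2 + x`.
-/

set_option autoImplicit false

namespace Pool.Agent.H81.GT

open MeasureTheory Set FourierTransform
open scoped ENNReal NNReal RealInnerProductSpace
open Pool.Agent.H83.LS
open Pool.Agent.H83.G (Z TF Rg Cls pl Lo Bp TP Sep)

/-- the level set estimate at scale `R` with exponent `2 + x` and constant `g` -/
def Bdx (n L : ℕ) (x κ R g : ℝ) : Prop :=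
  ∀ (A H : ℝ) (G : Z n → ℂ) (X : Finset (Z n)), 0 < A → 0 < H → Cls L κ R A G → Sep X →
    (∀ z ∈ X, H ≤ ‖TF G z‖) →
    (X.card : ℝ) * H ^ (2 + x) ≤ g * A ^ x * R ^ ((n : ℝ) * x / 2 - 1) * ∫ ζ, ‖G ζ‖ ^ 2

/-- the level set estimate at all scales, exponent `2 + x` -/
def MAINx (n : ℕ) (x : ℝ) : Prop := ∀ ε : ℝ, 0 < ε → ∃ (L : ℕ) (C : ℝ), 2 * n + 6 ≤ L ∧ 0 < C ∧
  ∀ R : ℝ, 1 ≤ R → Bdx n L x (1 / 4) R (C * R ^ ε)

/-- the exponents and constants -/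
theorem levx_const {n : ℕ} {x q ε δ η R A Cc Cm Cg Cs I : ℝ}
    (hR : 1 ≤ R) (hA : 0 < A) (hCc : 0 < Cc) (hCm : 0 < Cm) (hCg : 0 < Cg)
    (hCs : 0 < Cs) (hI : 0 ≤ I) (hε : ε + δ * (q - 2) ≤ η) :
    (Cs * (Cc * R ^ δ * A) * R ^ ((n : ℝ) / 2)) ^ (q - (2 + x)) *
      (Cm * R ^ ε * (Cc * R ^ δ * A) ^ x * R ^ ((n : ℝ) * x / 2 - 1) * (Cg * R * I)) ≤
    Cs ^ (q - (2 + x)) * Cc ^ (q - 2) * Cm * Cg *
      (R ^ ((n : ℝ) * (q / 2 - 1) + η) * A ^ (q - 2) * I) := by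
  have hR0 : 0 < R := by linarith
  have hA' : 0 < Cc * R ^ δ * A := by positivity
  have e1 : (Cs * (Cc * R ^ δ * A) * R ^ ((n : ℝ) / 2)) ^ (q - (2 + x)) =
      Cs ^ (q - (2 + x)) * (Cc * R ^ δ * A) ^ (q - (2 + x)) *
        R ^ ((n : ℝ) / 2 * (q - (2 + x))) := by
    rw [Real.mul_rpow (by positivity) (by positivity), Real.mul_rpow hCs.le hA'.le,
      ← Real.rpow_mul hR0.le]
  have e2 : (Cc * R ^ δ * A) ^ (q - (2 + x)) * (Cc * R ^ δ * A) ^ x =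
      Cc ^ (q - 2) * R ^ (δ * (q - 2)) * A ^ (q - 2) := by
    rw [← Real.rpow_add hA', show q - (2 + x) + x = q - 2 by ring,
      Real.mul_rpow (by positivity) hA.le, Real.mul_rpow hCc.le (by positivity),
      ← Real.rpow_mul hR0.le]
  have e3 : R ^ ((n : ℝ) / 2 * (q - (2 + x))) * R ^ ε * R ^ (δ * (q - 2)) * R ^ ((n : ℝ) * x / 2 - 1) * R =
      R ^ ((n : ℝ) * (q / 2 - 1) + (ε + δ * (q - 2))) := by
    have : R = R ^ (1 : ℝ) := (Real.rpow_one R).symm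
    conv_lhs => rw [this]
    rw [← Real.rpow_mul hR0.le, ← Real.rpow_mul hR0.le, ← Real.rpow_mul hR0.le,
      ← Real.rpow_mul hR0.le, ← Real.rpow_add hR0, ← Real.rpow_add hR0, ← Real.rpow_add hR0,
      ← Real.rpow_add hR0]
    congr 1
    ring
  have e4 : (Cs * (Cc * R ^ δ * A) * R ^ ((n : ℝ) / 2)) ^ (q - (2 + x)) *
      (Cm * R ^ ε * (Cc * R ^ δ * A) ^ x * R ^ ((n : ℝ) * x / 2 - 1) * (Cg * R * I)) =
      Cs ^ (q - (2 + x)) * Cc ^ (q - 2) * Cm * Cg *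
      (R ^ ((n : ℝ) * (q / 2 - 1) + (ε + δ * (q - 2))) * A ^ (q - 2) * I) := by
    rw [e1, ← e3]
    linear_combination (Cs ^ (q - (2 + x)) * R ^ ((n : ℝ) / 2 * (q - (2 + x))) * Cm *
      R ^ ε * R ^ ((n : ℝ) * x / 2 - 1) * Cg * R * I) * e2
  rw [e4]
  gcongr

theorem pf_LEVx (hTX : T_TX) (hCOV : T_COV) (hREP : T_REP) (hGL2 : T_GL2) (hCLS : T_CLS)
    (hSPK : Pool.Agent.H83.G.T_SPK)
    (hPUX : Pool.Agent.H83.G.T_PUX) (hSCH : Pool.Agent.H83.G.T_SCH) {n : ℕ} {κ x q : ℝ}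
    (hn : 1 ≤ n) (hκ : κ ≤ 1 / 8) (hx0 : 0 < x) (hMAIN : MAINx n x) (hq' : 2 + x < q) :
    SEC n κ q := by
  intro η a hη ha
  have hq2 : 2 < q := by linarith
  obtain ⟨X, χ, hX⟩ := hTX
  obtain ⟨β, hβ⟩ := hPUX n
  set δ : ℝ := η / (2 * q) with hδ
  have hδ0 : 0 < δ := by positivity
  have hεδ : η / 2 + δ * (q - 2) ≤ η := by
    have : δ * q = η / 2 := by rw [hδ]; field_simp
    nlinarith
  obtain ⟨L, Cm, hL, hCm, hm⟩ := hMAIN (η / 2) (by positivity)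
  obtain ⟨Cc, hCc, hc⟩ := hCLS n L κ δ a X χ hn hL hκ ha hX hδ0
  obtain ⟨Cg, hCg, hg⟩ := hGL2 n κ a X χ hκ ha hX
  obtain ⟨Cs, hCs, hs⟩ := hSPK n L β hβ
  set c₀ : ℝ≥0∞ := volume (Metric.ball (0 : Z n) 1) with hc₀
  have hc₀t : c₀ ≠ ⊤ := by
    have := haarZ n
    exact measure_ball_lt_top.ne
  set C₁ : ℝ := q / (q - (2 + x)) * (Cs ^ (q - (2 + x)) * Cc ^ (q - 2) * Cm * Cg) with hC₁
  have hC₁0 : 0 < C₁ := by
    have : 0 < q - (2 + x) := by linarith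
    positivity
  refine ⟨(2 * c₀ * ENNReal.ofReal C₁).toNNReal, ?_⟩
  intro R A f hR hf
  have hR0 : 0 < R := by linarith
  rw [ENNReal.coe_toNNReal (by finiteness)]
  have hA0 : 0 ≤ A := (norm_nonneg (f 0)).trans (hf.2.1 0)
  rcases hA0.eq_or_lt with hA | hA
  · have hf0 : f = 0 := by
      funext x
      have := hf.2.1 x
      rw [← hA] at this
      exact norm_le_zero_iff.1 this
    have : ∀ t x, Ua a t f x = 0 := by
      intro t x
      unfold Ua MM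
      have h0 : 𝓕 f = 0 := by
        rw [hf0]
        funext ξ
        simp [Real.fourier_eq]
      rw [h0]
      simp
    simp only [this]
    rw [lintegral_congr (g := fun _ => 0)]
    · simp
    · intro t
      rw [lintegral_congr (g := fun _ => 0)]
      · simp
      · intro x
        rw [enorm_zero, ENNReal.zero_rpow_of_pos (by linarith)]
  set G := Gf X R a f with hG
  obtain ⟨hTC, hRg, hrep⟩ := hREP n κ R A a f X χ hκ ha hX hR hf
  have hcls := hc R A f hR hA hf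
  have hA' : 0 < Cc * R ^ δ * A := by positivity
  have hmain := fun (H : ℝ) (hH : 0 < H) (X' : Finset (Z n)) (hX' : Sep X')
    (h : ∀ z ∈ X', H ≤ ‖TF G z‖) => hm R hR (Cc * R ^ δ * A) H G X' hA' hH hcls hX' h
  set K : ℝ := Cm * R ^ (η / 2) * (Cc * R ^ δ * A) ^ x * R ^ ((n : ℝ) * x / 2 - 1) *
    ∫ ζ, ‖G ζ‖ ^ 2 with hK
  have hI0 : 0 ≤ ∫ ζ, ‖G ζ‖ ^ 2 := integral_nonneg fun ζ => by positivity
  have hK0 : 0 ≤ K := by positivity
  set B : ℝ := Cs * (Cc * R ^ δ * A) * R ^ ((n : ℝ) / 2) with hB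
  have hB0 : 0 < B := by positivity
  have hsup : ∀ z, ‖TF G z‖ ≤ B :=
    (hs (1 / 4) R (Cc * R ^ δ * A) G (by norm_num) (by norm_num) hR hA' hcls).2
  have hcont : Continuous (TF G) := (hSCH n G hTC).1
  have h1 := lev_cake (F := fun z => ‖TF G z‖) hcont.norm.measurable (fun z => norm_nonneg _)
    hK0 hB0 (by positivity) hq' (fun H hH X' hX' h => hmain H hH X' hX' h) hsup
  set I : ℝ := (∫⁻ x, ‖f x‖ₑ ^ 2).toReal with hI
  have hI0' : 0 ≤ I := ENNReal.toReal_nonneg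
  have hft : ∫⁻ x, ‖f x‖ₑ ^ 2 ≠ ⊤ := by
    obtain ⟨ρ, hρ⟩ := hf.2.2
    have : ∫⁻ x, ‖f x‖ₑ ^ 2 ≤ ENNReal.ofReal (A ^ 2) * volume (Metric.closedBall (0 : EE (n + 1)) ρ) := by
      rw [← setLIntegral_const, ← lintegral_indicator measurableSet_closedBall]
      refine lintegral_mono fun x => ?_
      by_cases hx : x ∈ Metric.closedBall (0 : EE (n + 1)) ρ
      · rw [indicator_of_mem hx, ← ofReal_norm, ← ENNReal.ofReal_pow (norm_nonneg _)]
        apply ENNReal.ofReal_le_ofReal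
        have := hf.2.1 x
        have h0 := norm_nonneg (f x)
        nlinarith
      · rw [indicator_of_notMem hx, hρ x (by simpa using hx)]
        simp
    exact ne_top_of_le_ne_top (by
      exact ENNReal.mul_ne_top ENNReal.ofReal_ne_top measure_closedBall_lt_top.ne) this
  have h2 : K ≤ Cm * R ^ (η / 2) * (Cc * R ^ δ * A) ^ x * R ^ ((n : ℝ) * x / 2 - 1) * (Cg * R * I) := by
    rw [hK]
    gcongr
    exact hg R A f hR hf
  have h3 : q / (q - (2 + x)) * (B ^ (q - (2 + x)) * K) ≤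
      C₁ * (R ^ ((n : ℝ) * (q / 2 - 1) + η) * A ^ (q - 2) * I) := by
    have h4 := levx_const (n := n) (x := x) (q := q) (ε := η / 2) (δ := δ) (η := η) hR hA hCc hCm hCg
      hCs hI0' hεδ
    have h5 : 0 < q - (2 + x) := by linarith
    calc q / (q - (2 + x)) * (B ^ (q - (2 + x)) * K) ≤ q / (q - (2 + x)) *
          (B ^ (q - (2 + x)) *
            (Cm * R ^ (η / 2) * (Cc * R ^ δ * A) ^ x * R ^ ((n : ℝ) * x / 2 - 1) * (Cg * R * I))) := by
          gcongr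
      _ ≤ q / (q - (2 + x)) * (Cs ^ (q - (2 + x)) * Cc ^ (q - 2) * Cm * Cg *
            (R ^ ((n : ℝ) * (q / 2 - 1) + η) * A ^ (q - 2) * I)) := by
          gcongr
      _ = _ := by rw [hC₁]; ring
  have hmF : Measurable (fun z : Z n => ‖TF G z‖ₑ ^ q) := hcont.enorm.measurable.pow_const q
  have h4 : ∫⁻ t in Icc R (2 * R), ∫⁻ x, ‖Ua a t f x‖ₑ ^ q ≤
      2 * ∫⁻ z, ‖TF G z‖ₑ ^ q := by
    have h5 := (hCOV n).2.2.1 (fun z => ‖TF G z‖ₑ ^ q) hmF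
    have h6 : 2 * ∫⁻ z, ‖TF G z‖ₑ ^ q =
        ∫⁻ t : ℝ, ∫⁻ x : EE (n + 1), ‖TF G (zt x t)‖ₑ ^ q := by
      rw [h5, ← mul_assoc, ENNReal.mul_inv_cancel (by norm_num) (by norm_num), one_mul]
    rw [h6]
    rw [← lintegral_indicator measurableSet_Icc]
    refine lintegral_mono fun t => ?_
    by_cases ht : t ∈ Icc R (2 * R)
    · rw [indicator_of_mem ht]
      refine lintegral_mono fun x => ?_
      refine ENNReal.rpow_le_rpow ?_ (by linarith)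
      rw [hrep, ((hCOV n).1 x t).1, ((hCOV n).1 x t).2, enorm_mul]
      have h7 : 1 ≤ ‖χ (t / R)‖ := hX.2.2.2.1 _ ⟨by rw [le_div_iff₀ hR0]; linarith [ht.1],
        by rw [div_le_iff₀ hR0]; exact ht.2⟩
      have h8 : (1 : ℝ≥0∞) ≤ ‖χ (t / R)‖ₑ := by
        rw [← ofReal_norm]
        exact ENNReal.one_le_ofReal.2 h7
      exact le_mul_of_one_le_right zero_le h8
    · rw [indicator_of_notMem ht]
      exact zero_le
  have h5 : ∫⁻ z, ‖TF G z‖ₑ ^ q = ∫⁻ z, ENNReal.ofReal (‖TF G z‖ ^ q) := by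
    refine lintegral_congr fun z => ?_
    rw [← ofReal_norm, ENNReal.ofReal_rpow_of_nonneg (norm_nonneg _) (by linarith)]
  rw [h5] at h4
  refine h4.trans ?_
  calc 2 * ∫⁻ z, ENNReal.ofReal (‖TF G z‖ ^ q)
      ≤ 2 * (c₀ * ENNReal.ofReal (C₁ * (R ^ ((n : ℝ) * (q / 2 - 1) + η) * A ^ (q - 2) * I))) := by
        gcongr
        exact h1.trans (mul_le_mul_right (ENNReal.ofReal_le_ofReal h3) _)
    _ = 2 * c₀ * ENNReal.ofReal C₁ *
        ENNReal.ofReal (R ^ ((n : ℝ) * (q / 2 - 1) + η) * A ^ (q - 2)) * ∫⁻ x, ‖f x‖ₑ ^ 2 := by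
        have hP0 : 0 ≤ R ^ ((n : ℝ) * (q / 2 - 1) + η) * A ^ (q - 2) := by positivity
        have e7 : ENNReal.ofReal (C₁ * (R ^ ((n : ℝ) * (q / 2 - 1) + η) * A ^ (q - 2) * I)) =
            ENNReal.ofReal C₁ * (ENNReal.ofReal (R ^ ((n : ℝ) * (q / 2 - 1) + η) * A ^ (q - 2)) *
              ENNReal.ofReal I) := by
          rw [← ENNReal.ofReal_mul hP0, ← ENNReal.ofReal_mul hC₁0.le]
        have e8 : ENNReal.ofReal I = ∫⁻ x, ‖f x‖ₑ ^ 2 := ENNReal.ofReal_toReal hft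
        rw [e7, e8]
        ring

end Pool.Agent.H81.GT
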