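import Pool.Agent.H83.G.Targets3
import Pool.Agent.H81.GT.LO

/-!
Theorem G (MP_ee74d2_an), group T: from the wave equation to the class. Dimension `n + 1`,
space-time `Z n` with light cone coordinates `z = (v, y, w)`, `x = (y, v - w)`, `t = v + w`.
-/

set_option autoImplicit false

namespace Pool.Agent.H81.GT

open MeasureTheory Set FourierTransform
open scoped ENNReal NNReal RealInnerProductSpace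
open Pool.Agent.H83.LS
open Pool.Agent.H83.G (Z TF Rg Cls pl Lo Bp TP)

section

variable {n : ℕ}

/-- time of a point of space-time -/
noncomputable def tz (z : Z n) : ℝ := z.1 + z.2.2

/-- space component of a point of space-time -/
noncomputable def xz (z : Z n) : EE (n + 1) := jo z.2.1 (z.1 - z.2.2)

/-- the point of space-time with space component `x` and time `t` -/
noncomputable def zt (x : EE (n + 1)) (t : ℝ) : Z n :=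
  ((t + x (Fin.last n)) / 2, pr x, (t - x (Fin.last n)) / 2)

/-- spatial frequency of a frequency `ζ = (a, ξ', b)`: `(ξ', (a - b)/2)` -/
noncomputable def fz (ζ : Z n) : EE (n + 1) := jo ζ.2.1 ((ζ.1 - ζ.2.2) / 2)

/-- profiles in time: `X` is smooth and supported in `|σ| ≤ 1/1000`, `χ(s) = ∫ e(sσ) X(σ) dσ` is at
least `1` on `[1,2]` and decays -/
def IsX (X χ : ℝ → ℂ) : Prop := ContDiff ℝ (⊤ : ℕ∞) X ∧ (∀ σ, X σ ≠ 0 → |σ| ≤ 1 / 1000) ∧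
  (∀ s, χ s = ∫ σ : ℝ, e (s * σ) * X σ) ∧ (∀ s ∈ Icc (1 : ℝ) 2, 1 ≤ ‖χ s‖) ∧ Continuous χ ∧
  ∀ N : ℕ, ∃ C : ℝ, 0 < C ∧ ∀ s, ‖χ s‖ ≤ C * ((1 + |s|) ^ N)⁻¹

/-- the function with `TF (Gf X R a f) z = Ua a t f x * χ (t / R)` -/
noncomputable def Gf (X : ℝ → ℂ) (R : ℝ) (a f : EE (n + 1) → ℂ) (ζ : Z n) : ℂ :=
  ((R / 2 : ℝ) : ℂ) * (a (fz ζ) * 𝓕 f (fz ζ)) * X (R * ((ζ.1 + ζ.2.2) / 2 - ‖fz ζ‖))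

/-- `|ξ| + ξ_d` -/
noncomputable def al (ξ : EE (n + 1)) : ℝ := ‖ξ‖ + ξ (Fin.last n)

/-- `1` on the ball of radius `2`, supported in the ball of radius `3` -/
noncomputable def Bu (x : EE n) : ℝ := Real.smoothTransition (9 - ‖x‖ ^ 2)

/-- the symbol `a` localized to the cap of centre `η` and radius `3s` -/
noncomputable def ac (a : EE (n + 1) → ℂ) (η : EE n) (s : ℝ) (ξ : EE (n + 1)) : ℂ :=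
  a ξ * (Bu (s⁻¹ • ((al ξ)⁻¹ • pr ξ - η)) : ℂ)

/-- `v + y·θ + w|θ|²` -/
noncomputable def Qz (z : Z n) (θ : EE n) : ℝ := z.1 + ⟪z.2.1, θ⟫ + z.2.2 * ‖θ‖ ^ 2

/-- `y + 2wθ` -/
noncomputable def Yz (z : Z n) (θ : EE n) : EE n := z.2.1 + (2 * z.2.2) • θ

/-- radius of the small caps -/
noncomputable def sg (s w : ℝ) : ℝ := s / (16 * Real.sqrt (1 + s ^ 2 * |w|))

/-- the weight of the kernel bound -/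
noncomputable def Wz (s : ℝ) (z : Z n) (θ : EE n) : ℝ :=
  1 + |Qz z θ| + sg s z.2.2 * ‖Yz z θ‖

/-- the set of the directions of a cap -/
def Th (η : EE n) (s : ℝ) : Set (EE n) := {θ | ‖θ - η‖ ≤ 4 * s ∧ ‖θ‖ ≤ 1 / 3}

/-- the region reached from a plank at time `t`, in coordinates `(y, w)` -/
def SV (t s D M : ℝ) (η : EE n) : Set (EE n × ℝ) :=
  {p | ∃ θ : EE n, ‖θ‖ ≤ 1 / 3 ∧ ‖θ - η‖ ≤ 7 * s ∧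
    |t - p.2 + ⟪p.1, θ⟫ + p.2 * ‖θ‖ ^ 2| ≤ D ∧ ‖p.1 + (2 * p.2) • θ‖ ≤ M}

end

/-- TX: profiles exist -/
def T_TX : Prop := ∃ X χ : ℝ → ℂ, IsX X χ

/-- COV: change of variables -/
def T_COV : Prop := ∀ n : ℕ,
  (∀ (x : EE (n + 1)) (t : ℝ), xz (zt x t) = x ∧ tz (zt x t) = t) ∧
  (∀ z : Z n, zt (xz z) (tz z) = z) ∧
  (∀ F : Z n → ℝ≥0∞, Measurable F →
    ∫⁻ z, F z = 2⁻¹ * ∫⁻ t : ℝ, ∫⁻ x : EE (n + 1), F (zt x t)) ∧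
  (∀ F : Z n → ℂ, Continuous F → Integrable F → ∫ ζ, F ζ =
    2 * ∫ ξ : EE (n + 1), ∫ τ : ℝ, F (τ + ξ (Fin.last n), pr ξ, τ - ξ (Fin.last n))) ∧
  (∀ F : Z n → ℝ≥0∞, Measurable F → ∫⁻ ζ, F ζ =
    2 * ∫⁻ ξ : EE (n + 1), ∫⁻ τ : ℝ, F (τ + ξ (Fin.last n), pr ξ, τ - ξ (Fin.last n)))

/-- REP: representation of the wave -/
def T_REP : Prop := ∀ (n : ℕ) (κ R A : ℝ) (a f : EE (n + 1) → ℂ) (X χ : ℝ → ℂ), κ ≤ 1 / 8 →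
  SymE n κ a → IsX X χ → 1 ≤ R → BCd A f →
  Pool.Agent.H83.G.TC (Gf X R a f) ∧ (∀ ζ, Gf X R a f ζ ≠ 0 → ζ ∈ Rg n (1 / 4) R⁻¹) ∧
  ∀ z, TF (Gf X R a f) z = Ua a (tz z) f (xz z) * χ (tz z / R)

/-- GL2: its energy -/
def T_GL2 : Prop := ∀ (n : ℕ) (κ : ℝ) (a : EE (n + 1) → ℂ) (X χ : ℝ → ℂ), κ ≤ 1 / 8 →
  SymE n κ a → IsX X χ → ∃ C : ℝ, 0 < C ∧ ∀ (R A : ℝ) (f : EE (n + 1) → ℂ), 1 ≤ R → BCd A f →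
  ∫ ζ, ‖Gf X R a f ζ‖ ^ 2 ≤ C * R * (∫⁻ x, ‖f x‖ₑ ^ 2).toReal

/-- ACS: symbols of caps -/
def T_ACS : Prop := ∀ (n : ℕ) (κ s : ℝ) (η : EE n) (a : EE (n + 1) → ℂ), κ ≤ 1 / 8 →
  SymE n κ a → 0 < s → SymE n κ (ac a η s) ∧ (∀ ξ, ‖ac a η s ξ‖ ≤ ‖a ξ‖) ∧
  ∀ ξ, ac a η s ξ ≠ 0 → ‖(al ξ)⁻¹ • pr ξ - η‖ ≤ 3 * s ∧ ‖(al ξ)⁻¹ • pr ξ‖ ≤ 27 / 100

/-- SUB: kernels in the coordinates `(a, ξ')` of the cone -/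
def T_SUB : Prop := ∀ (n : ℕ) (b : EE (n + 1) → ℂ) (z : Z n), Continuous b →
  HasCompactSupport b → (∀ ξ, b ξ ≠ 0 → 0 < ξ (Fin.last n)) →
  Kt b (tz z) (xz z) = ∫ u : EE n × ℝ in {u | 0 < u.2},
    e (z.1 * u.2 + ⟪z.2.1, u.1⟫ + z.2.2 * ‖u.1‖ ^ 2 / u.2) *
      (((1 + ‖u.1‖ ^ 2 / u.2 ^ 2) / 2 : ℝ) : ℂ) * b (jo u.1 ((u.2 - ‖u.1‖ ^ 2 / u.2) / 2))

/-- PIE: kernel of a small cap -/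
def T_PIE : Prop := ∀ (n N : ℕ) (κ : ℝ) (a : EE (n + 1) → ℂ) (β : EE n → ℝ), 1 ≤ n →
  κ ≤ 1 / 8 → SymE n κ a → ContDiff ℝ (⊤ : ℕ∞) β → (∀ x, 1 ≤ ‖x‖ → β x = 0) →
  ∃ C : ℝ, 0 < C ∧ ∀ (η θ : EE n) (s σ : ℝ) (z : Z n), 0 < s → s ≤ 1 → 0 < σ → σ ≤ s / 16 →
  σ ^ 2 * |z.2.2| ≤ 1 → ‖θ - η‖ ≤ 4 * s → ‖θ‖ ≤ 1 / 3 →
  ‖Kt (fun ξ => ac a η s ξ * (β (σ⁻¹ • ((al ξ)⁻¹ • pr ξ - θ)) : ℂ)) (tz z) (xz z)‖ ≤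
    C * σ ^ n * ((1 + |Qz z θ| + σ * ‖Yz z θ‖) ^ N)⁻¹

/-- PKB: kernel of the wave localized to a cap -/
def T_PKB : Prop := ∀ (n N : ℕ) (κ : ℝ) (a : EE (n + 1) → ℂ), 1 ≤ n → κ ≤ 1 / 8 →
  SymE n κ a →
  ∃ C : ℝ, 0 < C ∧ ∀ (η : EE n) (s : ℝ) (z : Z n), 0 < s → s ≤ 1 →
  ‖Kt (ac a η s) (tz z) (xz z)‖ₑ ≤
    ENNReal.ofReal C * ∫⁻ θ in Th η s, ENNReal.ofReal ((Wz s z θ ^ N)⁻¹)

/-- POW: growth of the weight -/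
def T_POW : Prop := ∀ n : ℕ, ∃ C : ℝ, 0 < C ∧ ∀ (s : ℝ) (z : Z n) (θ : EE n), 0 < s → s ≤ 1 →
  ‖θ‖ ≤ 1 / 3 → 1 + ‖z‖ ≤ C * (1 + |tz z| + s⁻¹) * Wz s z θ ^ 2 ∧
    ‖Yz z θ‖ ≤ C * Wz s z θ ^ 2 * (s⁻¹ + Real.sqrt |tz z|)

/-- TRP: transport of a plank -/
def T_TRP : Prop := ∀ n : ℕ, ∃ C : ℝ, 1 ≤ C ∧ ∀ (s r ρ : ℝ) (η θ : EE n) (z₁ z z' z₀ : Z n),
  0 < s → s ≤ 1 → 1 ≤ r → 1 ≤ ρ → ‖θ‖ ≤ 1 / 3 → ‖θ - η‖ ≤ 7 * s → z ∈ pl η s r z₁ →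
  z' ∈ pl η s r z₁ → tz z = tz z' → tz z₀ = 0 → Wz s (z - z₀) θ ≤ ρ →
  |Qz (z' - z₀) θ| ≤ C * ρ * r ∧ ‖Yz (z' - z₀) θ‖ ≤ C * ρ ^ 2 * (r / s + Real.sqrt |tz z|)

/-- VOL: volume of the region -/
def T_VOL : Prop := ∀ n : ℕ, ∃ C : ℝ, 1 ≤ C ∧ ∀ (t s r ρ : ℝ) (η : EE n), 0 < s → s ≤ 1 →
  1 ≤ r → 1 ≤ ρ → ‖η‖ ≤ 1 / 3 →
  IsClosed (SV t s (ρ * r) (ρ * (r / s + Real.sqrt |t|)) η) ∧
  volume (SV t s (ρ * r) (ρ * (r / s + Real.sqrt |t|)) η) ≤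
    ENNReal.ofReal (C * ρ ^ (n + 2) * r * (r / s + |t| * s) ^ n)

/-- TAI: contribution of the points outside the region -/
def T_TAI : Prop := ∀ (n N : ℕ) (κ : ℝ) (a : EE (n + 1) → ℂ), 1 ≤ n → κ ≤ 1 / 8 →
  SymE n κ a →
  ∃ C : ℝ, 0 < C ∧ ∀ (η : EE n) (s ρ t : ℝ) (U : Set (EE (n + 1))), 0 < s → s ≤ 1 → 1 ≤ ρ →
  MeasurableSet U → (∀ x ∈ U, ∀ θ ∈ Th η s, ρ ≤ Wz s (zt x t) θ) →
  ∫⁻ x in U, ‖Kt (ac a η s) t x‖ₑ ≤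
    ENNReal.ofReal (C * (1 + |t| + s⁻¹) ^ (n + 3) * (ρ ^ N)⁻¹)

/-- SHP: the sharp plank bound for planks with centre in the support -/
def T_SHP : Prop := ∀ (n : ℕ) (κ δ : ℝ) (a : EE (n + 1) → ℂ) (X χ : ℝ → ℂ), 1 ≤ n → κ ≤ 1 / 8 →
  SymE n κ a → IsX X χ → 0 < δ → ∃ C : ℝ, 0 < C ∧ ∀ (R A s r : ℝ) (η η' : EE n) (z₁ : Z n)
  (f : EE (n + 1) → ℂ), 1 ≤ R → BCd A f → 0 < A → 0 < s → s ≤ 1 → 1 ≤ r → r ≤ 16 * R * s ^ 2 →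
  ‖η'‖ ≤ 1 / 3 → ‖η - η'‖ ≤ 3 * s →
  ∫⁻ z in pl η' s r z₁, ‖Ua (ac a η s) (tz z) f (xz z) * χ (tz z / R)‖ₑ ^ 2 ≤
    ENNReal.ofReal (C * R ^ δ * (A ^ 2 * (R * s ^ 2 / r) ^ n * (r / s) ^ (n + 2)))

/-- CLS: the wave belongs to the class -/
def T_CLS : Prop := ∀ (n L : ℕ) (κ δ : ℝ) (a : EE (n + 1) → ℂ) (X χ : ℝ → ℂ), 1 ≤ n →
  2 * n + 6 ≤ L →
  κ ≤ 1 / 8 → SymE n κ a → IsX X χ → 0 < δ → ∃ C : ℝ, 0 < C ∧ ∀ (R A : ℝ) (f : EE (n + 1) → ℂ),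
  1 ≤ R → 0 < A → BCd A f → Cls L (1 / 4) R (C * R ^ δ * A) (Gf X R a f)

end Pool.Agent.H81.GT
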