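import Pool.Agent.H81.GT.Defs
import Pool.Agent.H19.LS.STRONG

/-!
Local smoothing, general data: from the restricted type estimate to the strong type, with the
end point.
-/

set_option autoImplicit false

namespace Pool.Agent.H81.GT

open MeasureTheory Set FourierTransform
open scoped ENNReal NNReal SchwartzMap
open Pool.Agent.H83.LS Pool.Agent.H19.LS

/-- restricted type estimate at one exponent, with loss -/
def RESq (n : ℕ) (q η : ℝ) : Prop := ∃ C : ℝ≥0, ∀ (lam A : ℝ)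
  (f : EE (n + 1) → ℂ), 1 ≤ lam → BCd A f →
  ∫⁻ t in Icc (1 : ℝ) 2, ∫⁻ x, ‖MM (mT lam t) f x‖ₑ ^ q ≤
    C * ENNReal.ofReal (lam ^ ((n : ℝ) * (q / 2 - 1) - 1 + η) * A ^ (q - 2)) * ∫⁻ x, ‖f x‖ₑ ^ 2

/-- energy -/
theorem mT_energy (hPLE : T_PLE) {n : ℕ} {lam A : ℝ} (hl : 1 ≤ lam) {f : EE (n + 1) → ℂ}
    (hf : BCd A f) :
    ∫⁻ t in Icc (1 : ℝ) 2, ∫⁻ x, ‖MM (mT lam t) f x‖ₑ ^ 2 ≤ ∫⁻ x, ‖f x‖ₑ ^ 2 := by
  have hl0 : 0 < lam := by linarith
  calc ∫⁻ t in Icc (1 : ℝ) 2, ∫⁻ x, ‖MM (mT lam t) f x‖ₑ ^ 2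
      ≤ ∫⁻ t in Icc (1 : ℝ) 2, ∫⁻ x, ‖f x‖ₑ ^ 2 := by
        refine lintegral_mono fun t => ?_
        exact (hPLE (n + 1) (mT lam t) f (mT_cont lam hl0 t).measurable (mT_le lam hl0 t)
          (mT_int lam hl0 t) (BCd_int A f hf) ⟨A, hf.2.1⟩ hf.1).2
    _ = ∫⁻ x, ‖f x‖ₑ ^ 2 := by
        rw [setLIntegral_const, Real.volume_Icc]
        norm_num

/-- exponents slightly below the critical one -/
theorem resq_below (hPLE : T_PLE) {n : ℕ} {p₀ : ℝ} (hp₀ : 2 < p₀) (hRES : RES n p₀) {η : ℝ}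
    (hη : 0 < η) : ∃ ν : ℝ, 0 < ν ∧ ν ≤ (p₀ - 2) / 2 ∧ ∀ q : ℝ, p₀ - ν ≤ q → RESq n q η := by
  set ν : ℝ := min ((p₀ - 2) / 2) (η * (p₀ - 2) / 8) with hν
  have hν0 : 0 < ν := by
    have : 0 < p₀ - 2 := by linarith
    exact lt_min (by positivity) (by positivity)
  have hν1 : ν ≤ (p₀ - 2) / 2 := min_le_left _ _
  have hν2 : ν ≤ η * (p₀ - 2) / 8 := min_le_right _ _
  refine ⟨ν, hν0, hν1, fun q hq => ?_⟩
  rcases lt_or_ge p₀ q with h | h
  · exact hRES q η h hη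
  set q' : ℝ := p₀ + ν with hq'
  obtain ⟨C, hC⟩ := hRES q' (η / 2) (by linarith) (by positivity)
  refine ⟨1 + C, fun lam A f hl hf => ?_⟩
  have hl0 : 0 < lam := by linarith
  have hA0 : 0 ≤ A := (norm_nonneg (f 0)).trans (hf.2.1 0)
  have hq2 : 0 < q - 2 := by linarith
  rcases hA0.eq_or_lt with hA | hA
  · have hf0 : f = 0 := by
      funext x
      have := hf.2.1 x
      rw [← hA] at this
      exact norm_le_zero_iff.1 this
    have h0 : ∀ t x, MM (mT lam t) f x = 0 := by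
      intro t x
      unfold MM
      have h0 : 𝓕 f = 0 := by
        rw [hf0]
        funext ξ
        simp [Real.fourier_eq]
      rw [h0]
      simp
    simp only [h0]
    rw [lintegral_congr (g := fun _ => 0)]
    · simp
    · intro t
      rw [lintegral_congr (g := fun _ => 0)]
      · simp
      · intro x
        rw [enorm_zero, ENNReal.zero_rpow_of_pos (by linarith)]
  set b : ℝ := (n : ℝ) / 2 - (1 - η) / (q - 2) with hb
  set L : ℝ := A * lam ^ b with hL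
  have hL0 : 0 < L := by positivity
  have hpt : ∀ u : ℝ≥0∞, u ^ q ≤ ENNReal.ofReal (L ^ (q - 2)) * u ^ 2 +
      ENNReal.ofReal (L ^ (q - q')) * u ^ q' := by
    intro u
    rcases eq_or_ne u ⊤ with rfl | hu
    · refine le_trans le_top (le_of_eq ?_)
      rw [ENNReal.top_pow (by norm_num), ENNReal.mul_top]
      · simp
      · rw [Ne, ENNReal.ofReal_eq_zero, not_le]
        positivity
    · lift u to ℝ≥0 using hu
      rw [← ENNReal.ofReal_coe_nnreal, ENNReal.ofReal_rpow_of_nonneg (NNReal.coe_nonneg u)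
        (by linarith), ← ENNReal.ofReal_pow (NNReal.coe_nonneg u),
        ENNReal.ofReal_rpow_of_nonneg (NNReal.coe_nonneg u) (by linarith),
        ← ENNReal.ofReal_mul (by positivity), ← ENNReal.ofReal_mul (by positivity),
        ← ENNReal.ofReal_add (by positivity) (by positivity)]
      apply ENNReal.ofReal_le_ofReal
      set x : ℝ := (u : ℝ) with hx
      have hx0 : 0 ≤ x := NNReal.coe_nonneg u
      rcases hx0.eq_or_lt with h0 | h0
      · rw [← h0, Real.zero_rpow (by linarith)]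
        positivity
      rcases le_or_gt x L with h1 | h1
      · have h2 : x ^ q = x ^ (q - 2) * x ^ 2 := by
          rw [← Real.rpow_natCast x 2, ← Real.rpow_add h0]
          congr 1
          push_cast
          ring
        have h3 : x ^ (q - 2) ≤ L ^ (q - 2) := Real.rpow_le_rpow hx0 h1 hq2.le
        have h4 : 0 ≤ L ^ (q - q') * x ^ q' := by positivity
        rw [h2]
        nlinarith [sq_nonneg x]
      · have h2 : x ^ q = x ^ (q - q') * x ^ q' := by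
          rw [← Real.rpow_add h0]
          congr 1
          ring
        have h3 : x ^ (q - q') ≤ L ^ (q - q') :=
          Real.rpow_le_rpow_of_nonpos hL0 h1.le (by linarith)
        have h4 : 0 ≤ L ^ (q - 2) * x ^ 2 := by positivity
        have h5 : 0 ≤ x ^ q' := by positivity
        rw [h2]
        nlinarith
  have hm2 : Measurable fun y : ℝ × EE (n + 1) => ‖MM (mT lam y.1) f y.2‖ₑ :=
    (MM_cont lam hl0 f (BCd_int _ _ hf)).measurable.enorm
  have h1 : ∫⁻ t in Icc (1 : ℝ) 2, ∫⁻ x, ‖MM (mT lam t) f x‖ₑ ^ q ≤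
      ENNReal.ofReal (L ^ (q - 2)) * (∫⁻ t in Icc (1 : ℝ) 2, ∫⁻ x, ‖MM (mT lam t) f x‖ₑ ^ 2) +
      ENNReal.ofReal (L ^ (q - q')) *
        ∫⁻ t in Icc (1 : ℝ) 2, ∫⁻ x, ‖MM (mT lam t) f x‖ₑ ^ q' := by
    rw [st_eq (fun y => ‖MM (mT lam y.1) f y.2‖ₑ ^ q) (hm2.pow_const q),
      st_eq (fun y => ‖MM (mT lam y.1) f y.2‖ₑ ^ 2) (hm2.pow_const 2),
      st_eq (fun y => ‖MM (mT lam y.1) f y.2‖ₑ ^ q') (hm2.pow_const q'),
      ← lintegral_const_mul' _ _ ENNReal.ofReal_ne_top,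
      ← lintegral_const_mul' _ _ ENNReal.ofReal_ne_top,
      ← lintegral_add_left ((hm2.pow_const 2).const_mul _)]
    exact lintegral_mono fun y => hpt _
  refine h1.trans ?_
  have h2 := mT_energy hPLE hl hf
  have h3 := hC lam A f hl hf
  set J : ℝ≥0∞ := ∫⁻ x, ‖f x‖ₑ ^ 2 with hJ
  set W : ℝ := lam ^ ((n : ℝ) * (q / 2 - 1) - 1 + η) * A ^ (q - 2) with hW
  have e1 : L ^ (q - 2) = W := by
    rw [hL, hW, Real.mul_rpow hA.le (by positivity), ← Real.rpow_mul hl0.le, mul_comm]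
    congr 2
    rw [hb]
    field_simp
    ring
  have e2 : L ^ (q - q') * (lam ^ ((n : ℝ) * (q' / 2 - 1) - 1 + η / 2) * A ^ (q' - 2)) ≤ W := by
    have e3 : L ^ (q - q') * (lam ^ ((n : ℝ) * (q' / 2 - 1) - 1 + η / 2) * A ^ (q' - 2)) =
        lam ^ (b * (q - q') + ((n : ℝ) * (q' / 2 - 1) - 1 + η / 2)) * A ^ (q - 2) := by
      have e4 : lam ^ (b * (q - q') + ((n : ℝ) * (q' / 2 - 1) - 1 + η / 2)) =
          lam ^ (b * (q - q')) * lam ^ ((n : ℝ) * (q' / 2 - 1) - 1 + η / 2) :=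
        Real.rpow_add hl0 _ _
      have e5 : A ^ (q - 2) = A ^ (q - q') * A ^ (q' - 2) := by
        rw [← Real.rpow_add hA]
        congr 1
        ring
      rw [hL, Real.mul_rpow hA.le (by positivity), ← Real.rpow_mul hl0.le, e4, e5]
      ring
    rw [e3, hW]
    refine mul_le_mul_of_nonneg_right (Real.rpow_le_rpow_of_exponent_le hl ?_) (by positivity)
    · have h5 : (1 - η) / (q - 2) * (q' - q) ≤ η / 2 := by
        have h6 : q' - q ≤ 2 * ν := by linarith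
        have h7 : (p₀ - 2) / 2 ≤ q - 2 := by linarith
        rcases le_or_gt 1 η with h8 | h8
        · have : (1 - η) / (q - 2) ≤ 0 := div_nonpos_of_nonpos_of_nonneg (by linarith) hq2.le
          have h9 : 0 ≤ q' - q := by linarith
          nlinarith
        · rw [div_mul_eq_mul_div, div_le_iff₀ hq2]
          have h9 : (1 - η) * (q' - q) ≤ 1 * (2 * ν) := by
            apply mul_le_mul (by linarith) h6 (by linarith) (by norm_num)
          nlinarith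
      have h10 : b * (q - q') + ((n : ℝ) * (q' / 2 - 1) - 1 + η / 2) =
          (n : ℝ) * (q / 2 - 1) - 1 + η / 2 + (1 - η) / (q - 2) * (q' - q) := by
        rw [hb]
        ring
      rw [h10]
      linarith
  calc ENNReal.ofReal (L ^ (q - 2)) * (∫⁻ t in Icc (1 : ℝ) 2, ∫⁻ x, ‖MM (mT lam t) f x‖ₑ ^ 2) +
      ENNReal.ofReal (L ^ (q - q')) *
        ∫⁻ t in Icc (1 : ℝ) 2, ∫⁻ x, ‖MM (mT lam t) f x‖ₑ ^ q'
      ≤ ENNReal.ofReal (L ^ (q - 2)) * J + ENNReal.ofReal (L ^ (q - q')) *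
        (C * ENNReal.ofReal (lam ^ ((n : ℝ) * (q' / 2 - 1) - 1 + η / 2) * A ^ (q' - 2)) * J) := by
        gcongr
    _ = ENNReal.ofReal W * J + C * ENNReal.ofReal (L ^ (q - q') *
        (lam ^ ((n : ℝ) * (q' / 2 - 1) - 1 + η / 2) * A ^ (q' - 2))) * J := by
        rw [e1, ENNReal.ofReal_mul (p := L ^ (q - q')) (by positivity)]
        generalize ENNReal.ofReal W = u1
        generalize ENNReal.ofReal (L ^ (q - q')) = u2
        generalize ENNReal.ofReal (lam ^ ((n : ℝ) * (q' / 2 - 1) - 1 + η / 2) *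
          A ^ (q' - 2)) = u3
        ring
    _ ≤ ENNReal.ofReal W * J + C * ENNReal.ofReal W * J := by
        gcongr
    _ = _ := by
        push_cast
        ring

/-- strong type for bounded functions with compact support -/
theorem strong_BC2 (hMARC : T_MARC) (hPLE : T_PLE) (n : ℕ) (p₀ p η : ℝ) (hn : 2 ≤ n)
    (hp₀ : 2 < p₀) (hp : p₀ ≤ p) (hη : 0 < η) (hRES : RES n p₀) : ∃ C : ℝ≥0, ∀ (lam A : ℝ)
    (f : EE (n + 1) → ℂ), 1 ≤ lam → BCd A f →
    ∫⁻ q, ‖MM (mT lam q.1) f q.2‖ₑ ^ p ∂(stm (n + 1)) ≤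
      C * ENNReal.ofReal (lam ^ ((n : ℝ) * (p / 2 - 1) - 1 + η)) * ∫⁻ x, ‖f x‖ₑ ^ p := by
  have hn0 : (0 : ℝ) < n := by
    have : 0 < n := by omega
    exact_mod_cast this
  have hp2 : 2 < p := by linarith
  obtain ⟨ν, hν0, hν1, hν⟩ := resq_below hPLE hp₀ hRES (show 0 < η / 2 by positivity)
  set q₁ := p - ν with hq₁
  set q₂ := p + η / n with hq₂
  have hηn : 0 < η / n := by positivity
  obtain ⟨C₁, hC₁⟩ := hν q₁ (by linarith)
  obtain ⟨C₂, hC₂⟩ := hν q₂ (by linarith)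
  obtain ⟨C, hC⟩ := hMARC q₁ p q₂ (by linarith) (by linarith) (by linarith)
  set C' : ℝ := C₁ * 2 ^ q₁ + C₂ * 2 ^ q₂ with hC'
  have hC'0 : 0 ≤ C' := by positivity
  refine ⟨C * C'.toNNReal, fun lam A f hl hf => ?_⟩
  have hl0 : 0 < lam := by linarith
  have hEx1 : (n : ℝ) * (q₁ / 2 - 1) - 1 + η / 2 ≤ (n : ℝ) * (p / 2 - 1) - 1 + η := by
    have : q₁ / 2 - 1 ≤ p / 2 - 1 := by linarith
    nlinarith
  have hEx2 : (n : ℝ) * (q₂ / 2 - 1) - 1 + η / 2 ≤ (n : ℝ) * (p / 2 - 1) - 1 + η := by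
    have h1 : (n : ℝ) * (q₂ / 2 - 1) = (n : ℝ) * (p / 2 - 1) + η / 2 := by
      rw [hq₂]
      field_simp
      ring
    linarith
  set B : ℝ≥0∞ := ENNReal.ofReal (C' * lam ^ ((n : ℝ) * (p / 2 - 1) - 1 + η)) with hB
  have hgen : ∀ (q : ℝ) (Cq : ℝ≥0), 2 < q → (Cq : ℝ) * 2 ^ q ≤ C' →
      (n : ℝ) * (q / 2 - 1) - 1 + η / 2 ≤ (n : ℝ) * (p / 2 - 1) - 1 + η → (∀ (lam A : ℝ)
      (f : EE (n + 1) → ℂ), 1 ≤ lam → BCd A f →
      ∫⁻ t in Icc (1 : ℝ) 2, ∫⁻ x, ‖MM (mT lam t) f x‖ₑ ^ q ≤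
      Cq * ENNReal.ofReal (lam ^ ((n : ℝ) * (q / 2 - 1) - 1 + η / 2) * A ^ (q - 2)) *
        ∫⁻ x, ‖f x‖ₑ ^ 2) →
      ∀ l : ℤ, ∫⁻ y, ‖MM (mT lam y.1) (pc f l) y.2‖ₑ ^ q ∂(stm (n + 1)) ≤
        B * ENNReal.ofReal ((2 : ℝ) ^ ((l : ℝ) * q)) * volume (lev f l) := by
    intro q Cq hq hCC hEx hR l
    rw [← st_eq (fun y => ‖MM (mT lam y.1) (pc f l) y.2‖ₑ ^ q)
      ((MM_cont lam hl0 (pc f l) (BCd_int _ _ (pc_BCd A f hf l))).measurable.enorm.pow_const q)]
    refine (hR lam _ (pc f l) hl (pc_BCd A f hf l)).trans ?_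
    refine (mul_le_mul' le_rfl (pc_l2 f hf.1 l)).trans ?_
    rw [← mul_assoc]
    apply mul_le_mul' _ le_rfl
    have hpos : (0 : ℝ) < (2 : ℝ) ^ ((l : ℝ) + 1) := by positivity
    rw [← ENNReal.ofReal_coe_nnreal, ← ENNReal.ofReal_mul (NNReal.coe_nonneg Cq),
      ← ENNReal.ofReal_mul (by positivity), hB, ← ENNReal.ofReal_mul (by positivity)]
    apply ENNReal.ofReal_le_ofReal
    have e1 : ((2 : ℝ) ^ ((l : ℝ) + 1)) ^ (q - 2) * ((2 : ℝ) ^ ((l : ℝ) + 1)) ^ (2 : ℝ)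
        = (2 : ℝ) ^ q * (2 : ℝ) ^ ((l : ℝ) * q) := by
      rw [← Real.rpow_add hpos, ← Real.rpow_mul (by norm_num), ← Real.rpow_add (by norm_num)]
      congr 1
      ring
    have e2 : lam ^ ((n : ℝ) * (q / 2 - 1) - 1 + η / 2) ≤
        lam ^ ((n : ℝ) * (p / 2 - 1) - 1 + η) :=
      Real.rpow_le_rpow_of_exponent_le hl hEx
    calc (Cq : ℝ) * (lam ^ ((n : ℝ) * (q / 2 - 1) - 1 + η / 2) *
          ((2 : ℝ) ^ ((l : ℝ) + 1)) ^ (q - 2)) * ((2 : ℝ) ^ ((l : ℝ) + 1)) ^ (2 : ℝ)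
        = (Cq * 2 ^ q) * lam ^ ((n : ℝ) * (q / 2 - 1) - 1 + η / 2) *
            (2 : ℝ) ^ ((l : ℝ) * q) := by
          rw [mul_assoc (Cq : ℝ), mul_assoc (lam ^ _), e1]
          ring
      _ ≤ _ := by gcongr
  have hgm : ∀ l : ℤ, Measurable fun y : ℝ × EE (n + 1) => ‖MM (mT lam y.1) (pc f l) y.2‖ₑ :=
    fun l => (MM_cont lam hl0 (pc f l) (BCd_int _ _ (pc_BCd A f hf l))).measurable.enorm
  have h1 := hC (ℝ × EE (n + 1)) (stm (n + 1)) (fun l y => ‖MM (mT lam y.1) (pc f l) y.2‖ₑ)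
    (fun l => volume (lev f l)) B hgm
    (hgen q₁ C₁ (by linarith) (by
      have : 0 ≤ (C₂ : ℝ) * 2 ^ q₂ := by positivity
      linarith) hEx1 hC₁)
    (hgen q₂ C₂ (by linarith) (by
      have : 0 ≤ (C₁ : ℝ) * 2 ^ q₁ := by positivity
      linarith) hEx2 hC₂)
  calc ∫⁻ q, ‖MM (mT lam q.1) f q.2‖ₑ ^ p ∂(stm (n + 1))
      ≤ ∫⁻ q, (∑' l : ℤ, ‖MM (mT lam q.1) (pc f l) q.2‖ₑ) ^ p ∂(stm (n + 1)) := by
        refine lintegral_mono fun q => ?_
        exact ENNReal.rpow_le_rpow (MM_tsum lam hl0 hPLE q.1 A f hf q.2) (by linarith)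
    _ ≤ _ := h1
    _ ≤ C * B * ∫⁻ x, ‖f x‖ₑ ^ p := mul_le_mul' le_rfl (lev_sum f hf.1 p (by linarith))
    _ = _ := by
        rw [hB, ENNReal.ofReal_mul hC'0]
        push_cast
        rw [← mul_assoc]
        rfl

/-- from the restricted type estimate to the strong type -/
theorem bla_of_res2 (hMARC : T_MARC) (hPLE : T_PLE) {n : ℕ} {p₀ p : ℝ} (hn : 2 ≤ n)
    (hp₀ : 2 < p₀) (hp : p₀ ≤ p) (hRES : RES n p₀) : BLA n p := by
  intro η hη
  obtain ⟨C, hC⟩ := strong_BC2 hMARC hPLE n p₀ p η hn hp₀ hp hη hRES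
  refine ⟨C, fun lam fs hl => ?_⟩
  have hl0 : 0 < lam := by linarith
  have hp0 : 0 ≤ p := by linarith
  obtain ⟨f, hfd⟩ : ∃ f : EE (n + 1) → ℂ, f = (fs : EE (n + 1) → ℂ) := ⟨_, rfl⟩
  rw [← hfd]
  have hm : Measurable f := by rw [hfd]; exact fs.continuous.measurable
  have hfi : Integrable f := by rw [hfd]; exact fs.integrable
  obtain ⟨A, hA⟩ : ∃ A : ℝ, ∀ x, ‖f x‖ ≤ A := by
    obtain ⟨A, hA⟩ := fs.decay 0 0
    exact ⟨A, fun x => by rw [hfd]; simpa using hA.2 x⟩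
  set fk : ℕ → EE (n + 1) → ℂ := fun k => (Metric.closedBall (0 : EE (n + 1)) k).indicator f
    with hfk
  have hmk : ∀ k, Measurable (fk k) := fun k => hm.indicator measurableSet_closedBall
  have hle : ∀ k x, ‖fk k x‖ ≤ ‖f x‖ := fun k x => norm_indicator_le_norm_self f x
  have hBC : ∀ k, BCd A (fk k) := by
    intro k
    refine ⟨hmk k, fun x => (hle k x).trans (hA x), k, fun x hx => ?_⟩
    rw [hfk]
    simp only
    rw [indicator_of_notMem]
    rw [mem_closedBall_zero_iff, not_le]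
    exact hx
  have hmeas : ∀ g : EE (n + 1) → ℂ, Integrable g →
      Measurable fun q : ℝ × EE (n + 1) => ‖MM (mT lam q.1) g q.2‖ₑ ^ p := fun g hg =>
    (MM_cont lam hl0 g hg).measurable.enorm.pow_const p
  have hconv : ∀ q : ℝ × EE (n + 1), Filter.Tendsto
      (fun k => ‖MM (mT lam q.1) (fk k) q.2‖ₑ ^ p) Filter.atTop
      (nhds (‖MM (mT lam q.1) f q.2‖ₑ ^ p)) := by
    intro q
    apply Filter.Tendsto.ennrpow_const
    apply Filter.Tendsto.enorm
    rw [MM_conv lam hl0 hPLE q.1 f hfi hm ⟨A, hA⟩ q.2]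
    have e2 : ∀ k, MM (mT lam q.1) (fk k) q.2 = ∫ y, MK (mT lam q.1) (q.2 - y) * fk k y := fun k =>
      MM_conv lam hl0 hPLE q.1 (fk k) (BCd_int A _ (hBC k)) (hmk k) ⟨A, (hBC k).2.1⟩ q.2
    simp_rw [e2]
    have hKm : AEStronglyMeasurable (fun y : EE (n + 1) => MK (mT lam q.1) (q.2 - y)) :=
      ((MK_cont lam hl0 q.1).comp (continuous_const.sub continuous_id)).aestronglyMeasurable
    apply tendsto_integral_of_dominated_convergence
      (fun y => ‖MK (mT lam q.1) (q.2 - y) * f y‖)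
    · intro k
      exact hKm.mul (hmk k).aestronglyMeasurable
    · exact (hfi.bdd_mul (c := ∫ ξ : EE (n + 1), ‖mT lam q.1 ξ‖) hKm
        (Filter.Eventually.of_forall fun y => MK_le lam hl0 q.1 _)).norm
    · intro k
      refine Filter.Eventually.of_forall fun y => ?_
      rw [norm_mul, norm_mul]
      exact mul_le_mul_of_nonneg_left (hle k y) (norm_nonneg _)
    · refine Filter.Eventually.of_forall fun y => ?_
      apply Filter.Tendsto.const_mul
      obtain ⟨k0, hk0⟩ := exists_nat_ge ‖y‖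
      refine tendsto_const_nhds.congr' ?_
      filter_upwards [Filter.eventually_ge_atTop k0] with k hk
      rw [hfk]
      simp only
      rw [indicator_of_mem]
      rw [mem_closedBall_zero_iff]
      exact hk0.trans (by exact_mod_cast hk)
  rw [st_eq (fun q => ‖MM (mT lam q.1) f q.2‖ₑ ^ p) (hmeas f hfi)]
  calc ∫⁻ q, ‖MM (mT lam q.1) f q.2‖ₑ ^ p ∂(stm (n + 1))
      = ∫⁻ q, Filter.liminf (fun k => ‖MM (mT lam q.1) (fk k) q.2‖ₑ ^ p) Filter.atTop
          ∂(stm (n + 1)) := by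
        refine lintegral_congr fun q => ?_
        exact (hconv q).liminf_eq.symm
    _ ≤ Filter.liminf (fun k => ∫⁻ q, ‖MM (mT lam q.1) (fk k) q.2‖ₑ ^ p ∂(stm (n + 1)))
          Filter.atTop :=
        lintegral_liminf_le fun k => hmeas (fk k) (BCd_int A _ (hBC k))
    _ ≤ _ := by
        apply Filter.liminf_le_of_frequently_le'
        apply Filter.Frequently.of_forall
        intro k
        refine (hC lam A (fk k) hl (hBC k)).trans ?_
        apply mul_le_mul' le_rfl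
        refine lintegral_mono fun x => ?_
        apply ENNReal.rpow_le_rpow _ hp0
        rw [← ofReal_norm, ← ofReal_norm]
        exact ENNReal.ofReal_le_ofReal (hle k x)

end Pool.Agent.H81.GT
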