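import Pool.Agent.H81.GT.LEV
import Pool.Agent.H81.GT.CLS
import Pool.Agent.H81.GT.SHP
import Pool.Agent.H81.GT.SC
import Pool.Agent.H81.GT.QA
import Pool.Agent.H81.GT.RB2
import Pool.Agent.H34.G.ACS
import Pool.Agent.H34.G.TRP
import Pool.Agent.H56.G.COV
import Pool.Agent.H35.G.PIE
import Pool.Agent.H33.G.PKB
import Pool.Agent.H33.G.REP
import Pool.Agent.H59.G.T_POW
import Pool.Agent.H70.G.SUB
import Pool.Agent.H70.G.TX
import Pool.Agent.H49.G.TAI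
import Pool.Agent.H1.G.VOL
import Pool.Agent.H83.LS.Chain2

/-!
Theorem G (MP_ee74d2_an), group T: assembly.
-/

set_option autoImplicit false

namespace Pool.Agent.H81.GT

open MeasureTheory Set

theorem all_sec (hGL2 : T_GL2) (hMAIN : Pool.Agent.H83.G.T_MAIN)
    (hSPK : Pool.Agent.H83.G.T_SPK) (hPUX : Pool.Agent.H83.G.T_PUX)
    (hSCH : Pool.Agent.H83.G.T_SCH) (hWM : Pool.Agent.H83.G.T_WM)
    (hAVG : Pool.Agent.H83.G.T_AVG) (hLOA : Pool.Agent.H83.G.T_LOA)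
    (hLOB : Pool.Agent.H83.G.T_LOB) {n : ℕ} {q : ℝ} (hn : 4 ≤ n)
    (hq : 2 + 8 / (3 * (n : ℝ)) < q) : SEC n (1 / 8) q := by
  have hACS : T_ACS := Pool.Agent.H34.G.ACS.pf_ACS
  have hCOV : T_COV := Pool.Agent.H56.G.COV.pf_COV
  have hSUB : T_SUB := Pool.Agent.H70.G.SUB.pf_SUB
  have hPIE : T_PIE := Pool.Agent.H35.G.PIE.pf_PIE hSUB Pool.Agent.H83.LS.Chain.kbv hACS
  have hPKB : T_PKB := Pool.Agent.H33.G.pf_PKB hPIE hACS
  have hPOW : T_POW := Pool.Agent.H59.G.pf_POW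
  have hREP : T_REP := Pool.Agent.H33.G.pf_REP hCOV
  have hTAI : T_TAI := Pool.Agent.H49.G.TAI.pf_TAI hPKB hPOW
  have hTRP : T_TRP := Pool.Agent.H34.G.TRP.pf_TRP hPOW hLOA hLOB
  have hTX : T_TX := Pool.Agent.H70.G.TX.pf_TX
  have hVOL : T_VOL := Pool.Agent.H1.G.VOL.pf_VOL
  have hSHP : T_SHP := pf_SHP hCOV hACS hTAI hTRP hVOL Pool.Agent.H83.LS.Chain.ple hLOA hLOB
  have hCLS : T_CLS := pf_CLS hREP hACS hSHP hWM hAVG hLOA hLOB hSCH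
  exact pf_LEV hTX hCOV hREP hGL2 hCLS hMAIN hSPK hPUX hSCH hn le_rfl hq

theorem all_q1 (hGL2 : T_GL2) (hMAIN : Pool.Agent.H83.G.T_MAIN)
    (hSPK : Pool.Agent.H83.G.T_SPK) (hPUX : Pool.Agent.H83.G.T_PUX)
    (hSCH : Pool.Agent.H83.G.T_SCH) (hWM : Pool.Agent.H83.G.T_WM)
    (hAVG : Pool.Agent.H83.G.T_AVG) (hLOA : Pool.Agent.H83.G.T_LOA)
    (hLOB : Pool.Agent.H83.G.T_LOB) {n : ℕ} {p : ℝ} (hn : 4 ≤ n)
    (hp : 2 + 8 / (3 * (n : ℝ)) ≤ p) : Q1at n p := by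
  have hn0 : (4 : ℝ) ≤ n := by exact_mod_cast hn
  have hpos : 0 < 8 / (3 * (n : ℝ)) := by positivity
  have h1 : RES n (2 + 8 / (3 * (n : ℝ))) :=
    res_of_sec (κ := 1 / 8) (by norm_num) (by linarith) fun q hq =>
      all_sec hGL2 hMAIN hSPK hPUX hSCH hWM hAVG hLOA hLOB hn hq
  have h2 : BLA n p := bla_of_res2 Pool.Agent.H83.LS.Chain.marc Pool.Agent.H83.LS.Chain.ple
    (by omega) (by linarith) hp h1
  exact q1_of_bla Pool.Agent.H83.LS.Chain.radl Pool.Agent.H83.LS.Chain.lowf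
    Pool.Agent.H83.LS.Chain.yg Pool.Agent.H83.LS.Chain.ple (by omega) (by linarith) h2

end Pool.Agent.H81.GT
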