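import Pool.Agent.H83.LS.Targets4
import Pool.Agent.H84.BR.ClaimDefs

/-!
Local smoothing, general data: statements of the reduction (theorem G, group T). The dimension is
`n + 1`.
-/

set_option autoImplicit false

namespace Pool.Agent.H81.GT

open MeasureTheory Set FourierTransform
open scoped ENNReal NNReal SchwartzMap
open Pool.Agent.H83.LS

/-- RES: restricted type estimate at frequency `λ` for the exponents greater than `p₀` -/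
def RES (n : ℕ) (p₀ : ℝ) : Prop := ∀ q η : ℝ, p₀ < q → 0 < η → ∃ C : ℝ≥0, ∀ (lam A : ℝ)
  (f : EE (n + 1) → ℂ), 1 ≤ lam → BCd A f →
  ∫⁻ t in Icc (1 : ℝ) 2, ∫⁻ x, ‖MM (mT lam t) f x‖ₑ ^ q ≤
    C * ENNReal.ofReal (lam ^ ((n : ℝ) * (q / 2 - 1) - 1 + η) * A ^ (q - 2)) * ∫⁻ x, ‖f x‖ₑ ^ 2

/-- BLA: strong type at frequency `λ` -/
def BLA (n : ℕ) (p : ℝ) : Prop := ∀ η : ℝ, 0 < η → ∃ C : ℝ≥0, ∀ (lam : ℝ) (f : 𝓢(EE (n + 1), ℂ)),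
  1 ≤ lam → ∫⁻ t in Icc (1 : ℝ) 2, ∫⁻ x, ‖MM (mT lam t) f x‖ₑ ^ p ≤
    C * ENNReal.ofReal (lam ^ ((n : ℝ) * (p / 2 - 1) - 1 + η)) * ∫⁻ x, ‖f x‖ₑ ^ p

/-- Q1 at the exponent `p` in dimension `n + 1` -/
def Q1at (n : ℕ) (p : ℝ) : Prop := ∀ σ : ℝ, σ < 1 / p → ∃ C : ℝ≥0, ∀ u₀ u₁ : 𝓢(EE (n + 1), ℂ),
  Pool.Agent.H84.BR.CD.solNorm p u₀ u₁ ≤ C * Pool.Agent.H84.BR.CD.datN p σ u₀ u₁

end Pool.Agent.H81.GT
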