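import Pool.Agent.H81.GT.Defs

/-!
Local smoothing, general data: one sector at frequency one and time `R`.
-/

set_option autoImplicit false

namespace Pool.Agent.H81.GT

open MeasureTheory Set FourierTransform
open scoped ENNReal NNReal SchwartzMap
open Pool.Agent.H83.LS

/-- symbols near the direction of the last coordinate -/
def SymE (n : ℕ) (κ : ℝ) (a : EE (n + 1) → ℂ) : Prop :=
  ContDiff ℝ (⊤ : ℕ∞) a ∧ ∀ ξ, a ξ ≠ 0 → 1 / 2 ≤ ‖ξ‖ ∧ ‖ξ‖ ≤ 2 ∧ (1 - κ) * ‖ξ‖ ≤ ξ (Fin.last n)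

/-- `U a f (x, t) = ∫ e(x·ξ + t|ξ|) a(ξ) f^(ξ) dξ` -/
noncomputable def Ua {n : ℕ} (a : EE (n + 1) → ℂ) (t : ℝ) (f : EE (n + 1) → ℂ)
    (x : EE (n + 1)) : ℂ :=
  MM (fun ξ => e (t * ‖ξ‖) * a ξ) f x

/-- SEC: restricted type estimate for a sector at frequency one and time `R` -/
def SEC (n : ℕ) (κ q : ℝ) : Prop := ∀ (η : ℝ) (a : EE (n + 1) → ℂ), 0 < η → SymE n κ a →
  ∃ C : ℝ≥0, ∀ (R A : ℝ) (f : EE (n + 1) → ℂ), 1 ≤ R → BCd A f →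
  ∫⁻ t in Icc R (2 * R), ∫⁻ x, ‖Ua a t f x‖ₑ ^ q ≤
    C * ENNReal.ofReal (R ^ ((n : ℝ) * (q / 2 - 1) + η) * A ^ (q - 2)) * ∫⁻ x, ‖f x‖ₑ ^ 2

end Pool.Agent.H81.GT
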