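import Pool.Agent.H81.GT.Defs2
import Pool.Agent.H82.KL.Targets

/-!
Local smoothing, general data: one sector at frequency one and time `R`, localized in space.
-/

set_option autoImplicit false

namespace Pool.Agent.H81.GT

open MeasureTheory Set FourierTransform
open scoped ENNReal NNReal SchwartzMap
open Pool.Agent.H83.LS

/-- LSEC: restricted type estimate for a sector at frequency one and time `R`, on a ball of
radius `R` and for data supported in the ball of radius `4R` -/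
def LSEC (n : ℕ) (κ q : ℝ) : Prop := ∀ (η : ℝ) (a : EE (n + 1) → ℂ), 0 < η → SymE n κ a →
  ∃ C : ℝ≥0, ∀ (R A : ℝ) (f : EE (n + 1) → ℂ), 1 ≤ R → Measurable f → (∀ x, ‖f x‖ ≤ A) →
  (∀ x, 4 * R < ‖x‖ → f x = 0) →
  ∫⁻ t in Icc R (2 * R), ∫⁻ x in Metric.ball 0 R, ‖Ua a t f x‖ₑ ^ q ≤
    C * ENNReal.ofReal (R ^ ((n : ℝ) * (q / 2 - 1) + η) * A ^ (q - 2)) * ∫⁻ x, ‖f x‖ₑ ^ 2

end Pool.Agent.H81.GT
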