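import Pool.Agent.H93.GT.Targets
import Pool.Agent.H27.SC.Edge

/-!
# Telescoping over the stations and pipes of a node
-/

set_option autoImplicit false

namespace Pool.Agent.H81.GT

open Pool.Agent.H93.GT Pool.Agent.H87.Synth Pool.Agent.H85.SC Finset
open Pool.Agent.H93.ET (sg jj iE iA T_KKL T_CUT T_BRK T_SER T_CRI)
open Pool.Agent.H27.SC (lg_pow lg_eq valid_stay)

/-- the contribution of a station and its pipe -/
noncomputable def tm {d : ℕ → ℝ} (P : Pos d) (g : ℤ → ℂ) (n i : ℕ) : ℂ :=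
  ∑ z ∈ P.RS n i, g z + if i = 1 then 0 else P.gP g n i

/-- the flow into a station -/
noncomputable def en {d : ℕ → ℝ} (P : Pos d) (g : ℤ → ℂ) (n i : ℕ) : ℂ :=
  if i = 1 then 0 else P.gE g n i

theorem tm_eq (h1 : T_GPI) (h2 : T_GFL) (h3 : T_GSG) {d : ℕ → ℝ} (P : Pos d) {S : Set ℕ}
    (hT : IsTree S) {g : ℤ → ℂ} (hR : P.Rls S g) {n : ℕ} (hn : n ∈ S) {i : ℕ}
    (hV : Valid n i) : tm P g n i = P.gS g n i + P.gD g n i - en P g n i := by
  unfold tm en
  rw [(h3 d P).2.2.2.2.1 n i g hV]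
  by_cases hi : i = 1
  · rw [if_pos hi, if_pos hi]
    subst hi
    have hl : lg 1 = 0 := lg_pow 0
    have hn0 : n = 0 := by
      have := hV.2
      rw [hl, pow_zero] at this
      omega
    subst hn0
    rw [(h2 d P S hT g hR 0 hn).2.2.2.2 rfl]
    ring
  · rw [if_neg hi, if_neg hi, h1 d P S g hR n i hn hV hi]
    ring

theorem blockG (h1 : T_GPI) (h2 : T_GFL) (h3 : T_GSG) {d : ℕ → ℝ} (P : Pos d) {S : Set ℕ}
    (hT : IsTree S) {g : ℤ → ℂ} (hR : P.Rls S g) {n : ℕ} (hn : n ∈ S) (b : ℕ)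
    (hb : n < 2 ^ b) :
    ∀ c, 2 ^ b ≤ c → c < 2 ^ (b + 1) →
      ∑ i ∈ Ico (2 ^ b) (c + 1), tm P g n i =
        P.gS g n (2 ^ b) + P.gD g n c - en P g n (2 ^ b) := by
  intro c hc
  induction c, hc using Nat.le_induction with
  | base =>
    intro _
    rw [Finset.sum_Ico_succ_top le_rfl, Finset.Ico_self, Finset.sum_empty, zero_add]
    exact tm_eq h1 h2 h3 P hT hR hn (valid_stay n b hb)
  | succ c hc ih =>
    intro hlt
    rw [Finset.sum_Ico_succ_top (by omega), ih (by omega)]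
    have hlg : lg (c + 1) = b := lg_eq _ _ (by omega) hlt
    have hV : Valid n (c + 1) := ⟨by omega, by rw [hlg]; exact hb⟩
    have hne : c + 1 ≠ 2 ^ lg (c + 1) := by rw [hlg]; omega
    have h0 : 1 ≤ 2 ^ b := Nat.one_le_two_pow
    have hc1 : c + 1 ≠ 1 := by omega
    obtain ⟨e1, e2⟩ := (h2 d P S hT g hR n hn).2.1 (c + 1) hV hne
    rw [tm_eq h1 h2 h3 P hT hR hn hV, e1]
    have e3 : en P g n (c + 1) = P.gD g n c := by
      unfold en
      rw [if_neg hc1, e2, Nat.add_sub_cancel]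
    rw [e3]
    ring

open Classical in
theorem fullG (h1 : T_GPI) (h2 : T_GFL) (h3 : T_GSG) {d : ℕ → ℝ} (P : Pos d) {S : Set ℕ}
    (hT : IsTree S) {g : ℤ → ℂ} (hR : P.Rls S g) {n : ℕ} (hn : n ∈ S) (b : ℕ)
    (hb : n < 2 ^ b) :
    ∑ i ∈ Ico (2 ^ b) (2 ^ (b + 1)), tm P g n i =
      P.gS g n (2 ^ b) - en P g n (2 ^ b) +
        (if n + 2 ^ b ∈ S then P.gE g (n + 2 ^ b) (2 ^ (b + 1)) else 0) := by
  have h0 : 1 ≤ 2 ^ b := Nat.one_le_two_pow
  have h4 : 2 ^ (b + 1) = 2 * 2 ^ b := by rw [pow_succ]; ring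
  have h5 := blockG h1 h2 h3 P hT hR hn b hb (2 ^ (b + 1) - 1) (by omega) (by omega)
  rw [show 2 ^ (b + 1) - 1 + 1 = 2 ^ (b + 1) by omega] at h5
  rw [h5]
  by_cases hS : n + 2 ^ b ∈ S
  · rw [if_pos hS, (h2 d P S hT g hR n hn).2.2.1 b hb hS]
    ring
  · rw [if_neg hS, (h2 d P S hT g hR n hn).2.2.2.1 b hb hS]
    ring

theorem gtl (h1 : T_GPI) (h2 : T_GFL) (h3 : T_GSG) : T_GTL := by
  intro d P S hT g hR n hn a ha
  classical
  change ∑ i ∈ Ico (2 ^ Nat.size n) (2 ^ (a + 1)), tm P g n i = _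
  have hsz : n < 2 ^ Nat.size n := Nat.lt_size_self n
  have hlt : ∀ b, Nat.size n ≤ b → n < 2 ^ b := fun b hb =>
    lt_of_lt_of_le hsz (Nat.pow_le_pow_right (by norm_num) hb)
  induction a, ha using Nat.le_induction with
  | base =>
    rw [fullG h1 h2 h3 P hT hR hn _ hsz]
    have e0 : en P g n (2 ^ Nat.size n) = P.gI g n := by
      unfold en Pos.gI
      by_cases h0 : n = 0
      · subst h0
        rw [Nat.size_zero, pow_zero, if_pos rfl, if_pos rfl]
      · have h6 : 2 ^ Nat.size n ≠ 1 := by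
          intro h7
          rw [h7] at hsz
          omega
        rw [if_neg h0, if_neg h6]
    rw [e0]
    unfold kids
    rw [Finset.sum_filter, Finset.sum_Ico_succ_top le_rfl, Finset.Ico_self, Finset.sum_empty,
      zero_add]
  | succ a ha ih =>
    have h4 : 2 ^ (a + 1) ≤ 2 ^ (a + 1 + 1) := Nat.pow_le_pow_right (by norm_num) (by omega)
    have h5 : 2 ^ Nat.size n ≤ 2 ^ (a + 1) := Nat.pow_le_pow_right (by norm_num) (by omega)
    rw [← Finset.sum_Ico_consecutive _ h5 h4, ih,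
      fullG h1 h2 h3 P hT hR hn (a + 1) (hlt _ (by omega))]
    have h6 : 2 ^ (a + 1) ≠ 1 := by
      have h7 : 1 ≤ 2 ^ a := Nat.one_le_two_pow
      rw [pow_succ]
      omega
    have e1 : en P g n (2 ^ (a + 1)) = P.gS g n (2 ^ a) := by
      unfold en
      rw [if_neg h6]
      exact (h2 d P S hT g hR n hn).1 a (hlt a ha)
    have e4 : ∑ b ∈ kids S n (a + 1 + 1), P.gE g (n + 2 ^ b) (2 ^ (b + 1))
        = ∑ b ∈ kids S n (a + 1), P.gE g (n + 2 ^ b) (2 ^ (b + 1))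
          + (if n + 2 ^ (a + 1) ∈ S then P.gE g (n + 2 ^ (a + 1)) (2 ^ (a + 1 + 1)) else 0) := by
      unfold kids
      rw [Finset.sum_filter, Finset.sum_filter, Finset.sum_Ico_succ_top (by omega)]
    rw [e1, e4]
    ring

end Pool.Agent.H81.GT
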