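import Pool.Agent.H81.GT.TargetsT

/-!
Theorem G (MP_ee74d2_an), group T: from the level sets to `SEC`.
-/

set_option autoImplicit false

namespace Pool.Agent.H81.GT

open MeasureTheory Set FourierTransform
open scoped ENNReal NNReal RealInnerProductSpace
open Pool.Agent.H83.LS
open Pool.Agent.H83.G (Z TF Rg Cls pl Lo Bp TP Sep Bd xm)

theorem haarZ (m : ℕ) : (volume : Measure (Z m)).IsAddHaarMeasure := by
  have : (volume : Measure (EE m × ℝ)).IsAddHaarMeasure :=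
    Measure.prod.instIsAddHaarMeasure (volume : Measure (EE m)) (volume : Measure ℝ)
  exact Measure.prod.instIsAddHaarMeasure (volume : Measure ℝ) (volume : Measure (EE m × ℝ))

/-- volume of a level set -/
theorem lev_vol {n : ℕ} {F : Z n → ℝ} {K H p₀ : ℝ} (hH : 0 < H)
    (hK : ∀ X : Finset (Z n), Sep X → (∀ z ∈ X, H ≤ F z) → (X.card : ℝ) * H ^ p₀ ≤ K) :
    volume {z : Z n | H ≤ F z} ≤
      volume (Metric.ball (0 : Z n) 1) * ENNReal.ofReal (K * H ^ (-p₀)) := by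
  classical
  have := haarZ n
  have hHp : 0 < H ^ p₀ := Real.rpow_pos_of_pos hH _
  set M : ℕ := ⌊K / H ^ p₀⌋₊ with hM
  have hb : ∀ X : Finset (Z n), Sep X → (∀ z ∈ X, H ≤ F z) → X.card ≤ M := by
    intro X h1 h2
    exact Nat.le_floor ((le_div_iff₀ hHp).2 (hK X h1 h2))
  let P : ℕ → Prop := fun k => ∃ X : Finset (Z n), Sep X ∧ (∀ z ∈ X, H ≤ F z) ∧ X.card = k
  have hP0 : P 0 := ⟨∅, by intro z hz; simp at hz, by intro z hz; simp at hz, rfl⟩
  set k₀ := Nat.findGreatest P M with hk₀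
  have hPk : P k₀ := Nat.findGreatest_spec (m := 0) (Nat.zero_le _) hP0
  obtain ⟨X, hX1, hX2, hX3⟩ := hPk
  have hcov : {z : Z n | H ≤ F z} ⊆ ⋃ z' ∈ X, Metric.ball z' 1 := by
    intro z hz
    by_contra hcon
    have hfar : ∀ z' ∈ X, 1 ≤ ‖z - z'‖ := by
      intro z' hz'
      by_contra h
      apply hcon
      simp only [mem_iUnion, Metric.mem_ball, dist_eq_norm]
      exact ⟨z', hz', by linarith⟩
    have hzX : z ∉ X := by
      intro h
      have := hfar z h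
      rw [sub_self, norm_zero] at this
      linarith
    have h1 : Sep (insert z X) := by
      intro u hu u' hu' hne
      rw [Finset.mem_insert] at hu hu'
      rcases hu with rfl | hu
      · rcases hu' with rfl | hu'
        · exact absurd rfl hne
        · exact hfar u' hu'
      · rcases hu' with rfl | hu'
        · rw [norm_sub_rev]; exact hfar u hu
        · exact hX1 u hu u' hu' hne
    have h2 : ∀ u ∈ insert z X, H ≤ F u := by
      intro u hu
      rw [Finset.mem_insert] at hu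
      rcases hu with rfl | hu
      · exact hz
      · exact hX2 u hu
    have h3 : P (insert z X).card := ⟨_, h1, h2, rfl⟩
    have h4 : (insert z X).card ≤ k₀ := Nat.le_findGreatest (hb _ h1 h2) h3
    rw [Finset.card_insert_of_notMem hzX, hX3] at h4
    omega
  refine (measure_mono hcov).trans ?_
  refine (measure_biUnion_finset_le _ _).trans ?_
  have h5 : ∀ z' ∈ X, volume (Metric.ball z' 1) = volume (Metric.ball (0 : Z n) 1) := by
    intro z' _
    exact Measure.addHaar_ball_center volume z' 1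
  rw [Finset.sum_congr rfl h5, Finset.sum_const, nsmul_eq_mul, mul_comm]
  gcongr
  rw [← ENNReal.ofReal_natCast]
  apply ENNReal.ofReal_le_ofReal
  rw [Real.rpow_neg hH.le, ← div_eq_mul_inv]
  exact (le_div_iff₀ hHp).2 (hK X hX1 hX2)

/-- from level sets to the `L^q` norm -/
theorem lev_cake {n : ℕ} {F : Z n → ℝ} (hF : Measurable F) (hF0 : ∀ z, 0 ≤ F z) {K B p₀ q : ℝ}
    (hK0 : 0 ≤ K) (hB0 : 0 < B) (hp : 0 < p₀) (hq : p₀ < q)
    (hK : ∀ H : ℝ, 0 < H → ∀ X : Finset (Z n), Sep X → (∀ z ∈ X, H ≤ F z) →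
      (X.card : ℝ) * H ^ p₀ ≤ K) (hB : ∀ z, F z ≤ B) :
    ∫⁻ z, ENNReal.ofReal (F z ^ q) ≤ volume (Metric.ball (0 : Z n) 1) *
      ENNReal.ofReal (q / (q - p₀) * (B ^ (q - p₀) * K)) := by
  have hq0 : 0 < q := hp.trans hq
  rw [lintegral_rpow_eq_lintegral_meas_le_mul _ (Filter.Eventually.of_forall hF0) hF.aemeasurable
    hq0]
  have h1 : ∫⁻ t in Ioi (0 : ℝ), volume {z : Z n | t ≤ F z} * ENNReal.ofReal (t ^ (q - 1)) ≤
      ∫⁻ t in Ioc (0 : ℝ) B, volume (Metric.ball (0 : Z n) 1) *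
        ENNReal.ofReal (K * t ^ (q - p₀ - 1)) := by
    rw [← lintegral_indicator measurableSet_Ioi, ← lintegral_indicator measurableSet_Ioc]
    refine lintegral_mono fun t => ?_
    by_cases ht : t ∈ Ioi (0 : ℝ)
    · rw [indicator_of_mem ht]
      by_cases htB : t ≤ B
      · rw [indicator_of_mem (show t ∈ Ioc (0 : ℝ) B from ⟨ht, htB⟩)]
        have ht0 : (0 : ℝ) < t := ht
        refine (mul_le_mul_left (lev_vol ht0 (hK t ht0)) _).trans ?_
        have e1 : K * t ^ (-p₀) * t ^ (q - 1) = K * t ^ (q - p₀ - 1) := by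
          rw [mul_assoc, ← Real.rpow_add ht0]
          ring_nf
        rw [mul_assoc, ← ENNReal.ofReal_mul (by positivity), e1]
      · have h0 : {z : Z n | t ≤ F z} = ∅ := by
          ext z
          simp only [mem_ofPred_eq, mem_empty_iff_false, iff_false, not_le]
          exact lt_of_le_of_lt (hB z) (not_le.1 htB)
        rw [h0, measure_empty, zero_mul]
        exact zero_le
    · rw [indicator_of_notMem ht]
      exact zero_le
  have h2 : ∫⁻ t in Ioc (0 : ℝ) B, ENNReal.ofReal (K * t ^ (q - p₀ - 1)) =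
      ENNReal.ofReal (K * (B ^ (q - p₀) / (q - p₀))) := by
    rw [← ofReal_integral_eq_lintegral_ofReal]
    · rw [← intervalIntegral.integral_of_le hB0.le, intervalIntegral.integral_const_mul,
        integral_rpow (Or.inl (by linarith))]
      rw [Real.zero_rpow (by linarith), sub_zero]
      have e2 : q - p₀ - 1 + 1 = q - p₀ := by ring
      rw [e2]
    · have := (intervalIntegral.intervalIntegrable_rpow' (a := 0) (b := B)
        (r := q - p₀ - 1) (by linarith)).const_mul K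
      rwa [intervalIntegrable_iff_integrableOn_Ioc_of_le hB0.le] at this
    · refine (ae_restrict_iff' measurableSet_Ioc).2 (Filter.Eventually.of_forall fun t ht => ?_)
      exact mul_nonneg hK0 (Real.rpow_nonneg ht.1.le _)
  calc ENNReal.ofReal q * ∫⁻ t in Ioi (0 : ℝ), volume {z : Z n | t ≤ F z} *
        ENNReal.ofReal (t ^ (q - 1))
      ≤ ENNReal.ofReal q * ∫⁻ t in Ioc (0 : ℝ) B, volume (Metric.ball (0 : Z n) 1) *
        ENNReal.ofReal (K * t ^ (q - p₀ - 1)) := by gcongr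
    _ = ENNReal.ofReal q * (volume (Metric.ball (0 : Z n) 1) *
        ENNReal.ofReal (K * (B ^ (q - p₀) / (q - p₀)))) := by
        rw [lintegral_const_mul' _ _ (by exact measure_ball_lt_top.ne), h2]
    _ = _ := by
        rw [← mul_assoc, mul_comm (ENNReal.ofReal q), mul_assoc, ← ENNReal.ofReal_mul hq0.le]
        congr 2
        have : q - p₀ ≠ 0 := by linarith
        field_simp

/-- the exponents and constants -/
theorem lev_const {n : ℕ} {q ε δ η R A Cc Cm Cg Cs I : ℝ} (hn : 4 ≤ n)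
    (_hq : 2 + xm n < q) (hR : 1 ≤ R) (hA : 0 < A) (hCc : 0 < Cc) (hCm : 0 < Cm) (hCg : 0 < Cg)
    (hCs : 0 < Cs) (hI : 0 ≤ I) (hε : ε + δ * (q - 2) ≤ η) :
    (Cs * (Cc * R ^ δ * A) * R ^ ((n : ℝ) / 2)) ^ (q - (2 + xm n)) *
      (Cm * R ^ ε * (Cc * R ^ δ * A) ^ xm n * R ^ (1 / 3 : ℝ) * (Cg * R * I)) ≤
    Cs ^ (q - (2 + xm n)) * Cc ^ (q - 2) * Cm * Cg *
      (R ^ ((n : ℝ) * (q / 2 - 1) + η) * A ^ (q - 2) * I) := by
  have hR0 : 0 < R := by linarith
  have hn0 : (0 : ℝ) < n := by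
    have : (4 : ℝ) ≤ n := by exact_mod_cast hn
    linarith
  have hx : (n : ℝ) / 2 * xm n = 4 / 3 := by
    unfold xm
    field_simp
    norm_num
  have hA' : 0 < Cc * R ^ δ * A := by positivity
  have e1 : (Cs * (Cc * R ^ δ * A) * R ^ ((n : ℝ) / 2)) ^ (q - (2 + xm n)) =
      Cs ^ (q - (2 + xm n)) * (Cc * R ^ δ * A) ^ (q - (2 + xm n)) *
        R ^ ((n : ℝ) / 2 * (q - (2 + xm n))) := by
    rw [Real.mul_rpow (by positivity) (by positivity), Real.mul_rpow hCs.le hA'.le,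
      ← Real.rpow_mul hR0.le]
  have e2 : (Cc * R ^ δ * A) ^ (q - (2 + xm n)) * (Cc * R ^ δ * A) ^ xm n =
      Cc ^ (q - 2) * R ^ (δ * (q - 2)) * A ^ (q - 2) := by
    rw [← Real.rpow_add hA', show q - (2 + xm n) + xm n = q - 2 by ring,
      Real.mul_rpow (by positivity) hA.le, Real.mul_rpow hCc.le (by positivity),
      ← Real.rpow_mul hR0.le]
  have e3 : R ^ ((n : ℝ) / 2 * (q - (2 + xm n))) * R ^ ε * R ^ (δ * (q - 2)) * R ^ (1 / 3 : ℝ) * R =
      R ^ ((n : ℝ) * (q / 2 - 1) + (ε + δ * (q - 2))) := by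
    have : R = R ^ (1 : ℝ) := (Real.rpow_one R).symm
    conv_lhs => rw [this]
    rw [← Real.rpow_mul hR0.le, ← Real.rpow_mul hR0.le, ← Real.rpow_mul hR0.le,
      ← Real.rpow_mul hR0.le, ← Real.rpow_add hR0, ← Real.rpow_add hR0, ← Real.rpow_add hR0,
      ← Real.rpow_add hR0]
    congr 1
    linear_combination (-1 : ℝ) * hx
  have e4 : (Cs * (Cc * R ^ δ * A) * R ^ ((n : ℝ) / 2)) ^ (q - (2 + xm n)) *
      (Cm * R ^ ε * (Cc * R ^ δ * A) ^ xm n * R ^ (1 / 3 : ℝ) * (Cg * R * I)) =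
      Cs ^ (q - (2 + xm n)) * Cc ^ (q - 2) * Cm * Cg *
      (R ^ ((n : ℝ) * (q / 2 - 1) + (ε + δ * (q - 2))) * A ^ (q - 2) * I) := by
    rw [e1, ← e3]
    linear_combination (Cs ^ (q - (2 + xm n)) * R ^ ((n : ℝ) / 2 * (q - (2 + xm n))) * Cm *
      R ^ ε * R ^ (1 / 3 : ℝ) * Cg * R * I) * e2
  rw [e4]
  gcongr

theorem pf_LEV (hTX : T_TX) (hCOV : T_COV) (hREP : T_REP) (hGL2 : T_GL2) (hCLS : T_CLS)
    (hMAIN : Pool.Agent.H83.G.T_MAIN) (hSPK : Pool.Agent.H83.G.T_SPK)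
    (hPUX : Pool.Agent.H83.G.T_PUX) (hSCH : Pool.Agent.H83.G.T_SCH) {n : ℕ} {κ q : ℝ} (hn : 4 ≤ n)
    (hκ : κ ≤ 1 / 8) (hq : 2 + 8 / (3 * (n : ℝ)) < q) : SEC n κ q := by
  intro η a hη ha
  have hq' : 2 + xm n < q := hq
  have hx0 : 0 < xm n := by
    unfold xm
    have : (4 : ℝ) ≤ n := by exact_mod_cast hn
    positivity
  have hq2 : 2 < q := by linarith
  obtain ⟨X, χ, hX⟩ := hTX
  obtain ⟨β, hβ⟩ := hPUX n
  set δ : ℝ := η / (2 * q) with hδ
  have hδ0 : 0 < δ := by positivity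
  have hεδ : η / 2 + δ * (q - 2) ≤ η := by
    have : δ * q = η / 2 := by rw [hδ]; field_simp
    nlinarith
  obtain ⟨Cc, hCc, hc⟩ := hCLS n (2 * n + 6) κ δ a X χ (by omega) le_rfl hκ ha hX hδ0
  obtain ⟨Cm, hCm, hm⟩ := hMAIN n (2 * n + 6) (η / 2) hn le_rfl (by positivity)
  obtain ⟨Cg, hCg, hg⟩ := hGL2 n κ a X χ hκ ha hX
  obtain ⟨Cs, hCs, hs⟩ := hSPK n (2 * n + 6) β hβ
  set c₀ : ℝ≥0∞ := volume (Metric.ball (0 : Z n) 1) with hc₀
  have hc₀t : c₀ ≠ ⊤ := by
    have := haarZ n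
    exact measure_ball_lt_top.ne
  set C₁ : ℝ := q / (q - (2 + xm n)) * (Cs ^ (q - (2 + xm n)) * Cc ^ (q - 2) * Cm * Cg) with hC₁
  have hC₁0 : 0 < C₁ := by
    have : 0 < q - (2 + xm n) := by linarith
    positivity
  refine ⟨(2 * c₀ * ENNReal.ofReal C₁).toNNReal, ?_⟩
  intro R A f hR hf
  have hR0 : 0 < R := by linarith
  rw [ENNReal.coe_toNNReal (by finiteness)]
  have hA0 : 0 ≤ A := (norm_nonneg (f 0)).trans (hf.2.1 0)
  rcases hA0.eq_or_lt with hA | hA
  · have hf0 : f = 0 := by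
      funext x
      have := hf.2.1 x
      rw [← hA] at this
      exact norm_le_zero_iff.1 this
    have : ∀ t x, Ua a t f x = 0 := by
      intro t x
      unfold Ua MM
      have h0 : 𝓕 f = 0 := by
        rw [hf0]
        funext ξ
        simp [Real.fourier_eq]
      rw [h0]
      simp
    simp only [this]
    rw [lintegral_congr (g := fun _ => 0)]
    · simp
    · intro t
      rw [lintegral_congr (g := fun _ => 0)]
      · simp
      · intro x
        rw [enorm_zero, ENNReal.zero_rpow_of_pos (by linarith)]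
  set G := Gf X R a f with hG
  obtain ⟨hTC, hRg, hrep⟩ := hREP n κ R A a f X χ hκ ha hX hR hf
  have hcls := hc R A f hR hA hf
  have hA' : 0 < Cc * R ^ δ * A := by positivity
  have hmain := fun (H : ℝ) (hH : 0 < H) (X' : Finset (Z n)) (hX' : Sep X')
    (h : ∀ z ∈ X', H ≤ ‖TF G z‖) => hm R hR (Cc * R ^ δ * A) H G X' hA' hH hcls hX' h
  set K : ℝ := Cm * R ^ (η / 2) * (Cc * R ^ δ * A) ^ xm n * R ^ (1 / 3 : ℝ) *
    ∫ ζ, ‖G ζ‖ ^ 2 with hK
  have hI0 : 0 ≤ ∫ ζ, ‖G ζ‖ ^ 2 := integral_nonneg fun ζ => by positivity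
  have hK0 : 0 ≤ K := by positivity
  set B : ℝ := Cs * (Cc * R ^ δ * A) * R ^ ((n : ℝ) / 2) with hB
  have hB0 : 0 < B := by positivity
  have hsup : ∀ z, ‖TF G z‖ ≤ B :=
    (hs (1 / 4) R (Cc * R ^ δ * A) G (by norm_num) (by norm_num) hR hA' hcls).2
  have hcont : Continuous (TF G) := (hSCH n G hTC).1
  have h1 := lev_cake (F := fun z => ‖TF G z‖) hcont.norm.measurable (fun z => norm_nonneg _)
    hK0 hB0 (by positivity) hq' (fun H hH X' hX' h => hmain H hH X' hX' h) hsup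
  set I : ℝ := (∫⁻ x, ‖f x‖ₑ ^ 2).toReal with hI
  have hI0' : 0 ≤ I := ENNReal.toReal_nonneg
  have hft : ∫⁻ x, ‖f x‖ₑ ^ 2 ≠ ⊤ := by
    obtain ⟨ρ, hρ⟩ := hf.2.2
    have : ∫⁻ x, ‖f x‖ₑ ^ 2 ≤ ENNReal.ofReal (A ^ 2) * volume (Metric.closedBall (0 : EE (n + 1)) ρ) := by
      rw [← setLIntegral_const, ← lintegral_indicator measurableSet_closedBall]
      refine lintegral_mono fun x => ?_
      by_cases hx : x ∈ Metric.closedBall (0 : EE (n + 1)) ρ
      · rw [indicator_of_mem hx, ← ofReal_norm, ← ENNReal.ofReal_pow (norm_nonneg _)]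
        apply ENNReal.ofReal_le_ofReal
        have := hf.2.1 x
        have h0 := norm_nonneg (f x)
        nlinarith
      · rw [indicator_of_notMem hx, hρ x (by simpa using hx)]
        simp
    exact ne_top_of_le_ne_top (by
      exact ENNReal.mul_ne_top ENNReal.ofReal_ne_top measure_closedBall_lt_top.ne) this
  have h2 : K ≤ Cm * R ^ (η / 2) * (Cc * R ^ δ * A) ^ xm n * R ^ (1 / 3 : ℝ) * (Cg * R * I) := by
    rw [hK]
    gcongr
    exact hg R A f hR hf
  have h3 : q / (q - (2 + xm n)) * (B ^ (q - (2 + xm n)) * K) ≤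
      C₁ * (R ^ ((n : ℝ) * (q / 2 - 1) + η) * A ^ (q - 2) * I) := by
    have h4 := lev_const (n := n) (q := q) (ε := η / 2) (δ := δ) (η := η) hn hq' hR hA hCc hCm hCg
      hCs hI0' hεδ
    have h5 : 0 < q - (2 + xm n) := by linarith
    calc q / (q - (2 + xm n)) * (B ^ (q - (2 + xm n)) * K) ≤ q / (q - (2 + xm n)) *
          (B ^ (q - (2 + xm n)) *
            (Cm * R ^ (η / 2) * (Cc * R ^ δ * A) ^ xm n * R ^ (1 / 3 : ℝ) * (Cg * R * I))) := by
          gcongr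
      _ ≤ q / (q - (2 + xm n)) * (Cs ^ (q - (2 + xm n)) * Cc ^ (q - 2) * Cm * Cg *
            (R ^ ((n : ℝ) * (q / 2 - 1) + η) * A ^ (q - 2) * I)) := by
          gcongr
      _ = _ := by rw [hC₁]; ring
  have hmF : Measurable (fun z : Z n => ‖TF G z‖ₑ ^ q) := hcont.enorm.measurable.pow_const q
  have h4 : ∫⁻ t in Icc R (2 * R), ∫⁻ x, ‖Ua a t f x‖ₑ ^ q ≤
      2 * ∫⁻ z, ‖TF G z‖ₑ ^ q := by
    have h5 := (hCOV n).2.2.1 (fun z => ‖TF G z‖ₑ ^ q) hmF
    have h6 : 2 * ∫⁻ z, ‖TF G z‖ₑ ^ q =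
        ∫⁻ t : ℝ, ∫⁻ x : EE (n + 1), ‖TF G (zt x t)‖ₑ ^ q := by
      rw [h5, ← mul_assoc, ENNReal.mul_inv_cancel (by norm_num) (by norm_num), one_mul]
    rw [h6]
    rw [← lintegral_indicator measurableSet_Icc]
    refine lintegral_mono fun t => ?_
    by_cases ht : t ∈ Icc R (2 * R)
    · rw [indicator_of_mem ht]
      refine lintegral_mono fun x => ?_
      refine ENNReal.rpow_le_rpow ?_ (by linarith)
      rw [hrep, ((hCOV n).1 x t).1, ((hCOV n).1 x t).2, enorm_mul]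
      have h7 : 1 ≤ ‖χ (t / R)‖ := hX.2.2.2.1 _ ⟨by rw [le_div_iff₀ hR0]; linarith [ht.1],
        by rw [div_le_iff₀ hR0]; exact ht.2⟩
      have h8 : (1 : ℝ≥0∞) ≤ ‖χ (t / R)‖ₑ := by
        rw [← ofReal_norm]
        exact ENNReal.one_le_ofReal.2 h7
      exact le_mul_of_one_le_right zero_le h8
    · rw [indicator_of_notMem ht]
      exact zero_le
  have h5 : ∫⁻ z, ‖TF G z‖ₑ ^ q = ∫⁻ z, ENNReal.ofReal (‖TF G z‖ ^ q) := by
    refine lintegral_congr fun z => ?_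
    rw [← ofReal_norm, ENNReal.ofReal_rpow_of_nonneg (norm_nonneg _) (by linarith)]
  rw [h5] at h4
  refine h4.trans ?_
  calc 2 * ∫⁻ z, ENNReal.ofReal (‖TF G z‖ ^ q)
      ≤ 2 * (c₀ * ENNReal.ofReal (C₁ * (R ^ ((n : ℝ) * (q / 2 - 1) + η) * A ^ (q - 2) * I))) := by
        gcongr
        exact h1.trans (mul_le_mul_right (ENNReal.ofReal_le_ofReal h3) _)
    _ = 2 * c₀ * ENNReal.ofReal C₁ *
        ENNReal.ofReal (R ^ ((n : ℝ) * (q / 2 - 1) + η) * A ^ (q - 2)) * ∫⁻ x, ‖f x‖ₑ ^ 2 := by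
        have hP0 : 0 ≤ R ^ ((n : ℝ) * (q / 2 - 1) + η) * A ^ (q - 2) := by positivity
        have e7 : ENNReal.ofReal (C₁ * (R ^ ((n : ℝ) * (q / 2 - 1) + η) * A ^ (q - 2) * I)) =
            ENNReal.ofReal C₁ * (ENNReal.ofReal (R ^ ((n : ℝ) * (q / 2 - 1) + η) * A ^ (q - 2)) *
              ENNReal.ofReal I) := by
          rw [← ENNReal.ofReal_mul hP0, ← ENNReal.ofReal_mul hC₁0.le]
        have e8 : ENNReal.ofReal I = ∫⁻ x, ‖f x‖ₑ ^ 2 := ENNReal.ofReal_toReal hft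
        rw [e7, e8]
        ring

end Pool.Agent.H81.GT
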