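import Pool.Agent.H81.GT.Defs
import Pool.Agent.H19.LS.STRONG

/-!
Local smoothing, general data: from the restricted type estimate to the strong type.
-/

set_option autoImplicit false

namespace Pool.Agent.H81.GT

open MeasureTheory Set FourierTransform
open scoped ENNReal NNReal SchwartzMap
open Pool.Agent.H83.LS Pool.Agent.H19.LS

/-- strong type for bounded functions with compact support -/
theorem strong_BC (hMARC : T_MARC) (hPLE : T_PLE) (n : ℕ) (p₀ p η : ℝ) (hn : 2 ≤ n)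
    (hp₀ : 2 ≤ p₀) (hp : p₀ < p) (hη : 0 < η) (hRES : RES n p₀) : ∃ C : ℝ≥0, ∀ (lam A : ℝ)
    (f : EE (n + 1) → ℂ), 1 ≤ lam → BCd A f →
    ∫⁻ q, ‖MM (mT lam q.1) f q.2‖ₑ ^ p ∂(stm (n + 1)) ≤
      C * ENNReal.ofReal (lam ^ ((n : ℝ) * (p / 2 - 1) - 1 + η)) * ∫⁻ x, ‖f x‖ₑ ^ p := by
  have hn0 : (0 : ℝ) < n := by
    have : 0 < n := by omega
    exact_mod_cast this
  have hp2 : 2 < p := by linarith
  set q₁ := (p₀ + p) / 2 with hq₁
  set q₂ := p + η / n with hq₂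
  have hηn : 0 < η / n := by positivity
  obtain ⟨C₁, hC₁⟩ := hRES q₁ (η / 2) (by linarith) (by positivity)
  obtain ⟨C₂, hC₂⟩ := hRES q₂ (η / 2) (by linarith) (by positivity)
  obtain ⟨C, hC⟩ := hMARC q₁ p q₂ (by linarith) (by linarith) (by linarith)
  set C' : ℝ := C₁ * 2 ^ q₁ + C₂ * 2 ^ q₂ with hC'
  have hC'0 : 0 ≤ C' := by positivity
  refine ⟨C * C'.toNNReal, fun lam A f hl hf => ?_⟩
  have hl0 : 0 < lam := by linarith
  have hEx1 : (n : ℝ) * (q₁ / 2 - 1) - 1 + η / 2 ≤ (n : ℝ) * (p / 2 - 1) - 1 + η := by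
    have : q₁ / 2 - 1 ≤ p / 2 - 1 := by linarith
    nlinarith
  have hEx2 : (n : ℝ) * (q₂ / 2 - 1) - 1 + η / 2 ≤ (n : ℝ) * (p / 2 - 1) - 1 + η := by
    have h1 : (n : ℝ) * (q₂ / 2 - 1) = (n : ℝ) * (p / 2 - 1) + η / 2 := by
      rw [hq₂]
      field_simp
      ring
    linarith
  set B : ℝ≥0∞ := ENNReal.ofReal (C' * lam ^ ((n : ℝ) * (p / 2 - 1) - 1 + η)) with hB
  have hgen : ∀ (q : ℝ) (Cq : ℝ≥0), 2 < q → (Cq : ℝ) * 2 ^ q ≤ C' →
      (n : ℝ) * (q / 2 - 1) - 1 + η / 2 ≤ (n : ℝ) * (p / 2 - 1) - 1 + η → (∀ (lam A : ℝ)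
      (f : EE (n + 1) → ℂ), 1 ≤ lam → BCd A f →
      ∫⁻ t in Icc (1 : ℝ) 2, ∫⁻ x, ‖MM (mT lam t) f x‖ₑ ^ q ≤
      Cq * ENNReal.ofReal (lam ^ ((n : ℝ) * (q / 2 - 1) - 1 + η / 2) * A ^ (q - 2)) *
        ∫⁻ x, ‖f x‖ₑ ^ 2) →
      ∀ l : ℤ, ∫⁻ y, ‖MM (mT lam y.1) (pc f l) y.2‖ₑ ^ q ∂(stm (n + 1)) ≤
        B * ENNReal.ofReal ((2 : ℝ) ^ ((l : ℝ) * q)) * volume (lev f l) := by
    intro q Cq hq hCC hEx hR l
    rw [← st_eq (fun y => ‖MM (mT lam y.1) (pc f l) y.2‖ₑ ^ q)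
      ((MM_cont lam hl0 (pc f l) (BCd_int _ _ (pc_BCd A f hf l))).measurable.enorm.pow_const q)]
    refine (hR lam _ (pc f l) hl (pc_BCd A f hf l)).trans ?_
    refine (mul_le_mul' le_rfl (pc_l2 f hf.1 l)).trans ?_
    rw [← mul_assoc]
    apply mul_le_mul' _ le_rfl
    have hpos : (0 : ℝ) < (2 : ℝ) ^ ((l : ℝ) + 1) := by positivity
    rw [← ENNReal.ofReal_coe_nnreal, ← ENNReal.ofReal_mul (NNReal.coe_nonneg Cq),
      ← ENNReal.ofReal_mul (by positivity), hB, ← ENNReal.ofReal_mul (by positivity)]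
    apply ENNReal.ofReal_le_ofReal
    have e1 : ((2 : ℝ) ^ ((l : ℝ) + 1)) ^ (q - 2) * ((2 : ℝ) ^ ((l : ℝ) + 1)) ^ (2 : ℝ)
        = (2 : ℝ) ^ q * (2 : ℝ) ^ ((l : ℝ) * q) := by
      rw [← Real.rpow_add hpos, ← Real.rpow_mul (by norm_num), ← Real.rpow_add (by norm_num)]
      congr 1
      ring
    have e2 : lam ^ ((n : ℝ) * (q / 2 - 1) - 1 + η / 2) ≤
        lam ^ ((n : ℝ) * (p / 2 - 1) - 1 + η) :=
      Real.rpow_le_rpow_of_exponent_le hl hEx
    calc (Cq : ℝ) * (lam ^ ((n : ℝ) * (q / 2 - 1) - 1 + η / 2) *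
          ((2 : ℝ) ^ ((l : ℝ) + 1)) ^ (q - 2)) * ((2 : ℝ) ^ ((l : ℝ) + 1)) ^ (2 : ℝ)
        = (Cq * 2 ^ q) * lam ^ ((n : ℝ) * (q / 2 - 1) - 1 + η / 2) *
            (2 : ℝ) ^ ((l : ℝ) * q) := by
          rw [mul_assoc (Cq : ℝ), mul_assoc (lam ^ _), e1]
          ring
      _ ≤ _ := by gcongr
  have hgm : ∀ l : ℤ, Measurable fun y : ℝ × EE (n + 1) => ‖MM (mT lam y.1) (pc f l) y.2‖ₑ :=
    fun l => (MM_cont lam hl0 (pc f l) (BCd_int _ _ (pc_BCd A f hf l))).measurable.enorm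
  have h1 := hC (ℝ × EE (n + 1)) (stm (n + 1)) (fun l y => ‖MM (mT lam y.1) (pc f l) y.2‖ₑ)
    (fun l => volume (lev f l)) B hgm
    (hgen q₁ C₁ (by linarith) (by
      have : 0 ≤ (C₂ : ℝ) * 2 ^ q₂ := by positivity
      linarith) hEx1 hC₁)
    (hgen q₂ C₂ (by linarith) (by
      have : 0 ≤ (C₁ : ℝ) * 2 ^ q₁ := by positivity
      linarith) hEx2 hC₂)
  calc ∫⁻ q, ‖MM (mT lam q.1) f q.2‖ₑ ^ p ∂(stm (n + 1))
      ≤ ∫⁻ q, (∑' l : ℤ, ‖MM (mT lam q.1) (pc f l) q.2‖ₑ) ^ p ∂(stm (n + 1)) := by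
        refine lintegral_mono fun q => ?_
        exact ENNReal.rpow_le_rpow (MM_tsum lam hl0 hPLE q.1 A f hf q.2) (by linarith)
    _ ≤ _ := h1
    _ ≤ C * B * ∫⁻ x, ‖f x‖ₑ ^ p := mul_le_mul' le_rfl (lev_sum f hf.1 p (by linarith))
    _ = _ := by
        rw [hB, ENNReal.ofReal_mul hC'0]
        push_cast
        rw [← mul_assoc]
        rfl

/-- from the restricted type estimate to the strong type -/
theorem bla_of_res (hMARC : T_MARC) (hPLE : T_PLE) {n : ℕ} {p₀ p : ℝ} (hn : 2 ≤ n)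
    (hp₀ : 2 ≤ p₀) (hp : p₀ < p) (hRES : RES n p₀) : BLA n p := by
  intro η hη
  obtain ⟨C, hC⟩ := strong_BC hMARC hPLE n p₀ p η hn hp₀ hp hη hRES
  refine ⟨C, fun lam fs hl => ?_⟩
  have hl0 : 0 < lam := by linarith
  have hp0 : 0 ≤ p := by linarith
  obtain ⟨f, hfd⟩ : ∃ f : EE (n + 1) → ℂ, f = (fs : EE (n + 1) → ℂ) := ⟨_, rfl⟩
  rw [← hfd]
  have hm : Measurable f := by rw [hfd]; exact fs.continuous.measurable
  have hfi : Integrable f := by rw [hfd]; exact fs.integrable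
  obtain ⟨A, hA⟩ : ∃ A : ℝ, ∀ x, ‖f x‖ ≤ A := by
    obtain ⟨A, hA⟩ := fs.decay 0 0
    exact ⟨A, fun x => by rw [hfd]; simpa using hA.2 x⟩
  set fk : ℕ → EE (n + 1) → ℂ := fun k => (Metric.closedBall (0 : EE (n + 1)) k).indicator f
    with hfk
  have hmk : ∀ k, Measurable (fk k) := fun k => hm.indicator measurableSet_closedBall
  have hle : ∀ k x, ‖fk k x‖ ≤ ‖f x‖ := fun k x => norm_indicator_le_norm_self f x
  have hBC : ∀ k, BCd A (fk k) := by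
    intro k
    refine ⟨hmk k, fun x => (hle k x).trans (hA x), k, fun x hx => ?_⟩
    rw [hfk]
    simp only
    rw [indicator_of_notMem]
    rw [mem_closedBall_zero_iff, not_le]
    exact hx
  have hmeas : ∀ g : EE (n + 1) → ℂ, Integrable g →
      Measurable fun q : ℝ × EE (n + 1) => ‖MM (mT lam q.1) g q.2‖ₑ ^ p := fun g hg =>
    (MM_cont lam hl0 g hg).measurable.enorm.pow_const p
  have hconv : ∀ q : ℝ × EE (n + 1), Filter.Tendsto
      (fun k => ‖MM (mT lam q.1) (fk k) q.2‖ₑ ^ p) Filter.atTop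
      (nhds (‖MM (mT lam q.1) f q.2‖ₑ ^ p)) := by
    intro q
    apply Filter.Tendsto.ennrpow_const
    apply Filter.Tendsto.enorm
    rw [MM_conv lam hl0 hPLE q.1 f hfi hm ⟨A, hA⟩ q.2]
    have e2 : ∀ k, MM (mT lam q.1) (fk k) q.2 = ∫ y, MK (mT lam q.1) (q.2 - y) * fk k y := fun k =>
      MM_conv lam hl0 hPLE q.1 (fk k) (BCd_int A _ (hBC k)) (hmk k) ⟨A, (hBC k).2.1⟩ q.2
    simp_rw [e2]
    have hKm : AEStronglyMeasurable (fun y : EE (n + 1) => MK (mT lam q.1) (q.2 - y)) :=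
      ((MK_cont lam hl0 q.1).comp (continuous_const.sub continuous_id)).aestronglyMeasurable
    apply tendsto_integral_of_dominated_convergence
      (fun y => ‖MK (mT lam q.1) (q.2 - y) * f y‖)
    · intro k
      exact hKm.mul (hmk k).aestronglyMeasurable
    · exact (hfi.bdd_mul (c := ∫ ξ : EE (n + 1), ‖mT lam q.1 ξ‖) hKm
        (Filter.Eventually.of_forall fun y => MK_le lam hl0 q.1 _)).norm
    · intro k
      refine Filter.Eventually.of_forall fun y => ?_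
      rw [norm_mul, norm_mul]
      exact mul_le_mul_of_nonneg_left (hle k y) (norm_nonneg _)
    · refine Filter.Eventually.of_forall fun y => ?_
      apply Filter.Tendsto.const_mul
      obtain ⟨k0, hk0⟩ := exists_nat_ge ‖y‖
      refine tendsto_const_nhds.congr' ?_
      filter_upwards [Filter.eventually_ge_atTop k0] with k hk
      rw [hfk]
      simp only
      rw [indicator_of_mem]
      rw [mem_closedBall_zero_iff]
      exact hk0.trans (by exact_mod_cast hk)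
  rw [st_eq (fun q => ‖MM (mT lam q.1) f q.2‖ₑ ^ p) (hmeas f hfi)]
  calc ∫⁻ q, ‖MM (mT lam q.1) f q.2‖ₑ ^ p ∂(stm (n + 1))
      = ∫⁻ q, Filter.liminf (fun k => ‖MM (mT lam q.1) (fk k) q.2‖ₑ ^ p) Filter.atTop
          ∂(stm (n + 1)) := by
        refine lintegral_congr fun q => ?_
        exact (hconv q).liminf_eq.symm
    _ ≤ Filter.liminf (fun k => ∫⁻ q, ‖MM (mT lam q.1) (fk k) q.2‖ₑ ^ p ∂(stm (n + 1)))
          Filter.atTop :=
        lintegral_liminf_le fun k => hmeas (fk k) (BCd_int A _ (hBC k))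
    _ ≤ _ := by
        apply Filter.liminf_le_of_frequently_le'
        apply Filter.Frequently.of_forall
        intro k
        refine (hC lam A (fk k) hl (hBC k)).trans ?_
        apply mul_le_mul' le_rfl
        refine lintegral_mono fun x => ?_
        apply ENNReal.rpow_le_rpow _ hp0
        rw [← ofReal_norm, ← ofReal_norm]
        exact ENNReal.ofReal_le_ofReal (hle k x)

end Pool.Agent.H81.GT
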